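import Mathlib

/-!
Orbits under two involutions (alternating chains) and the fact that such a chain has at most two
end vertices.
-/

set_option autoImplicit false

namespace Pool.Agent.Lib.MP_a18785_co

variable {V : Type*}

/-- The orbit of `x` under the two maps `f` and `g`. -/
def orb (f g : V → V) (x : V) : Set V :=
  {w | Relation.ReflTransGen (fun p q => q = f p ∨ q = g p) x w}

lemma orb_self (f g : V → V) (x : V) : x ∈ orb f g x := Relation.ReflTransGen.refl

lemma orb_left {f g : V → V} {x w : V} (h : w ∈ orb f g x) : f w ∈ orb f g x :=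
  Relation.ReflTransGen.tail h (Or.inl rfl)

lemma orb_right {f g : V → V} {x w : V} (h : w ∈ orb f g x) : g w ∈ orb f g x :=
  Relation.ReflTransGen.tail h (Or.inr rfl)

lemma orb_comm (f g : V → V) (x : V) : orb f g x = orb g f x := by
  have : (fun p q : V => q = f p ∨ q = g p) = (fun p q => q = g p ∨ q = f p) := by
    funext p q
    exact propext or_comm
  unfold orb
  rw [this]

lemma orb_trans {f g : V → V} {x y z : V} (h : y ∈ orb f g x) (h' : z ∈ orb f g y) :
    z ∈ orb f g x :=
  Relation.ReflTransGen.trans h h'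

lemma orb_symm {f g : V → V} (hf : ∀ v, f (f v) = v) (hg : ∀ v, g (g v) = v) {x y : V}
    (h : y ∈ orb f g x) : x ∈ orb f g y := by
  induction h with
  | refl => exact orb_self f g x
  | @tail b c _ hbc ih =>
    have h1 : b ∈ orb f g c := by
      rcases hbc with h | h
      · subst h
        have := orb_left (orb_self f g (f b))
        rwa [hf] at this
      · subst h
        have := orb_right (orb_self f g (g b))
        rwa [hg] at this
    exact orb_trans h1 ih

lemma orb_mem_comm {f g : V → V} (hf : ∀ v, f (f v) = v) (hg : ∀ v, g (g v) = v) {x y : V} :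
    y ∈ orb f g x ↔ x ∈ orb f g y :=
  ⟨orb_symm hf hg, orb_symm hf hg⟩

lemma orb_left_iff {f g : V → V} (hf : ∀ v, f (f v) = v) {x w : V} :
    f w ∈ orb f g x ↔ w ∈ orb f g x := by
  constructor
  · intro h
    have := orb_left h
    rwa [hf] at this
  · exact orb_left

lemma orb_right_iff {f g : V → V} (hg : ∀ v, g (g v) = v) {x w : V} :
    g w ∈ orb f g x ↔ w ∈ orb f g x := by
  constructor
  · intro h
    have := orb_right h
    rwa [hg] at this
  · exact orb_right

/-- Two orbits that meet are equal. -/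
lemma orb_eq_of_mem {f g : V → V} (hf : ∀ v, f (f v) = v) (hg : ∀ v, g (g v) = v) {x y : V}
    (h : y ∈ orb f g x) : orb f g y = orb f g x := by
  ext w
  exact ⟨fun hw => orb_trans h hw, fun hw => orb_trans (orb_symm hf hg h) hw⟩

/-- Key arithmetic fact for the ends lemma. -/
private lemma arith_aux (N n m : ℤ) (hn : ¬ N ∣ n) (hm : ¬ N ∣ m) (hnm : ¬ N ∣ (n - m))
    (h1 : N ∣ 2 * n ∨ N ∣ 2 * n - 1) (h2 : N ∣ 2 * m ∨ N ∣ 2 * m - 1) : False := by
  rcases h1 with ⟨s, hs⟩ | ⟨s, hs⟩ <;> rcases h2 with ⟨t, ht⟩ | ⟨t, ht⟩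
  · rcases Int.even_or_odd' s with ⟨s', hs' | hs'⟩
    · apply hn
      refine ⟨s', ?_⟩
      subst hs'
      have : 2 * n = 2 * (N * s') := by rw [hs]; ring
      omega
    rcases Int.even_or_odd' t with ⟨t', ht' | ht'⟩
    · apply hm
      refine ⟨t', ?_⟩
      subst ht'
      have : 2 * m = 2 * (N * t') := by rw [ht]; ring
      omega
    apply hnm
    refine ⟨s' - t', ?_⟩
    subst hs' ht'
    have : 2 * (n - m) = 2 * (N * (s' - t')) := by
      have : 2 * (n - m) = 2 * n - 2 * m := by ring
      rw [this, hs, ht]; ring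
    omega
  · -- N even-ish and N odd
    rcases Int.even_or_odd' s with ⟨s', hs' | hs'⟩
    · apply hn
      refine ⟨s', ?_⟩
      subst hs'
      have : 2 * n = 2 * (N * s') := by rw [hs]; ring
      omega
    rcases Int.even_or_odd' N with ⟨N', hN' | hN'⟩
    · have : 2 * m - 1 = 2 * (N' * t) := by rw [ht, hN']; ring
      omega
    · -- N odd, s odd : product odd
      have : 2 * n = 2 * (N' * (2 * s' + 1) + s') + 1 := by rw [hs, hN', hs']; ring
      omega
  · rcases Int.even_or_odd' t with ⟨t', ht' | ht'⟩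
    · apply hm
      refine ⟨t', ?_⟩
      subst ht'
      have : 2 * m = 2 * (N * t') := by rw [ht]; ring
      omega
    rcases Int.even_or_odd' N with ⟨N', hN' | hN'⟩
    · have : 2 * n - 1 = 2 * (N' * s) := by rw [hs, hN']; ring
      omega
    · have : 2 * m = 2 * (N' * (2 * t' + 1) + t') + 1 := by rw [ht, hN', ht']; ring
      omega
  · rcases Int.even_or_odd' N with ⟨N', hN' | hN'⟩
    · have : 2 * n - 1 = 2 * (N' * s) := by rw [hs, hN']; ring
      omega
    · -- N odd divides 2(n-m)
      apply hnm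
      have h3 : 2 * (n - m) = N * (s - t) := by
        have : 2 * (n - m) = (2 * n - 1) - (2 * m - 1) := by ring
        rw [this, hs, ht]; ring
      rcases Int.even_or_odd' (s - t) with ⟨r, hr | hr⟩
      · refine ⟨r, ?_⟩
        have : 2 * (n - m) = 2 * (N * r) := by rw [h3, hr]; ring
        omega
      · have : 2 * (n - m) = 2 * (N' * (2 * r + 1) + r) + 1 := by rw [h3, hr, hN']; ring
        omega

private lemma ends_aux {f g : V → V} (hf : ∀ v, f (f v) = v) (hg : ∀ v, g (g v) = v)
    {x y z : V} (hx : f x = x) (hy : f y = y ∨ g y = y) (hz : f z = z ∨ g z = z)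
    (hxy : y ∈ orb f g x) (hxz : z ∈ orb f g x) : x = y ∨ x = z ∨ y = z := by
  classical
  let F : Equiv.Perm V := Function.Involutive.toPerm f hf
  let Gp : Equiv.Perm V := Function.Involutive.toPerm g hg
  let r : Equiv.Perm V := Gp * F
  have hF : ∀ v, F v = f v := fun v => rfl
  have hG : ∀ v, Gp v = g v := fun v => rfl
  have hFF : F * F = 1 := by ext v; simp [hF, hf]
  have hGG : Gp * Gp = 1 := by ext v; simp [hG, hg]
  have hFi : F⁻¹ = F := inv_eq_of_mul_eq_one_left hFF
  have hGi : Gp⁻¹ = Gp := inv_eq_of_mul_eq_one_left hGG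
  have hri : r⁻¹ = F * Gp := by simp [r, mul_inv_rev, hFi, hGi]
  have hconj : F * r * F⁻¹ = r⁻¹ := by
    rw [hri, hFi]
    calc F * (Gp * F) * F = F * Gp * (F * F) := by group
      _ = F * Gp := by rw [hFF, mul_one]
  have hFr : ∀ n : ℤ, F * r ^ n = r ^ (-n) * F := by
    intro n
    have : F * r ^ n * F⁻¹ = r ^ (-n) := by
      rw [← conj_zpow, hconj, inv_zpow', ]
    calc F * r ^ n = (F * r ^ n * F⁻¹) * F := by group
      _ = r ^ (-n) * F := by rw [this]
  have hGr : Gp = r * F := by
    simp only [r, mul_assoc, hFF, mul_one]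
  have hFx : F x = x := hx
  have fr : ∀ n : ℤ, f ((r ^ n) x) = (r ^ (-n)) x := by
    intro n
    have := congrArg (fun e : Equiv.Perm V => e x) (hFr n)
    simp only [Equiv.Perm.mul_apply, hFx] at this
    exact this
  have gr : ∀ n : ℤ, g ((r ^ n) x) = (r ^ (1 - n)) x := by
    intro n
    have h1 : Gp * r ^ n = r ^ (1 - n) * F := by
      rw [hGr, mul_assoc, hFr n, ← mul_assoc]
      congr 1
      rw [sub_eq_add_neg, zpow_add, zpow_one]
    have := congrArg (fun e : Equiv.Perm V => e x) h1
    simp only [Equiv.Perm.mul_apply, hFx] at this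
    exact this
  have key : ∀ w, w ∈ orb f g x → ∃ n : ℤ, w = (r ^ n) x := by
    intro w hw
    induction hw with
    | refl => exact ⟨0, by simp⟩
    | @tail b c _ hbc ih =>
      obtain ⟨n, rfl⟩ := ih
      rcases hbc with h | h
      · exact ⟨-n, by rw [h, fr]⟩
      · exact ⟨1 - n, by rw [h, gr]⟩
  obtain ⟨n, hn⟩ := key y hxy
  obtain ⟨m, hm⟩ := key z hxz
  -- the stabiliser as an additive subgroup of ℤ
  let I : AddSubgroup ℤ :=
    { carrier := {n | (r ^ n) x = x}
      zero_mem' := by simp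
      add_mem' := by
        intro a b ha hb
        simp only [Set.mem_ofPred_eq] at *
        rw [zpow_add, Equiv.Perm.mul_apply, hb, ha]
      neg_mem' := by
        intro a ha
        simp only [Set.mem_ofPred_eq] at *
        rw [zpow_neg]
        rw [Equiv.Perm.inv_eq_iff_eq]
        exact ha.symm }
  have hI : ∀ k : ℤ, k ∈ I ↔ (r ^ k) x = x := fun k => Iff.rfl
  have hsub : ∀ a b : ℤ, (r ^ a) x = (r ^ b) x ↔ a - b ∈ I := by
    intro a b
    rw [hI, sub_eq_neg_add, zpow_add, Equiv.Perm.mul_apply, zpow_neg, Equiv.Perm.inv_eq_iff_eq]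
  obtain ⟨N, hN⟩ := Int.subgroup_cyclic I
  have hdvd : ∀ k : ℤ, k ∈ I ↔ N ∣ k := by
    intro k
    rw [hN, AddSubgroup.mem_closure_singleton]
    constructor
    · rintro ⟨t, rfl⟩
      exact ⟨t, by simp [mul_comm]⟩
    · rintro ⟨t, rfl⟩
      exact ⟨t, by simp [mul_comm]⟩
  by_contra hcon
  push Not at hcon
  obtain ⟨c1, c2, c3⟩ := hcon
  have hn' : ¬ N ∣ n := by
    rw [← hdvd, hI, ← hn]
    exact fun h => c1 h.symm
  have hm' : ¬ N ∣ m := by
    rw [← hdvd, hI, ← hm]
    exact fun h => c2 h.symm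
  have hnm' : ¬ N ∣ (n - m) := by
    rw [← hdvd, ← hsub, ← hn, ← hm]
    exact c3
  have e1 : N ∣ 2 * n ∨ N ∣ 2 * n - 1 := by
    rcases hy with h | h
    · left
      rw [hn, fr, hsub, hdvd] at h
      obtain ⟨t, ht⟩ := h
      exact ⟨-t, by linarith⟩
    · right
      rw [hn, gr, hsub, hdvd] at h
      obtain ⟨t, ht⟩ := h
      exact ⟨-t, by linarith⟩
  have e2 : N ∣ 2 * m ∨ N ∣ 2 * m - 1 := by
    rcases hz with h | h
    · left
      rw [hm, fr, hsub, hdvd] at h
      obtain ⟨t, ht⟩ := h
      exact ⟨-t, by linarith⟩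
    · right
      rw [hm, gr, hsub, hdvd] at h
      obtain ⟨t, ht⟩ := h
      exact ⟨-t, by linarith⟩
  exact arith_aux N n m hn' hm' hnm' e1 e2

/-- A chain has at most two ends: among three vertices of one orbit of two involutions, each
fixed by one of the involutions, two coincide. -/
theorem ends3 {f g : V → V} (hf : ∀ v, f (f v) = v) (hg : ∀ v, g (g v) = v)
    {x y z : V} (hx : f x = x ∨ g x = x) (hy : f y = y ∨ g y = y) (hz : f z = z ∨ g z = z)
    (hxy : y ∈ orb f g x) (hxz : z ∈ orb f g x) : x = y ∨ x = z ∨ y = z := by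
  rcases hx with hx | hx
  · exact ends_aux hf hg hx hy hz hxy hxz
  · rw [orb_comm] at hxy hxz
    exact ends_aux hg hf hx hy.symm hz.symm hxy hxz

end Pool.Agent.Lib.MP_a18785_co
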