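import Mathlib
import Pool.Agent.Lib.MP_a18785_co.Orbits

/-!
Proper edge colourings of subgraphs as families of involutions, Kempe changes and shifts.
-/

set_option autoImplicit false
set_option linter.unusedSectionVars false

namespace Pool.Agent.Lib.MP_a18785_co

/-- A proper edge colouring of some edges of the complete graph on `V` with colours in `C`: for every
colour `c`, the involution `m c` exchanges the two ends of every edge of colour `c` and fixes
the vertices missing `c`; every edge has at most one colour. -/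
structure PCol (V C : Type*) where
  m : C → V → V
  inv : ∀ c v, m c (m c v) = v
  inj : ∀ c c' v, m c v = m c' v → m c v ≠ v → c = c'

variable {V C : Type*} [DecidableEq V] [DecidableEq C]

/-- `φ` is a proper edge colouring of `G`. -/
structure Full (G : SimpleGraph V) (φ : PCol V C) : Prop where
  edge : ∀ c v, φ.m c v ≠ v → G.Adj v (φ.m c v)
  col : ∀ v w, G.Adj v w → ∃ c, φ.m c v = w

/-- `φ` is a proper edge colouring of `G - xy`, where `xy` is an edge of `G`. -/
structure IsCol (G : SimpleGraph V) (x y : V) (φ : PCol V C) : Prop where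
  adj : G.Adj x y
  edge : ∀ c v, φ.m c v ≠ v → G.Adj v (φ.m c v)
  unc : ∀ c, φ.m c x ≠ y
  col : ∀ v w, G.Adj v w → (∃ c, φ.m c v = w) ∨ (v = x ∧ w = y) ∨ (v = y ∧ w = x)

namespace PCol

lemma m_eq_iff (φ : PCol V C) {c : C} {v w : V} : φ.m c v = w ↔ v = φ.m c w := by
  constructor
  · rintro rfl; rw [φ.inv]
  · rintro rfl; rw [φ.inv]

lemma m_fix_iff (φ : PCol V C) {c : C} {v : V} : φ.m c (φ.m c v) = φ.m c v ↔ φ.m c v = v := by
  rw [φ.inv]; exact eq_comm

/-- colours of two edges at a vertex -/
lemma col_eq (φ : PCol V C) {c c' : C} {v w : V} (h : φ.m c v = w) (h' : φ.m c' v = w)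
    (hw : w ≠ v) : c = c' :=
  φ.inj c c' v (h.trans h'.symm) (by rw [h]; exact hw)

/-- The `(a,b)`-chain through `v`. -/
def chain (φ : PCol V C) (a b : C) (v : V) : Set V := orb (φ.m a) (φ.m b) v

lemma mem_chain_self (φ : PCol V C) (a b : C) (v : V) : v ∈ φ.chain a b v := orb_self _ _ _

lemma chain_comm (φ : PCol V C) (a b : C) (v : V) : φ.chain a b v = φ.chain b a v :=
  orb_comm _ _ _

lemma chain_symm (φ : PCol V C) {a b : C} {v w : V} : w ∈ φ.chain a b v ↔ v ∈ φ.chain a b w :=
  orb_mem_comm (φ.inv a) (φ.inv b)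

lemma chain_trans (φ : PCol V C) {a b : C} {v w x : V} (h : w ∈ φ.chain a b v)
    (h' : x ∈ φ.chain a b w) : x ∈ φ.chain a b v := orb_trans h h'

lemma chain_left (φ : PCol V C) {a b : C} {v w : V} : φ.m a w ∈ φ.chain a b v ↔ w ∈ φ.chain a b v :=
  orb_left_iff (φ.inv a)

lemma chain_right (φ : PCol V C) {a b : C} {v w : V} :
    φ.m b w ∈ φ.chain a b v ↔ w ∈ φ.chain a b v :=
  orb_right_iff (φ.inv b)

lemma ends (φ : PCol V C) {a b : C} {x y z : V} (hx : φ.m a x = x ∨ φ.m b x = x)
    (hy : φ.m a y = y ∨ φ.m b y = y) (hz : φ.m a z = z ∨ φ.m b z = z)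
    (hxy : y ∈ φ.chain a b x) (hxz : z ∈ φ.chain a b x) : x = y ∨ x = z ∨ y = z :=
  ends3 (φ.inv a) (φ.inv b) hx hy hz hxy hxz

open Classical in
/-- Kempe change: exchange colours `a` and `b` on the `(a,b)`-chain through `v`. -/
noncomputable def kswap (φ : PCol V C) (a b : C) (v : V) : PCol V C where
  m c w := if w ∈ φ.chain a b v then φ.m (Equiv.swap a b c) w else φ.m c w
  inv := by
    intro c w
    by_cases hw : w ∈ φ.chain a b v
    · rw [if_pos hw]
      by_cases hca : c = a
      · subst hca
        rw [Equiv.swap_apply_left, if_pos (φ.chain_right.mpr hw), φ.inv]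
      by_cases hcb : c = b
      · subst hcb
        rw [Equiv.swap_apply_right, if_pos (φ.chain_left.mpr hw), φ.inv]
      rw [Equiv.swap_apply_of_ne_of_ne hca hcb, φ.inv]
      split_ifs <;> rfl
    · rw [if_neg hw]
      by_cases hca : c = a
      · subst hca
        rw [if_neg (fun h => hw (φ.chain_left.mp h)), φ.inv]
      by_cases hcb : c = b
      · subst hcb
        rw [if_neg (fun h => hw (φ.chain_right.mp h)), φ.inv]
      rw [Equiv.swap_apply_of_ne_of_ne hca hcb, φ.inv]
      split_ifs <;> rfl
  inj := by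
    intro c c' w h hne
    by_cases hw : w ∈ φ.chain a b v
    · simp only [if_pos hw] at h hne
      exact (Equiv.swap a b).injective (φ.inj _ _ _ h hne)
    · simp only [if_neg hw] at h hne
      exact φ.inj _ _ _ h hne

lemma kswap_of_notMem (φ : PCol V C) {a b : C} {v w : V} (h : w ∉ φ.chain a b v) (c : C) :
    (φ.kswap a b v).m c w = φ.m c w := by
  simp only [kswap, if_neg h]

lemma kswap_of_mem (φ : PCol V C) {a b : C} {v w : V} (h : w ∈ φ.chain a b v) (c : C) :
    (φ.kswap a b v).m c w = φ.m (Equiv.swap a b c) w := by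
  simp only [kswap, if_pos h]

lemma kswap_left (φ : PCol V C) {a b : C} {v w : V} (h : w ∈ φ.chain a b v) :
    (φ.kswap a b v).m a w = φ.m b w := by
  rw [kswap_of_mem φ h, Equiv.swap_apply_left]

lemma kswap_right (φ : PCol V C) {a b : C} {v w : V} (h : w ∈ φ.chain a b v) :
    (φ.kswap a b v).m b w = φ.m a w := by
  rw [kswap_of_mem φ h, Equiv.swap_apply_right]

lemma kswap_other (φ : PCol V C) {a b : C} (v w : V) {c : C} (ha : c ≠ a) (hb : c ≠ b) :
    (φ.kswap a b v).m c w = φ.m c w := by
  by_cases h : w ∈ φ.chain a b v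
  · rw [kswap_of_mem φ h, Equiv.swap_apply_of_ne_of_ne ha hb]
  · exact kswap_of_notMem φ h c

lemma kswap_other' (φ : PCol V C) {a b : C} (v : V) {c : C} (ha : c ≠ a) (hb : c ≠ b) :
    (φ.kswap a b v).m c = φ.m c := funext fun w => kswap_other φ v w ha hb

/-- Shift: give the edge `xy` the colour `c` missing at `y`, and remove the colour from the edge
of colour `c` at `x` (if there is one). -/
def shift (φ : PCol V C) (x y : V) (c : C) (hxy : x ≠ y) (hc : φ.m c y = y)
    (hunc : ∀ d, φ.m d x ≠ y) : PCol V C where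
  m d w := if d = c then
      (if w = x then y else if w = y then x else if w = φ.m c x then w else φ.m c w)
    else φ.m d w
  inv := by
    intro d w
    by_cases hd : d = c
    · subst hd
      simp only [if_true]
      by_cases h1 : w = x
      · subst h1; simp [hxy.symm]
      by_cases h2 : w = y
      · subst h2; simp [h1]
      by_cases h3 : w = φ.m d x
      · simp only [if_neg h1, if_neg h2, if_pos h3]
      · simp only [h1, h2, h3, if_false]
        have e1 : φ.m d w ≠ x := fun h => h3 (φ.m_eq_iff.mp h)
        have e2 : φ.m d w ≠ y := fun h => h2 ((φ.m_eq_iff.mp h).trans hc)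
        have e3 : φ.m d w ≠ φ.m d x := fun h => h1 (by
          have := congrArg (φ.m d) h
          rwa [φ.inv, φ.inv] at this)
        simp only [e1, e2, e3, if_false, φ.inv]
    · simp only [if_neg hd, φ.inv]
  inj := by
    have key : ∀ d w, d ≠ c →
        (if w = x then y else if w = y then x else if w = φ.m c x then w else φ.m c w) = φ.m d w →
        φ.m d w = w := by
      intro d w hd h
      by_cases h1 : w = x
      · subst h1
        simp only [if_true] at h
        exact absurd h.symm (hunc d)
      by_cases h2 : w = y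
      · subst h2
        simp only [h1, if_false, if_true] at h
        exact absurd (φ.m_eq_iff.mp h.symm).symm (hunc d)
      by_cases h3 : w = φ.m c x
      · simp only [if_neg h1, if_neg h2, if_pos h3] at h
        exact h.symm
      · simp only [if_neg h1, if_neg h2, if_neg h3] at h
        by_contra hne
        exact hd (φ.inj d c w h.symm hne)
    intro d d' w h hne
    by_cases hd : d = c
    · by_cases hd' : d' = c
      · rw [hd, hd']
      · simp only [if_pos hd, if_neg hd'] at h hne
        exact absurd (key d' w hd' h) (by rw [← h]; exact hne)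
    · by_cases hd' : d' = c
      · simp only [if_neg hd, if_pos hd'] at h hne
        exact absurd (key d w hd h.symm) hne
      · simp only [if_neg hd, if_neg hd'] at h hne
        exact φ.inj d d' w h hne

section shiftLemmas
variable (φ : PCol V C) {x y : V} {c : C} (hxy : x ≠ y) (hc : φ.m c y = y)
  (hunc : ∀ d, φ.m d x ≠ y)

lemma shift_other {d : C} (hd : d ≠ c) : (φ.shift x y c hxy hc hunc).m d = φ.m d := by
  funext w
  simp only [shift, if_neg hd]

lemma shift_x : (φ.shift x y c hxy hc hunc).m c x = y := by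
  simp only [shift, if_true]

lemma shift_y : (φ.shift x y c hxy hc hunc).m c y = x := by
  simp only [shift, if_true, if_neg hxy.symm]

lemma shift_z (hz : φ.m c x ≠ x) : (φ.shift x y c hxy hc hunc).m c (φ.m c x) = φ.m c x := by
  simp only [shift, if_true, if_neg hz, if_neg (hunc c)]

lemma shift_w {w : V} (h1 : w ≠ x) (h2 : w ≠ y) (h3 : w ≠ φ.m c x) :
    (φ.shift x y c hxy hc hunc).m c w = φ.m c w := by
  simp only [shift, if_true, if_neg h1, if_neg h2, if_neg h3]

end shiftLemmas

end PCol

namespace IsCol

variable {G : SimpleGraph V} {x y : V} {φ : PCol V C}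

lemma ne (h : IsCol G x y φ) : x ≠ y := h.adj.ne

lemma symm (h : IsCol G x y φ) : IsCol G y x φ where
  adj := h.adj.symm
  edge := h.edge
  unc := fun c hc => h.unc c (φ.m_eq_iff.mp hc).symm
  col := fun v w hvw => by
    rcases h.col v w hvw with h | h | h
    · exact Or.inl h
    · exact Or.inr (Or.inr h)
    · exact Or.inr (Or.inl h)

lemma unc' (h : IsCol G x y φ) (c : C) : φ.m c y ≠ x := h.symm.unc c

lemma kswap (h : IsCol G x y φ) (a b : C) (v : V) : IsCol G x y (φ.kswap a b v) where
  adj := h.adj
  edge := by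
    intro c w hw
    by_cases hm : w ∈ φ.chain a b v
    · rw [φ.kswap_of_mem hm] at hw ⊢
      exact h.edge _ _ hw
    · rw [φ.kswap_of_notMem hm] at hw ⊢
      exact h.edge _ _ hw
  unc := by
    intro c
    by_cases hm : x ∈ φ.chain a b v
    · rw [φ.kswap_of_mem hm]; exact h.unc _
    · rw [φ.kswap_of_notMem hm]; exact h.unc _
  col := by
    intro p q hpq
    rcases h.col p q hpq with ⟨c, hc⟩ | h | h
    · left
      by_cases hm : p ∈ φ.chain a b v
      · exact ⟨Equiv.swap a b c, by rw [φ.kswap_of_mem hm, Equiv.swap_apply_self]; exact hc⟩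
      · exact ⟨c, by rw [φ.kswap_of_notMem hm]; exact hc⟩
    · exact Or.inr (Or.inl h)
    · exact Or.inr (Or.inr h)

/-- Shifting the uncoloured edge. -/
lemma shift (h : IsCol G x y φ) {c : C} (hc : φ.m c y = y) (hx : φ.m c x ≠ x) :
    IsCol G x (φ.m c x) (φ.shift x y c h.ne hc h.unc) where
  adj := h.edge c x hx
  edge := by
    intro d w hw
    by_cases hd : d = c
    · subst hd
      by_cases h1 : w = x
      · subst h1; rw [PCol.shift_x]; exact h.adj
      by_cases h2 : w = y
      · subst h2; rw [PCol.shift_y]; exact h.adj.symm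
      by_cases h3 : w = φ.m d x
      · subst h3; rw [PCol.shift_z _ _ _ _ hx] at hw; exact absurd rfl hw
      · rw [PCol.shift_w _ _ _ _ h1 h2 h3] at hw ⊢
        exact h.edge _ _ hw
    · rw [PCol.shift_other _ _ _ _ hd] at hw ⊢
      exact h.edge _ _ hw
  unc := by
    intro d hd'
    by_cases hd : d = c
    · subst hd
      rw [PCol.shift_x] at hd'
      exact h.unc _ hd'.symm
    · rw [PCol.shift_other _ _ _ _ hd] at hd'
      exact hd (φ.inj d c x hd' (by rw [hd']; exact hx))
  col := by
    intro v w hvw
    by_cases e1 : v = x ∧ w = φ.m c x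
    · exact Or.inr (Or.inl e1)
    by_cases e2 : v = φ.m c x ∧ w = x
    · exact Or.inr (Or.inr e2)
    left
    rcases h.col v w hvw with ⟨d, hd⟩ | ⟨rfl, rfl⟩ | ⟨rfl, rfl⟩
    · by_cases hdc : d = c
      · subst hdc
        refine ⟨d, ?_⟩
        have n1 : v ≠ x := by
          rintro rfl
          exact e1 ⟨rfl, hd.symm⟩
        have n2 : v ≠ y := by
          rintro rfl
          rw [hc] at hd
          exact hvw.ne hd
        have n3 : v ≠ φ.m d x := by
          rintro rfl
          rw [φ.inv] at hd
          exact e2 ⟨rfl, hd.symm⟩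
        rw [PCol.shift_w _ _ _ _ n1 n2 n3]
        exact hd
      · exact ⟨d, by rw [PCol.shift_other _ _ _ _ hdc]; exact hd⟩
    · exact ⟨c, PCol.shift_x _ _ _ _⟩
    · exact ⟨c, PCol.shift_y _ _ _ _⟩

/-- If a colour is missing at both ends of the uncoloured edge then the graph is colourable. -/
lemma complete (h : IsCol G x y φ) {c : C} (hc : φ.m c y = y) (hx : φ.m c x = x) :
    Full G (φ.shift x y c h.ne hc h.unc) where
  edge := by
    intro d w hw
    by_cases hd : d = c
    · subst hd
      by_cases h1 : w = x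
      · subst h1; rw [PCol.shift_x]; exact h.adj
      by_cases h2 : w = y
      · subst h2; rw [PCol.shift_y]; exact h.adj.symm
      have h3 : w ≠ φ.m d x := by rw [hx]; exact h1
      rw [PCol.shift_w _ _ _ _ h1 h2 h3] at hw ⊢
      exact h.edge _ _ hw
    · rw [PCol.shift_other _ _ _ _ hd] at hw ⊢
      exact h.edge _ _ hw
  col := by
    intro v w hvw
    rcases h.col v w hvw with ⟨d, hd⟩ | ⟨rfl, rfl⟩ | ⟨rfl, rfl⟩
    · by_cases hdc : d = c
      · subst hdc
        refine ⟨d, ?_⟩
        have n1 : v ≠ x := by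
          rintro rfl
          rw [hx] at hd
          exact hvw.ne hd
        have n2 : v ≠ y := by
          rintro rfl
          rw [hc] at hd
          exact hvw.ne hd
        have n3 : v ≠ φ.m d x := by rw [hx]; exact n1
        rw [PCol.shift_w _ _ _ _ n1 n2 n3]
        exact hd
      · exact ⟨d, by rw [PCol.shift_other _ _ _ _ hdc]; exact hd⟩
    · exact ⟨c, PCol.shift_x _ _ _ _⟩
    · exact ⟨c, PCol.shift_y _ _ _ _⟩

end IsCol

end Pool.Agent.Lib.MP_a18785_co
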