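import Mathlib
import Pool.Agent.Lib.MP_a18785_co.Coloring

/-!
Basic facts about colourings of `G - xy` when `G` is not colourable: linked colours, short fans,
and counting of missing colours.
-/

set_option autoImplicit false
set_option linter.unusedSectionVars false

namespace Pool.Agent.Lib.MP_a18785_co

variable {V C : Type*} [DecidableEq V] [DecidableEq C]

/-- `G` has no proper edge colouring with colours `C`. -/
def NoFull (G : SimpleGraph V) (C : Type*) : Prop := ∀ φ : PCol V C, ¬ Full G φ

variable {G : SimpleGraph V} {x y : V} {φ : PCol V C}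

lemma IsCol.L0 (hN : NoFull G C) (h : IsCol G x y φ) {c : C} (hx : φ.m c x = x) :
    φ.m c y ≠ y := fun hy => hN _ (h.complete hy hx)

lemma IsCol.L0' (hN : NoFull G C) (h : IsCol G x y φ) {c : C} (hy : φ.m c y = y) :
    φ.m c x ≠ x := fun hx => hN _ (h.complete hy hx)

lemma IsCol.linked (hN : NoFull G C) (h : IsCol G x y φ) {a b : C} (ha : φ.m a x = x)
    (hb : φ.m b y = y) : y ∈ φ.chain a b x := by
  by_contra hcon
  have hx : x ∉ φ.chain a b y := fun hx => hcon (φ.chain_symm.mp hx)
  have h' := h.kswap a b y
  refine h'.L0 hN (c := a) ?_ ?_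
  · rw [φ.kswap_of_notMem hx]; exact ha
  · rw [φ.kswap_left (φ.mem_chain_self a b y)]; exact hb

/-- The two step fan lemma. -/
lemma IsCol.fan2 (hN : NoFull G C) (h : IsCol G x y φ) {a : C} (ha : φ.m a x = x) {c : C}
    (hc : φ.m c y = y) {d : C} (hd : φ.m d (φ.m c x) = φ.m c x) :
    φ.m d x ≠ x ∧ φ.m d y ≠ y := by
  have hx : φ.m c x ≠ x := h.L0' hN hc
  have h' := h.shift hc hx
  have hdc : d ≠ c := by
    rintro rfl
    rw [φ.inv] at hd
    exact hx hd.symm
  have h1 : φ.m d x ≠ x := by
    intro hdx
    refine h'.L0 hN (c := d) ?_ ?_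
    · rw [PCol.shift_other _ _ _ _ hdc]; exact hdx
    · rw [PCol.shift_other _ _ _ _ hdc]; exact hd
  refine ⟨h1, fun hdy => ?_⟩
  have hac : a ≠ c := by
    rintro rfl
    exact hx ha
  have l1 : y ∈ φ.chain a d x := h.linked hN ha hdy
  have l2 : φ.m c x ∈ φ.chain a d x := by
    have := h'.linked hN (a := a) (b := d)
      (by rw [PCol.shift_other _ _ _ _ hac]; exact ha)
      (by rw [PCol.shift_other _ _ _ _ hdc]; exact hd)
    unfold PCol.chain at this ⊢
    rw [PCol.shift_other _ _ _ _ hac, PCol.shift_other _ _ _ _ hdc] at this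
    exact this
  rcases φ.ends (Or.inl ha) (Or.inr hdy) (Or.inr hd) l1 l2 with e | e | e
  · exact h.ne e
  · exact hx e.symm
  · exact h.unc c e.symm

variable [Fintype V] [Fintype C] [DecidableRel G.Adj]

/-- The set of colours missing at `v`. -/
def miss (φ : PCol V C) (v : V) : Finset C := Finset.univ.filter (fun c => φ.m c v = v)

@[simp] lemma mem_miss {φ : PCol V C} {v : V} {c : C} : c ∈ miss φ v ↔ φ.m c v = v := by
  simp [miss]

lemma IsCol.card_miss (h : IsCol G x y φ) (v : V) :
    (miss φ v).card + G.degree v = Fintype.card C + (if v = x ∨ v = y then 1 else 0) := by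
  have hsum : (miss φ v).card + (Finset.univ.filter (fun c => ¬ φ.m c v = v)).card
      = Fintype.card C := by
    rw [miss, Finset.card_filter_add_card_filter_not]
    rfl
  -- the present colours correspond to the coloured edges at v
  have himg : (Finset.univ.filter (fun c => ¬ φ.m c v = v)).card =
      ((Finset.univ.filter (fun c => ¬ φ.m c v = v)).image (fun c => φ.m c v)).card := by
    rw [Finset.card_image_of_injOn]
    intro c hc d hd hcd
    simp only [Finset.coe_filter, Finset.mem_univ, true_and, Set.mem_ofPred_eq] at hc hd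
    exact φ.inj c d v hcd hc
  have hdeg : G.degree v = (G.neighborFinset v).card := rfl
  by_cases hvx : v = x
  · subst hvx
    have e : (Finset.univ.filter (fun c => ¬ φ.m c v = v)).image (fun c => φ.m c v)
        = (G.neighborFinset v).erase y := by
      ext w
      simp only [Finset.mem_image, Finset.mem_filter, Finset.mem_univ, true_and,
        Finset.mem_erase, SimpleGraph.mem_neighborFinset]
      constructor
      · rintro ⟨c, hc, rfl⟩
        exact ⟨h.unc c, h.edge c v hc⟩
      · rintro ⟨hwy, hw⟩
        rcases h.col v w hw with ⟨c, hc⟩ | ⟨_, h2⟩ | ⟨h2, _⟩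
        · exact ⟨c, by rw [hc]; exact hw.ne', hc⟩
        · exact absurd h2 hwy
        · exact absurd h2 h.ne
    rw [himg, e, Finset.card_erase_of_mem (by
      rw [SimpleGraph.mem_neighborFinset]; exact h.adj)] at hsum
    have : 0 < (G.neighborFinset v).card :=
      Finset.card_pos.mpr ⟨y, by rw [SimpleGraph.mem_neighborFinset]; exact h.adj⟩
    simp only [true_or, if_true]
    omega
  by_cases hvy : v = y
  · subst hvy
    have e : (Finset.univ.filter (fun c => ¬ φ.m c v = v)).image (fun c => φ.m c v)
        = (G.neighborFinset v).erase x := by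
      ext w
      simp only [Finset.mem_image, Finset.mem_filter, Finset.mem_univ, true_and,
        Finset.mem_erase, SimpleGraph.mem_neighborFinset]
      constructor
      · rintro ⟨c, hc, rfl⟩
        exact ⟨h.unc' c, h.edge c v hc⟩
      · rintro ⟨hwy, hw⟩
        rcases h.col v w hw with ⟨c, hc⟩ | ⟨h2, _⟩ | ⟨_, h2⟩
        · exact ⟨c, by rw [hc]; exact hw.ne', hc⟩
        · exact absurd h2 h.ne.symm
        · exact absurd h2 hwy
    rw [himg, e, Finset.card_erase_of_mem (by
      rw [SimpleGraph.mem_neighborFinset]; exact h.adj.symm)] at hsum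
    have : 0 < (G.neighborFinset v).card :=
      Finset.card_pos.mpr ⟨x, by rw [SimpleGraph.mem_neighborFinset]; exact h.adj.symm⟩
    simp only [or_true, if_true]
    omega
  · have e : (Finset.univ.filter (fun c => ¬ φ.m c v = v)).image (fun c => φ.m c v)
        = G.neighborFinset v := by
      ext w
      simp only [Finset.mem_image, Finset.mem_filter, Finset.mem_univ, true_and,
        SimpleGraph.mem_neighborFinset]
      constructor
      · rintro ⟨c, hc, rfl⟩
        exact h.edge c v hc
      · intro hw
        rcases h.col v w hw with ⟨c, hc⟩ | ⟨h2, _⟩ | ⟨h2, _⟩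
        · exact ⟨c, by rw [hc]; exact hw.ne', hc⟩
        · exact absurd h2 hvx
        · exact absurd h2 hvy
    rw [himg, e] at hsum
    simp only [hvx, hvy, or_self, if_false]
    omega

lemma IsCol.card_miss_x (h : IsCol G x y φ) :
    (miss φ x).card + G.degree x = Fintype.card C + 1 := by
  have := h.card_miss x
  simpa using this

lemma IsCol.card_miss_y (h : IsCol G x y φ) :
    (miss φ y).card + G.degree y = Fintype.card C + 1 := by
  have := h.card_miss y
  simpa using this

lemma IsCol.card_miss_other (h : IsCol G x y φ) {v : V} (hx : v ≠ x) (hy : v ≠ y) :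
    (miss φ v).card + G.degree v = Fintype.card C := by
  have := h.card_miss v
  simpa [hx, hy] using this

/-- Every edge other than the uncoloured one has a colour. -/
lemma IsCol.exists_color (h : IsCol G x y φ) {v w : V} (hvw : G.Adj v w)
    (h1 : ¬ (v = x ∧ w = y)) (h2 : ¬ (v = y ∧ w = x)) : ∃ c, φ.m c v = w := by
  rcases h.col v w hvw with h' | h' | h'
  · exact h'
  · exact absurd h' h1
  · exact absurd h' h2

end Pool.Agent.Lib.MP_a18785_co
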