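import Mathlib
import Pool.Agent.Lib.MP_a18785_co.Basic

/-!
Structure of the vertices with few big neighbours in a critical graph.
-/

set_option autoImplicit false
set_option linter.unusedSectionVars false

namespace Pool.Agent.Lib.MP_a18785_co

variable {V C : Type*} [DecidableEq V] [DecidableEq C] [Fintype V] [Fintype C]

lemma card_add_card_le {A B : Finset C} (h : Disjoint A B) :
    A.card + B.card ≤ Fintype.card C := by
  rw [← Finset.card_union_of_disjoint h]
  exact Finset.card_le_univ _

lemma card_add_card_add_card_le {A B E : Finset C} (h1 : Disjoint A B) (h2 : Disjoint A E)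
    (h3 : Disjoint B E) : A.card + B.card + E.card ≤ Fintype.card C := by
  rw [← Finset.card_union_of_disjoint h1, ← Finset.card_union_of_disjoint
    (Finset.disjoint_union_left.mpr ⟨h2, h3⟩)]
  exact Finset.card_le_univ _

/-- The standing assumptions: `G` is not edge-colourable with the `2k-1` colours of `C`, every
`G - e` is, and all degrees are at most `2k-1`. -/
structure Crit (G : SimpleGraph V) [DecidableRel G.Adj] (C : Type*) [Fintype C] (k : ℕ) :
    Prop where
  card : Fintype.card C + 1 = 2 * k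
  noFull : NoFull G C
  exCol : ∀ x y, G.Adj x y → ∃ φ : PCol V C, IsCol G x y φ
  deg : ∀ v, G.degree v ≤ Fintype.card C

variable {G : SimpleGraph V} [DecidableRel G.Adj] {k : ℕ} {x y : V} {φ : PCol V C}

/-- The neighbours of degree larger than `k`. -/
def bigN (G : SimpleGraph V) [DecidableRel G.Adj] (k : ℕ) (x : V) : Finset V :=
  (G.neighborFinset x).filter (fun v => k < G.degree v)

lemma mem_bigN {v : V} : v ∈ bigN G k x ↔ G.Adj x v ∧ k < G.degree v := by
  simp [bigN]

/-- Vertices of degree larger than `k` with at most `k` neighbours of degree larger than `k`. -/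
def IsU1 (G : SimpleGraph V) [DecidableRel G.Adj] (k : ℕ) (x : V) : Prop :=
  k < G.degree x ∧ (bigN G k x).card ≤ k

section core
variable (hG : Crit G C k)
include hG

lemma Crit.exists_miss_x (h : IsCol G x y φ) : ∃ a, φ.m a x = x := by
  have h1 := h.card_miss_x
  have h2 := hG.deg x
  have : 0 < (miss φ x).card := by omega
  obtain ⟨a, ha⟩ := Finset.card_pos.mp this
  exact ⟨a, mem_miss.mp ha⟩

lemma Crit.exists_miss_y (h : IsCol G x y φ) : ∃ a, φ.m a y = y :=
  hG.exists_miss_x h.symm

lemma Crit.fan2 (h : IsCol G x y φ) {c : C} (hc : φ.m c y = y) {d : C}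
    (hd : φ.m d (φ.m c x) = φ.m c x) : φ.m d x ≠ x ∧ φ.m d y ≠ y := by
  obtain ⟨a, ha⟩ := hG.exists_miss_x h
  exact h.fan2 hG.noFull ha hc hd

lemma Crit.L0 (h : IsCol G x y φ) {c : C} (hx : φ.m c x = x) : φ.m c y ≠ y :=
  h.L0 hG.noFull hx

lemma Crit.L0' (h : IsCol G x y φ) {c : C} (hy : φ.m c y = y) : φ.m c x ≠ x :=
  h.L0' hG.noFull hy

lemma Crit.linked (h : IsCol G x y φ) {a b : C} (ha : φ.m a x = x)
    (hb : φ.m b y = y) : y ∈ φ.chain a b x := h.linked hG.noFull ha hb

lemma Crit.disj_xy (h : IsCol G x y φ) : Disjoint (miss φ x) (miss φ y) := by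
  rw [Finset.disjoint_left]
  intro c hx hy
  rw [mem_miss] at hx hy
  exact hG.L0 h hx hy

/-- Colours missing at `y` lead from `x` to vertices of degree larger than `k`. -/
lemma Crit.deg_of_fan (h : IsCol G x y φ) (hy : G.degree y ≤ k) {c : C} (hc : φ.m c y = y) :
    k < G.degree (φ.m c x) := by
  have hx : φ.m c x ≠ x := hG.L0' h hc
  have hvy : φ.m c x ≠ y := h.unc c
  have h1 : Disjoint (miss φ (φ.m c x)) (miss φ x) := by
    rw [Finset.disjoint_left]
    intro d hd hdx
    rw [mem_miss] at hd hdx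
    exact (hG.fan2 h hc hd).1 hdx
  have h2 : Disjoint (miss φ (φ.m c x)) (miss φ y) := by
    rw [Finset.disjoint_left]
    intro d hd hdx
    rw [mem_miss] at hd hdx
    exact (hG.fan2 h hc hd).2 hdx
  have h3 := card_add_card_add_card_le h1 h2 (hG.disj_xy h)
  have h4 := h.card_miss_other hx hvy
  have h5 := h.card_miss_x
  have h6 := h.card_miss_y
  have h7 := hG.deg x
  have h8 := hG.card
  omega

/-- The core counting argument for vertices with few big neighbours. -/
lemma Crit.core (hU : IsU1 G k x) (h : IsCol G x y φ) (hy : G.degree y ≤ k) :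
    G.degree y = k ∧ (bigN G k x).card = k ∧
      (∀ c, φ.m c y = y ↔ (φ.m c x ≠ x ∧ k < G.degree (φ.m c x))) := by
  have hsub : (miss φ y).image (fun c => φ.m c x) ⊆ bigN G k x := by
    intro v hv
    rw [Finset.mem_image] at hv
    obtain ⟨c, hc, rfl⟩ := hv
    rw [mem_miss] at hc
    rw [mem_bigN]
    exact ⟨h.edge c x (hG.L0' h hc), hG.deg_of_fan h hy hc⟩
  have hinj : ((miss φ y).image (fun c => φ.m c x)).card = (miss φ y).card := by
    apply Finset.card_image_of_injOn
    intro c hc d hd hcd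
    simp only [Finset.mem_coe, mem_miss] at hc hd
    exact φ.inj c d x hcd (hG.L0' h hc)
  have h1 := Finset.card_le_card hsub
  have h2 := hU.2
  have h6 := h.card_miss_y
  have h8 := hG.card
  have e1 : G.degree y = k := by omega
  have e2 : (bigN G k x).card = k := by omega
  refine ⟨e1, e2, fun c => ⟨fun hc => ⟨hG.L0' h hc, hG.deg_of_fan h hy hc⟩, ?_⟩⟩
  rintro ⟨hcx, hck⟩
  have heq : (miss φ y).image (fun c => φ.m c x) = bigN G k x :=
    Finset.eq_of_subset_of_card_le hsub (by omega)
  have hmem : φ.m c x ∈ bigN G k x := mem_bigN.mpr ⟨h.edge c x hcx, hck⟩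
  rw [← heq, Finset.mem_image] at hmem
  obtain ⟨d, hd, hdc⟩ := hmem
  have : d = c := φ.inj d c x hdc (by rw [hdc]; exact hcx)
  rw [← this]
  exact mem_miss.mp hd

lemma Crit.exists_small (hU : IsU1 G k x) : ∃ y, G.Adj x y ∧ G.degree y ≤ k := by
  by_contra hcon
  push Not at hcon
  have : bigN G k x = G.neighborFinset x := by
    ext v
    rw [mem_bigN, SimpleGraph.mem_neighborFinset]
    exact ⟨fun h => h.1, fun h => ⟨h, hcon v h⟩⟩
  have h2 := hU.2
  rw [this] at h2
  have h3 := hU.1
  have : G.degree x = (G.neighborFinset x).card := rfl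
  omega

lemma Crit.deg_small (hU : IsU1 G k x) (hxy : G.Adj x y) (hy : G.degree y ≤ k) :
    G.degree y = k := by
  obtain ⟨φ, h⟩ := hG.exCol x y hxy
  exact (hG.core hU h hy).1

lemma Crit.card_bigN (hU : IsU1 G k x) : (bigN G k x).card = k := by
  obtain ⟨y, hxy, hy⟩ := hG.exists_small hU
  obtain ⟨φ, h⟩ := hG.exCol x y hxy
  exact (hG.core hU h hy).2.1

/-- The big neighbours have full degree. -/
lemma Crit.deg_big (hU : IsU1 G k x) {v : V} (hxv : G.Adj x v) (hv : k < G.degree v) :
    G.degree v = Fintype.card C := by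
  obtain ⟨y, hxy, hy⟩ := hG.exists_small hU
  obtain ⟨φ, h⟩ := hG.exCol x y hxy
  obtain ⟨hy', hB, hF⟩ := hG.core hU h hy
  have hvy : v ≠ y := by rintro rfl; omega
  obtain ⟨c, hc⟩ := h.exists_color hxv (fun h => hvy h.2) (fun h' => h.ne h'.1)
  subst hc
  have hcx : φ.m c x ≠ x := hxv.ne'
  have hcy : φ.m c y = y := (hF c).mpr ⟨hcx, hv⟩
  by_contra hcon
  have h4 := h.card_miss_other hcx (h.unc c)
  have : 0 < (miss φ (φ.m c x)).card := by
    have := hG.deg (φ.m c x)
    omega
  obtain ⟨d, hd⟩ := Finset.card_pos.mp this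
  rw [mem_miss] at hd
  obtain ⟨hdx, hdy⟩ := hG.fan2 h hcy hd
  have hdc : d ≠ c := by rintro rfl; exact hdy hcy
  have hsmall : G.degree (φ.m d x) ≤ k := by
    by_contra hlt
    exact hdy ((hF d).mpr ⟨hdx, by omega⟩)
  have h' := h.shift hcy hcx
  set φ' := φ.shift x y c h.ne hcy h.unc with hφ'
  have hod : φ'.m d = φ.m d := PCol.shift_other _ _ _ _ hdc
  have hd' : φ'.m d (φ.m c x) = φ.m c x := by rw [hod]; exact hd
  have hdx' : φ'.m d x ≠ x := by rw [hod]; exact hdx
  have h'' := h'.shift hd' hdx'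
  set φ'' := φ'.shift x (φ.m c x) d h'.ne hd' h'.unc with hφ''
  rw [hod] at h''
  -- the vertex v' = m d x
  have n1 : φ.m d x ≠ y := h.unc d
  have n2 : φ.m d x ≠ φ.m c x := fun e => hdc (φ.inj d c x e hdx)
  have hcv' : φ.m c (φ.m d x) ≠ φ.m d x := by
    intro e
    have e' : φ'.m c (φ'.m d x) = φ'.m d x := by
      rw [hod, PCol.shift_w _ _ _ _ hdx n1 n2]
      exact e
    have := (hG.fan2 h' hd' e').2
    exact this (PCol.shift_z _ _ _ _ hcx)
  have key : ∀ e, φ.m e (φ.m d x) = φ.m d x → φ.m e x ≠ x ∧ φ.m e y ≠ y := by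
    intro e he
    have hec : e ≠ c := by rintro rfl; exact hcv' he
    have hed : e ≠ d := by
      rintro rfl
      rw [φ.inv] at he
      exact hdx he.symm
    have he' : φ'.m e (φ'.m d x) = φ'.m d x := by
      rw [hod, PCol.shift_other _ _ _ _ hec]; exact he
    have h1 := (hG.fan2 h' hd' he').1
    rw [PCol.shift_other _ _ _ _ hec] at h1
    refine ⟨h1, fun hey => ?_⟩
    obtain ⟨a, ha⟩ := hG.exists_miss_x h
    have hac : a ≠ c := by rintro rfl; exact hcx ha
    have had : a ≠ d := by rintro rfl; exact hdx ha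
    have l1 : y ∈ φ.chain a e x := hG.linked h ha hey
    have ma : φ''.m a = φ.m a := by
      rw [PCol.shift_other _ _ _ _ had, PCol.shift_other _ _ _ _ hac]
    have me : φ''.m e = φ.m e := by
      rw [PCol.shift_other _ _ _ _ hed, PCol.shift_other _ _ _ _ hec]
    have l2 : φ.m d x ∈ φ.chain a e x := by
      have := hG.linked h'' (a := a) (b := e) (by rw [ma]; exact ha) (by rw [me]; exact he)
      unfold PCol.chain at this ⊢
      rw [ma, me] at this
      exact this
    rcases φ.ends (Or.inl ha) (Or.inr hey) (Or.inr he) l1 l2 with e | e | e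
    · exact h.ne e
    · exact hdx e.symm
    · exact n1 e.symm
  have d1 : Disjoint (miss φ (φ.m d x)) (miss φ x) := by
    rw [Finset.disjoint_left]
    intro e he hex
    rw [mem_miss] at he hex
    exact (key e he).1 hex
  have d2 : Disjoint (miss φ (φ.m d x)) (miss φ y) := by
    rw [Finset.disjoint_left]
    intro e he hex
    rw [mem_miss] at he hex
    exact (key e he).2 hex
  have h3 := card_add_card_add_card_le d1 d2 (hG.disj_xy h)
  have h5 := h.card_miss_other hdx n1
  have h6 := h.card_miss_x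
  have h7 := h.card_miss_y
  have h8 := hG.deg x
  have h9 := hG.card
  omega

end core

end Pool.Agent.Lib.MP_a18785_co
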