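import Mathlib
import Pool.Agent.Lib.MP_a18785_co.Struct

/-!
Kierstead type paths with four vertices.
-/

set_option autoImplicit false
set_option linter.unusedSectionVars false

namespace Pool.Agent.Lib.MP_a18785_co

variable {V C : Type*} [DecidableEq V] [DecidableEq C] [Fintype V] [Fintype C]
variable {G : SimpleGraph V} [DecidableRel G.Adj] {k : ℕ} {x y : V} {φ : PCol V C}

section
variable (hG : Crit G C k)
include hG

/-- A vertex outside the uncoloured edge that is an end of a chain linking the ends of the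
uncoloured edge lies in another chain. -/
lemma Crit.not_mem_chain (h : IsCol G x y φ) {a b : C} (ha : φ.m a x = x) (hb : φ.m b y = y)
    {v : V} (hvx : v ≠ x) (hvy : v ≠ y) (hv : φ.m a v = v ∨ φ.m b v = v) :
    x ∉ φ.chain a b v ∧ y ∉ φ.chain a b v := by
  have l := hG.linked h ha hb
  have key : v ∉ φ.chain a b x := by
    intro hvc
    rcases φ.ends (Or.inl ha) (Or.inr hb) hv l hvc with e | e | e
    · exact h.ne e
    · exact hvx e.symm
    · exact hvy e.symm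
  constructor
  · intro hx
    exact key (φ.chain_symm.mp hx)
  · intro hy
    exact key (φ.chain_trans l (φ.chain_symm.mp hy))

/-- same as `not_mem_chain` with the two colours exchanged -/
lemma Crit.not_mem_chain' (h : IsCol G x y φ) {a b : C} (ha : φ.m a x = x) (hb : φ.m b y = y)
    {v : V} (hvx : v ≠ x) (hvy : v ≠ y) (hv : φ.m a v = v ∨ φ.m b v = v) :
    x ∉ φ.chain b a v ∧ y ∉ φ.chain b a v := by
  rw [φ.chain_comm]
  exact hG.not_mem_chain h ha hb hvx hvy hv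

end

/-- The path `y x z w`, where `yx` is uncoloured, `xz` has a colour `ζ` missing at `y`
and `zw` has colour `γ`. -/
structure Path4 (G : SimpleGraph V) (x y z w : V) (ζ γ : C) (φ : PCol V C) : Prop where
  col : IsCol G x y φ
  zy : φ.m ζ y = y
  xz : φ.m ζ x = z
  zw : φ.m γ z = w
  wx : w ≠ x
  wy : w ≠ y
  wz : w ≠ z

section
variable (hG : Crit G C k) {z w : V} {ζ γ : C}
include hG

lemma Crit.Z1 (P : Path4 G x y z w ζ γ φ) (hγ : φ.m γ x = x) : φ.m ζ w ≠ w := by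
  intro hζw
  obtain ⟨h, zy, xz, zw, wx, wy, wz⟩ := P
  subst xz
  have hζx : φ.m ζ x ≠ x := hG.L0' h zy
  have hγζ : γ ≠ ζ := by rintro rfl; exact hζx hγ
  have h' := (h.shift zy hζx).symm
  have e1 : (φ.shift x y ζ h.ne zy h.unc).m γ = φ.m γ := PCol.shift_other _ _ _ _ hγζ
  have hγx' : (φ.shift x y ζ h.ne zy h.unc).m γ x = x := by rw [e1]; exact hγ
  have hne : (φ.shift x y ζ h.ne zy h.unc).m γ (φ.m ζ x) ≠ φ.m ζ x := by
    rw [e1, zw]; exact wz
  have h'' := h'.shift hγx' hne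
  refine hG.L0 h'' (c := ζ) ?_ ?_
  · rw [PCol.shift_other _ _ _ _ hγζ.symm]
    exact PCol.shift_z _ _ _ _ hζx
  · rw [PCol.shift_other _ _ _ _ hγζ.symm, e1, zw]
    rw [PCol.shift_w _ _ _ _ wx wy wz]
    exact hζw

/-- Path data is preserved by a Kempe change which does not touch `x`, `y`, `z`. -/
lemma Path4.kswap_of (P : Path4 G x y z w ζ γ φ) {a b : C} {v : V}
    (hx : x ∉ φ.chain a b v) (hy : y ∉ φ.chain a b v) (hz : z ∉ φ.chain a b v) :
    Path4 G x y z w ζ γ (φ.kswap a b v) where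
  col := P.col.kswap a b v
  zy := by rw [φ.kswap_of_notMem hy]; exact P.zy
  xz := by rw [φ.kswap_of_notMem hx]; exact P.xz
  zw := by rw [φ.kswap_of_notMem hz]; exact P.zw
  wx := P.wx
  wy := P.wy
  wz := P.wz

/-- Path data is preserved by a Kempe change which does not touch `x`, `y` nor the colour `γ`. -/
lemma Path4.kswap_of' (P : Path4 G x y z w ζ γ φ) {a b : C} {v : V}
    (hx : x ∉ φ.chain a b v) (hy : y ∉ φ.chain a b v) (ha : γ ≠ a) (hb : γ ≠ b) :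
    Path4 G x y z w ζ γ (φ.kswap a b v) where
  col := P.col.kswap a b v
  zy := by rw [φ.kswap_of_notMem hy]; exact P.zy
  xz := by rw [φ.kswap_of_notMem hx]; exact P.xz
  zw := by rw [φ.kswap_other _ _ ha hb]; exact P.zw
  wx := P.wx
  wy := P.wy
  wz := P.wz

omit hG in
lemma Path4.w_γ (P : Path4 G x y z w ζ γ φ) : φ.m γ w = z := (φ.m_eq_iff.mp P.zw).symm

omit hG in
lemma Path4.z_ζ (P : Path4 G x y z w ζ γ φ) : φ.m ζ z = x := (φ.m_eq_iff.mp P.xz).symm

omit hG in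
lemma Path4.γw (P : Path4 G x y z w ζ γ φ) : φ.m γ w ≠ w := by
  rw [P.w_γ]; exact P.wz.symm

omit hG in
lemma Path4.γζ (P : Path4 G x y z w ζ γ φ) : γ ≠ ζ := by
  rintro rfl
  have h1 := P.z_ζ
  rw [P.zw] at h1
  exact P.wx h1

omit hG in
/-- change of the colour `γ` of `zw` to `a` by a Kempe change at `w` -/
lemma Path4.kswap_left (P : Path4 G x y z w ζ γ φ) {a : C}
    (hx : x ∉ φ.chain a γ w) (hy : y ∉ φ.chain a γ w) :
    Path4 G x y z w ζ a (φ.kswap a γ w) where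
  col := P.col.kswap a γ w
  zy := by rw [φ.kswap_of_notMem hy]; exact P.zy
  xz := by rw [φ.kswap_of_notMem hx]; exact P.xz
  zw := by
    rw [φ.kswap_left, P.zw]
    rw [← P.w_γ]
    exact φ.chain_right.mpr (φ.mem_chain_self a γ w)
  wx := P.wx
  wy := P.wy
  wz := P.wz

omit hG in
/-- change of the colour `γ` of `zw` to `b` by a Kempe change at `w` -/
lemma Path4.kswap_right (P : Path4 G x y z w ζ γ φ) {b : C}
    (hx : x ∉ φ.chain γ b w) (hy : y ∉ φ.chain γ b w) :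
    Path4 G x y z w ζ b (φ.kswap γ b w) where
  col := P.col.kswap γ b w
  zy := by rw [φ.kswap_of_notMem hy]; exact P.zy
  xz := by rw [φ.kswap_of_notMem hx]; exact P.xz
  zw := by
    rw [φ.kswap_right, P.zw]
    rw [← P.w_γ]
    exact φ.chain_left.mpr (φ.mem_chain_self γ b w)
  wx := P.wx
  wy := P.wy
  wz := P.wz

lemma Crit.Z2 (P : Path4 G x y z w ζ γ φ) (hγ : φ.m γ x = x) {a : C} (ha : φ.m a x = x) :
    φ.m a w ≠ w := by
  intro haw
  by_cases hζw : φ.m ζ w = w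
  · exact hG.Z1 P hγ hζw
  obtain ⟨nx, ny⟩ := hG.not_mem_chain P.col ha P.zy P.wx P.wy (Or.inl haw)
  have nz : z ∉ φ.chain a ζ w := by
    rw [← P.xz]
    exact fun h => nx (φ.chain_right.mp h)
  have P' := P.kswap_of hG nx ny nz
  refine hG.Z1 P' ?_ ?_
  · rw [φ.kswap_of_notMem nx]; exact hγ
  · rw [φ.kswap_right (φ.mem_chain_self _ _ _)]; exact haw

lemma Crit.Z3 (P : Path4 G x y z w ζ γ φ) (hγ : φ.m γ x = x) {a : C} (ha : φ.m a x = x)
    (haγ : a ≠ γ) {μ : C} (hμ : φ.m μ y = y) : φ.m μ w ≠ w := by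
  intro hμw
  by_cases haw : φ.m a w = w
  · exact hG.Z2 P hγ ha haw
  obtain ⟨nx, ny⟩ := hG.not_mem_chain P.col ha hμ P.wx P.wy (Or.inr hμw)
  have hγμ : γ ≠ μ := by rintro rfl; exact hG.L0 P.col hγ hμ
  have P' := P.kswap_of' hG nx ny haγ.symm hγμ
  refine hG.Z2 P' (a := a) ?_ ?_ ?_
  · rw [φ.kswap_of_notMem nx]; exact hγ
  · rw [φ.kswap_of_notMem nx]; exact ha
  · rw [φ.kswap_left (φ.mem_chain_self _ _ _)]; exact hμw

lemma Crit.Z4i (P : Path4 G x y z w ζ γ φ) (hγ : φ.m γ y = y) {a a' : C} (ha : φ.m a x = x)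
    (ha' : φ.m a' x = x) (haa : a' ≠ a) : φ.m a w ≠ w := by
  intro haw
  obtain ⟨nx, ny⟩ := hG.not_mem_chain P.col ha hγ P.wx P.wy (Or.inl haw)
  have P' := P.kswap_left nx ny
  refine hG.Z3 P' (a := a') (μ := γ) ?_ ?_ haa ?_ ?_
  · rw [φ.kswap_of_notMem nx]; exact ha
  · rw [φ.kswap_of_notMem nx]; exact ha'
  · rw [φ.kswap_of_notMem ny]; exact hγ
  · rw [φ.kswap_right (φ.mem_chain_self _ _ _)]; exact haw

lemma Crit.Z4ii (P : Path4 G x y z w ζ γ φ) (hγ : φ.m γ y = y) {a a' : C} (ha : φ.m a x = x)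
    (ha' : φ.m a' x = x) (haa : a' ≠ a) {η : C} (hη : φ.m η y = y) : φ.m η w ≠ w := by
  intro hηw
  by_cases haw : φ.m a w = w
  · exact hG.Z4i P hγ ha ha' haa haw
  obtain ⟨nx, ny⟩ := hG.not_mem_chain P.col ha hη P.wx P.wy (Or.inr hηw)
  have hγη : γ ≠ η := by rintro rfl; exact P.γw hηw
  have hγa : γ ≠ a := by rintro rfl; exact hG.L0 P.col ha hγ
  have P' := P.kswap_of' hG nx ny hγa hγη
  refine hG.Z4i P' (a := a) (a' := a') ?_ ?_ ?_ haa ?_
  · rw [φ.kswap_of_notMem ny]; exact hγ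
  · rw [φ.kswap_of_notMem nx]; exact ha
  · rw [φ.kswap_of_notMem nx]; exact ha'
  · rw [φ.kswap_left (φ.mem_chain_self _ _ _)]; exact hηw

/-- If two colours are missing at `x`, then no colour missing at `x` or `y` is missing at the
last vertex of the path. -/
theorem Crit.K4a (P : Path4 G x y z w ζ γ φ) (hγ : φ.m γ x = x ∨ φ.m γ y = y)
    {a a' : C} (ha : φ.m a x = x) (ha' : φ.m a' x = x) (haa : a' ≠ a) {η : C}
    (hη : φ.m η x = x ∨ φ.m η y = y) : φ.m η w ≠ w := by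
  rcases hγ with hγ | hγ
  · rcases hη with hη | hη
    · exact hG.Z2 P hγ hη
    · by_cases e : a = γ
      · subst e
        exact hG.Z3 P hγ ha' haa hη
      · exact hG.Z3 P hγ ha e hη
  · rcases hη with hη | hη
    · by_cases e : η = a
      · subst e
        exact hG.Z4i P hγ hη ha' haa
      · exact hG.Z4i P hγ hη ha (Ne.symm e)
    · exact hG.Z4ii P hγ ha ha' haa hη

lemma Crit.claimA0 (P : Path4 G x y z w ζ γ φ) (hγ : φ.m γ y = y) {α : C} (hα : φ.m α x = x)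
    (hαw : φ.m α w = w) : φ.m ζ w ≠ w := by
  intro hζw
  obtain ⟨nx, ny⟩ := hG.not_mem_chain P.col hα hγ P.wx P.wy (Or.inl hαw)
  have P' := P.kswap_left nx ny
  have hζα : ζ ≠ α := by rintro rfl; exact hG.L0 P.col hα P.zy
  refine hG.Z1 P' ?_ ?_
  · rw [φ.kswap_of_notMem nx]; exact hα
  · rw [φ.kswap_other _ _ hζα P.γζ.symm]; exact hζw

lemma Crit.claimA (P : Path4 G x y z w ζ γ φ) (hγ : φ.m γ y = y) {α : C} (hα : φ.m α x = x)
    (hαw : φ.m α w = w) {η : C} (hη : φ.m η y = y) : φ.m η w ≠ w := by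
  intro hηw
  by_cases hζw : φ.m ζ w = w
  · exact hG.claimA0 P hγ hα hαw hζw
  have hηζ : η ≠ ζ := by rintro rfl; exact hζw hηw
  have hηα : η ≠ α := by rintro rfl; exact hG.L0 P.col hα hη
  have hζα : ζ ≠ α := by rintro rfl; exact hG.L0 P.col hα P.zy
  have hγα : γ ≠ α := by rintro rfl; exact hG.L0 P.col hα hγ
  have hγη : γ ≠ η := by rintro rfl; exact P.γw hηw
  obtain ⟨nx, ny⟩ := hG.not_mem_chain P.col hα P.zy P.wx P.wy (Or.inl hαw)
  have P' := P.kswap_of' hG nx ny hγα P.γζ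
  set φ' := φ.kswap α ζ w with hφ'
  have hζw' : φ'.m ζ w = w := by
    rw [φ.kswap_right (φ.mem_chain_self _ _ _)]; exact hαw
  have hηw' : φ'.m η w = w := by rw [φ.kswap_other _ _ hηα hηζ]; exact hηw
  have hα' : φ'.m α x = x := by rw [φ.kswap_of_notMem nx]; exact hα
  have hη' : φ'.m η y = y := by rw [φ.kswap_of_notMem ny]; exact hη
  have hγ' : φ'.m γ y = y := by rw [φ.kswap_of_notMem ny]; exact hγ
  obtain ⟨nx', ny'⟩ := hG.not_mem_chain P'.col hα' hη' P.wx P.wy (Or.inr hηw')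
  have P'' := P'.kswap_of' hG nx' ny' hγα hγη
  refine hG.claimA0 P'' (α := α) ?_ ?_ ?_ ?_
  · rw [φ'.kswap_of_notMem ny']; exact hγ'
  · rw [φ'.kswap_of_notMem nx']; exact hα'
  · rw [φ'.kswap_left (φ'.mem_chain_self _ _ _)]; exact hηw'
  · rw [φ'.kswap_other _ _ hζα hηζ.symm]; exact hζw'

lemma Crit.claimB (P : Path4 G x y z w ζ γ φ) (hγ : φ.m γ y = y) {α : C} (hα : φ.m α x = x)
    {η₁ η₂ : C} (hη₁ : φ.m η₁ y = y) (hη₂ : φ.m η₂ y = y) (hne : η₁ ≠ η₂)
    (hw₁ : φ.m η₁ w = w) : φ.m η₂ w ≠ w := by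
  intro hw₂
  by_cases hαw : φ.m α w = w
  · exact hG.claimA P hγ hα hαw hη₁ hw₁
  have h2α : η₂ ≠ α := by rintro rfl; exact hG.L0 P.col hα hη₂
  have hγα : γ ≠ α := by rintro rfl; exact hG.L0 P.col hα hγ
  have hγη : γ ≠ η₁ := by rintro rfl; exact P.γw hw₁
  obtain ⟨nx, ny⟩ := hG.not_mem_chain P.col hα hη₁ P.wx P.wy (Or.inr hw₁)
  have P' := P.kswap_of' hG nx ny hγα hγη
  refine hG.claimA P' (α := α) (η := η₂) ?_ ?_ ?_ ?_ ?_
  · rw [φ.kswap_of_notMem ny]; exact hγ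
  · rw [φ.kswap_of_notMem nx]; exact hα
  · rw [φ.kswap_left (φ.mem_chain_self _ _ _)]; exact hw₁
  · rw [φ.kswap_of_notMem ny]; exact hη₂
  · rw [φ.kswap_other _ _ h2α hne.symm]; exact hw₂

lemma Crit.claimC (P : Path4 G x y z w ζ γ φ) (hγ : φ.m γ x = x)
    {η₁ η₂ : C} (hη₁ : φ.m η₁ y = y) (hη₂ : φ.m η₂ y = y) (hne : η₁ ≠ η₂)
    (hw₁ : φ.m η₁ w = w) : φ.m η₂ w ≠ w := by
  intro hw₂
  have h2γ : η₂ ≠ γ := by rintro rfl; exact hG.L0 P.col hγ hη₂
  obtain ⟨nx, ny⟩ := hG.not_mem_chain P.col hγ hη₁ P.wx P.wy (Or.inr hw₁)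
  have P' := P.kswap_right nx ny
  refine hG.claimA P' (α := γ) (η := η₂) ?_ ?_ ?_ ?_ ?_
  · rw [φ.kswap_of_notMem ny]; exact hη₁
  · rw [φ.kswap_of_notMem nx]; exact hγ
  · rw [φ.kswap_left (φ.mem_chain_self _ _ _)]; exact hw₁
  · rw [φ.kswap_of_notMem ny]; exact hη₂
  · rw [φ.kswap_other _ _ h2γ hne.symm]; exact hw₂

/-- At most one colour missing at `x` or `y` is missing at the last vertex of the path. -/
theorem Crit.K4b (P : Path4 G x y z w ζ γ φ) (hγ : φ.m γ x = x ∨ φ.m γ y = y)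
    {η₁ η₂ : C} (hη₁ : φ.m η₁ x = x ∨ φ.m η₁ y = y) (hη₂ : φ.m η₂ x = x ∨ φ.m η₂ y = y)
    (hne : η₁ ≠ η₂) (hw₁ : φ.m η₁ w = w) (hw₂ : φ.m η₂ w = w) : False := by
  obtain ⟨a, ha⟩ := hG.exists_miss_x P.col
  by_cases h2 : ∃ a', φ.m a' x = x ∧ a' ≠ a
  · obtain ⟨a', ha', haa⟩ := h2
    exact hG.K4a P hγ ha ha' haa hη₁ hw₁
  · push Not at h2
    rcases hγ with hγ | hγ
    · have e1 : φ.m η₁ y = y := by
        rcases hη₁ with h | h
        · have : η₁ = γ := (h2 _ h).trans (h2 _ hγ).symm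
          exact absurd (this ▸ hw₁) P.γw
        · exact h
      have e2 : φ.m η₂ y = y := by
        rcases hη₂ with h | h
        · have : η₂ = γ := (h2 _ h).trans (h2 _ hγ).symm
          exact absurd (this ▸ hw₂) P.γw
        · exact h
      exact hG.claimC P hγ e1 e2 hne hw₁ hw₂
    · rcases hη₁ with h | h <;> rcases hη₂ with h' | h'
      · exact hne ((h2 _ h).trans (h2 _ h').symm)
      · exact hG.claimA P hγ h hw₁ h' hw₂
      · exact hG.claimA P hγ h' hw₂ h hw₁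
      · exact hG.claimB P hγ ha h h' hne hw₁ hw₂

end

end Pool.Agent.Lib.MP_a18785_co
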