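import Mathlib
import Pool.Agent.Lib.MP_a18785_co.Paths

/-!
States `(u, y, φ)`: `u` has few big neighbours, `y` is a small neighbour of `u`, and `φ` colours
`G - uy`.
-/

set_option autoImplicit false
set_option linter.unusedSectionVars false

namespace Pool.Agent.Lib.MP_a18785_co

variable {V C : Type*} [DecidableEq V] [DecidableEq C]

/-- If `a` is missing at both ends of an edge of colour `b` then the chain is that edge. -/
lemma PCol.mem_chain_pair (φ : PCol V C) {a b : C} {u : V} (h1 : φ.m a u = u)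
    (h2 : φ.m a (φ.m b u) = φ.m b u) {w : V} :
    w ∈ φ.chain a b u ↔ w = u ∨ w = φ.m b u := by
  constructor
  · intro h
    induction h with
    | refl => exact Or.inl rfl
    | @tail p q _ hpq ih =>
      rcases ih with rfl | rfl
      · rcases hpq with rfl | rfl
        · exact Or.inl h1
        · exact Or.inr rfl
      · rcases hpq with rfl | rfl
        · exact Or.inr h2
        · exact Or.inl (φ.inv b u)
  · rintro (rfl | rfl)
    · exact φ.mem_chain_self _ _ _
    · exact φ.chain_right.mpr (φ.mem_chain_self _ _ _)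

variable [Fintype V] [Fintype C]
variable {G : SimpleGraph V} [DecidableRel G.Adj] {k : ℕ} {u y : V} {φ : PCol V C}

/-- Leaves of `x`: the neighbours of degree `k`. -/
def leaves (G : SimpleGraph V) [DecidableRel G.Adj] (k : ℕ) (x : V) : Finset V :=
  (G.neighborFinset x).filter (fun v => G.degree v = k)

lemma mem_leaves {x v : V} : v ∈ leaves G k x ↔ G.Adj x v ∧ G.degree v = k := by
  simp [leaves]

/-- The colours missing at neither `u` nor `y`. -/
def Pf (φ : PCol V C) (u y : V) : Finset C :=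
  Finset.univ.filter (fun c => φ.m c u ≠ u ∧ φ.m c y ≠ y)

lemma mem_Pf {c : C} : c ∈ Pf φ u y ↔ φ.m c u ≠ u ∧ φ.m c y ≠ y := by simp [Pf]

/-- A hub: a vertex of full degree with few big neighbours. -/
def IsHub (G : SimpleGraph V) [DecidableRel G.Adj] (k D : ℕ) (u : V) : Prop :=
  IsU1 G k u ∧ G.degree u = D

section
variable (hG : Crit G C k)
include hG

lemma Crit.card_leaves (hU : IsU1 G k u) : (leaves G k u).card + k = G.degree u := by
  have h1 := hG.card_bigN hU
  have h2 : G.degree u = (G.neighborFinset u).card := rfl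
  have h3 : leaves G k u = (G.neighborFinset u).filter (fun v => ¬ k < G.degree v) := by
    ext v
    rw [mem_leaves, Finset.mem_filter, SimpleGraph.mem_neighborFinset]
    constructor
    · rintro ⟨a, b⟩
      exact ⟨a, by omega⟩
    · rintro ⟨a, b⟩
      exact ⟨a, hG.deg_small hU a (by omega)⟩
  have h4 : (bigN G k u).card + (leaves G k u).card = (G.neighborFinset u).card := by
    rw [h3, bigN, Finset.card_filter_add_card_filter_not]
  omega

lemma Crit.F1 (hU : IsU1 G k u) (h : IsCol G u y φ) (hy : G.degree y = k) {c : C} :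
    φ.m c y = y ↔ (φ.m c u ≠ u ∧ k < G.degree (φ.m c u)) :=
  (hG.core hU h hy.le).2.2 c

lemma Crit.F1leaf (hU : IsU1 G k u) (h : IsCol G u y φ) (hy : G.degree y = k) {c : C}
    (hcu : φ.m c u ≠ u) (hcy : φ.m c y ≠ y) : G.degree (φ.m c u) = k := by
  apply hG.deg_small hU (h.edge c u hcu)
  by_contra hlt
  exact hcy ((hG.F1 hU h hy).mpr ⟨hcu, by omega⟩)

lemma Crit.F3 (hU : IsU1 G k u) (h : IsCol G u y φ) (hy : G.degree y = k) {β μ : C}
    (hβu : φ.m β u ≠ u) (hβy : φ.m β y ≠ y) (hμ : φ.m μ y = y) : u ∈ φ.chain β μ y := by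
  by_contra hcon
  have h' := h.kswap β μ y
  have e1 : (φ.kswap β μ y).m β y = y := by
    rw [φ.kswap_left (φ.mem_chain_self _ _ _)]; exact hμ
  have e2 := (hG.F1 hU h' hy).mp e1
  rw [φ.kswap_of_notMem hcon] at e2
  exact hβy ((hG.F1 hU h hy).mpr e2)

lemma Crit.card_miss_y (h : IsCol G u y φ) (hy : G.degree y = k) : (miss φ y).card = k := by
  have := h.card_miss_y
  have := hG.card
  omega

lemma Crit.card_miss_u (h : IsCol G u y φ) : (miss φ u).card + G.degree u = 2 * k := by
  have := h.card_miss_x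
  have := hG.card
  omega

lemma Crit.card_miss_leaf (h : IsCol G u y φ) {v : V} (hv : G.degree v = k) (h1 : v ≠ u)
    (h2 : v ≠ y) : (miss φ v).card + 1 = k := by
  have := h.card_miss_other h1 h2
  have := hG.card
  omega

lemma Crit.card_Pf (h : IsCol G u y φ) :
    (Pf φ u y).card + (miss φ u).card + (miss φ y).card = Fintype.card C := by
  have h1 : Pf φ u y = (miss φ u ∪ miss φ y)ᶜ := by
    ext c
    simp [mem_Pf]
  have h2 := hG.disj_xy h
  rw [h1, add_assoc, ← Finset.card_union_of_disjoint h2]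
  rw [add_comm]
  exact Finset.card_add_card_compl _

lemma Crit.card_Pf' (h : IsCol G u y φ) (hy : G.degree y = k) :
    (Pf φ u y).card + k + 1 = G.degree u := by
  have h1 := hG.card_Pf h
  have h2 := hG.card_miss_y h hy
  have h3 := hG.card_miss_u h
  have h4 := hG.card
  omega

/-- Number of colours missing at `v` that are missing at `u` or `y`. -/
lemma Crit.card_E (h : IsCol G u y φ) (hy : G.degree y = k) {v : V} :
    (miss φ v).card + k + 1 ≤
      ((miss φ v).filter (fun c => φ.m c u = u ∨ φ.m c y = y)).card + G.degree u := by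
  have h1 := hG.card_Pf' h hy
  have h2 : ((miss φ v).filter (fun c => φ.m c u = u ∨ φ.m c y = y)).card +
      ((miss φ v).filter (fun c => ¬ (φ.m c u = u ∨ φ.m c y = y))).card = (miss φ v).card :=
    Finset.card_filter_add_card_filter_not _
  have h3 : (miss φ v).filter (fun c => ¬ (φ.m c u = u ∨ φ.m c y = y)) ⊆ Pf φ u y := by
    intro c hc
    rw [Finset.mem_filter] at hc
    rw [mem_Pf]
    push Not at hc
    exact hc.2
  have h4 := Finset.card_le_card h3
  omega

/-- Improved count when some colour of `P` is present at `v`. -/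
lemma Crit.card_E' (h : IsCol G u y φ) (hy : G.degree y = k) {v : V} {β : C}
    (hβ : β ∈ Pf φ u y) (hv : φ.m β v ≠ v) :
    (miss φ v).card + k + 2 ≤
      ((miss φ v).filter (fun c => φ.m c u = u ∨ φ.m c y = y)).card + G.degree u := by
  have h1 := hG.card_Pf' h hy
  have h2 : ((miss φ v).filter (fun c => φ.m c u = u ∨ φ.m c y = y)).card +
      ((miss φ v).filter (fun c => ¬ (φ.m c u = u ∨ φ.m c y = y))).card = (miss φ v).card :=
    Finset.card_filter_add_card_filter_not _
  have h3 : (miss φ v).filter (fun c => ¬ (φ.m c u = u ∨ φ.m c y = y)) ⊆ (Pf φ u y).erase β := by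
    intro c hc
    rw [Finset.mem_filter, mem_miss] at hc
    rw [Finset.mem_erase, mem_Pf]
    push Not at hc
    refine ⟨?_, hc.2⟩
    rintro rfl
    exact hv hc.1
  have h4 := Finset.card_le_card h3
  rw [Finset.card_erase_of_mem hβ] at h4
  have h5 : 0 < (Pf φ u y).card := Finset.card_pos.mpr ⟨β, hβ⟩
  omega

/-- For a hub `u` exactly one colour is missing at `u`. -/
lemma Crit.exists_alpha (hub : G.degree u = Fintype.card C) (h : IsCol G u y φ) :
    ∃ α, ∀ c, φ.m c u = u ↔ c = α := by
  have h1 := h.card_miss_x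
  have : (miss φ u).card = 1 := by omega
  obtain ⟨α, hα⟩ := Finset.card_eq_one.mp this
  refine ⟨α, fun c => ?_⟩
  rw [← mem_miss, hα, Finset.mem_singleton]

/-- A vertex of full degree away from the uncoloured edge sees all colours. -/
lemma Crit.full (h : IsCol G u y φ) {z : V} (hz : G.degree z = Fintype.card C) (h1 : z ≠ u)
    (h2 : z ≠ y) (c : C) : φ.m c z ≠ z := by
  intro hc
  have h3 := h.card_miss_other h1 h2
  have : 0 < (miss φ z).card := Finset.card_pos.mpr ⟨c, mem_miss.mpr hc⟩
  omega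

/-- The linking lemma: a small vertex at the end of a path with four vertices is linked
with `y`. -/
lemma Crit.link {z w : V} {ζ γ : C} (hU : IsU1 G k u) (hy : G.degree y = k)
    (P : Path4 G u y z w ζ γ φ) (hγ : φ.m γ u = u ∨ φ.m γ y = y)
    {β μ ε : C} (hβ : β ∈ Pf φ u y) (hμ : φ.m μ y = y) (hμγ : μ ≠ γ) (hμε : μ ≠ ε)
    (hε : φ.m ε u = u ∨ φ.m ε y = y) (hεw : φ.m ε w = w) (hβw : φ.m β w = w) :
    w ∈ φ.chain β μ y := by
  by_contra hcon
  rw [mem_Pf] at hβ
  have hu : u ∈ φ.chain β μ y := hG.F3 hU P.col hy hβ.1 hβ.2 hμ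
  have ny : y ∉ φ.chain β μ w := fun h => hcon (φ.chain_symm.mp h)
  have nu : u ∉ φ.chain β μ w := by
    intro h
    exact hcon (φ.chain_trans hu (φ.chain_symm.mp h))
  have hγβ : γ ≠ β := by
    rintro rfl
    rcases hγ with h | h
    · exact hβ.1 h
    · exact hβ.2 h
  have hεβ : ε ≠ β := by
    rintro rfl
    rcases hε with h | h
    · exact hβ.1 h
    · exact hβ.2 h
  have P' := P.kswap_of' hG nu ny hγβ hμγ.symm
  refine hG.K4b P' (η₁ := μ) (η₂ := ε) ?_ ?_ ?_ hμε ?_ ?_
  · rw [φ.kswap_of_notMem nu, φ.kswap_of_notMem ny]; exact hγ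
  · rw [φ.kswap_of_notMem ny]; exact Or.inr hμ
  · rw [φ.kswap_of_notMem nu, φ.kswap_of_notMem ny]; exact hε
  · rw [φ.kswap_right (φ.mem_chain_self _ _ _)]; exact hβw
  · rw [φ.kswap_other _ _ hεβ hμε.symm]; exact hεw

/-- Missing colours of a small vertex at the end of a path with four vertices (hub case). -/
lemma Crit.s1 {z w : V} {ζ γ : C} (hub : G.degree u = Fintype.card C) (hy : G.degree y = k)
    (P : Path4 G u y z w ζ γ φ) (hγ : φ.m γ u = u ∨ φ.m γ y = y) (hw : G.degree w ≤ k) :
    (∀ β ∈ Pf φ u y, φ.m β w = w) ∧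
      ∃ ε, φ.m ε w = w ∧ (φ.m ε u = u ∨ φ.m ε y = y) := by
  have h0 := hG.card
  have h1 := P.col.card_miss_other P.wx P.wy
  have h2 := hG.card_E P.col hy (v := w)
  have h3 := hG.card_Pf' P.col hy
  have h4 : ((miss φ w).filter (fun c => φ.m c u = u ∨ φ.m c y = y)).card ≤ 1 := by
    rw [Finset.card_le_one]
    intro a ha b hb
    rw [Finset.mem_filter, mem_miss] at ha hb
    by_contra hne
    exact hG.K4b P hγ ha.2 hb.2 hne ha.1 hb.1
  constructor
  · intro β hβ
    by_contra hβw
    have h5 := hG.card_E' P.col hy hβ hβw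
    omega
  · have : 0 < ((miss φ w).filter (fun c => φ.m c u = u ∨ φ.m c y = y)).card := by omega
    obtain ⟨ε, hε⟩ := Finset.card_pos.mp this
    rw [Finset.mem_filter, mem_miss] at hε
    exact ⟨ε, hε.1, hε.2⟩

end

end Pool.Agent.Lib.MP_a18785_co
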