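import Mathlib
import Pool.Agent.Lib.MP_a18785_co.Hubs

/-!
The recolouring move at `u` and the fact that big neighbours of hubs have at most one small
neighbour.
-/

set_option autoImplicit false
set_option linter.unusedSectionVars false

namespace Pool.Agent.Lib.MP_a18785_co

variable {V C : Type*} [DecidableEq V] [DecidableEq C]

lemma PCol.kswap_self (φ : PCol V C) (a : C) (v : V) (c : C) (w : V) :
    (φ.kswap a a v).m c w = φ.m c w := by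
  by_cases h : w ∈ φ.chain a a v
  · rw [φ.kswap_of_mem h, Equiv.swap_self, Equiv.refl_apply]
  · rw [φ.kswap_of_notMem h]

/-- The colours `c` at a vertex after a Kempe change are obtained by swapping, or unchanged. -/
lemma PCol.kswap_m_eq (φ : PCol V C) (a b : C) (v w : V) :
    (∀ c, (φ.kswap a b v).m c w = φ.m c w) ∨
      (∀ c, (φ.kswap a b v).m c w = φ.m (Equiv.swap a b c) w) := by
  by_cases h : w ∈ φ.chain a b v
  · exact Or.inr fun c => φ.kswap_of_mem h c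
  · exact Or.inl fun c => φ.kswap_of_notMem h c

variable [Fintype V] [Fintype C]
variable {G : SimpleGraph V} [DecidableRel G.Adj] {k : ℕ} {u y : V} {φ : PCol V C}

lemma Pf_congr {φ φ' : PCol V C} (hu : ∀ c, φ'.m c u = φ.m c u) (hy : ∀ c, φ'.m c y = φ.m c y) :
    Pf φ' u y = Pf φ u y := by
  ext c
  rw [mem_Pf, mem_Pf, hu, hy]

section stage2

/-- effects of recolouring the edge `uv` from `β` to `α`, where `α` is missing at both ends -/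
lemma PCol.recolor_other (φ : PCol V C) {α β : C} {v w : V} (hαu : φ.m α u = u)
    (hv : φ.m β u = v) (hαv : φ.m α v = v) (h1 : w ≠ u) (h2 : w ≠ v) (c : C) :
    (φ.kswap α β u).m c w = φ.m c w := by
  apply φ.kswap_of_notMem
  subst hv
  rw [φ.mem_chain_pair hαu hαv]
  push Not
  exact ⟨h1, h2⟩

lemma PCol.recolor_β (φ : PCol V C) {α β : C} (hαu : φ.m α u = u) :
    (φ.kswap α β u).m β u = u := by
  rw [φ.kswap_right (φ.mem_chain_self _ _ _)]; exact hαu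

lemma PCol.recolor_α (φ : PCol V C) {α β : C} {v : V} (hv : φ.m β u = v) :
    (φ.kswap α β u).m α u = v := by
  rw [φ.kswap_left (φ.mem_chain_self _ _ _)]; exact hv

end stage2

section
variable (hG : Crit G C k)
include hG

/-- stage 1 of the move: a Kempe change making `α` missing at `v`. -/
lemma Crit.stage1 (h : IsCol G u y φ) {α : C} (hα : φ.m α u = u) {v : V} (hvu : v ≠ u)
    (hvy : v ≠ y) {μ : C} (hμv : φ.m μ v = v) (hμ : μ = α ∨ φ.m μ y = y) :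
    (∀ c, (φ.kswap α μ v).m c u = φ.m c u) ∧ (∀ c, (φ.kswap α μ v).m c y = φ.m c y) ∧
      (φ.kswap α μ v).m α v = v := by
  rcases hμ with rfl | hμ
  · refine ⟨fun c => φ.kswap_self _ _ _ _, fun c => φ.kswap_self _ _ _ _, ?_⟩
    rw [φ.kswap_self]; exact hμv
  · obtain ⟨nu, ny⟩ := hG.not_mem_chain h hα hμ hvu hvy (Or.inr hμv)
    refine ⟨fun c => φ.kswap_of_notMem nu c, fun c => φ.kswap_of_notMem ny c, ?_⟩
    rw [φ.kswap_left (φ.mem_chain_self _ _ _)]; exact hμv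

/-- Case: both small vertices are attached through colours missing at `u` or `y`. -/
lemma Crit.s3 (hk : 6 ≤ k) (hU : IsU1 G k u) (hub : G.degree u = Fintype.card C)
    (hy : G.degree y = k) {z w₁ w₂ : V} {ζ γ₁ γ₂ : C}
    (P₁ : Path4 G u y z w₁ ζ γ₁ φ) (P₂ : Path4 G u y z w₂ ζ γ₂ φ)
    (hγ₁ : φ.m γ₁ u = u ∨ φ.m γ₁ y = y) (hγ₂ : φ.m γ₂ u = u ∨ φ.m γ₂ y = y)
    (hw₁ : G.degree w₁ ≤ k) (hw₂ : G.degree w₂ ≤ k) (hne : w₁ ≠ w₂) : False := by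
  obtain ⟨f1, ε₁, e1, e1'⟩ := hG.s1 hub hy P₁ hγ₁ hw₁
  obtain ⟨f2, ε₂, e2, e2'⟩ := hG.s1 hub hy P₂ hγ₂ hw₂
  have hc := hG.card
  have hP := hG.card_Pf' P₁.col hy
  have : 0 < (Pf φ u y).card := by omega
  obtain ⟨β, hβ⟩ := Finset.card_pos.mp this
  have hM := hG.card_miss_y P₁.col hy
  obtain ⟨μ, hμ, hμ'⟩ := Finset.exists_mem_notMem_of_card_lt_card
    (s := ({ε₁, ε₂, γ₁, γ₂} : Finset C)) (t := miss φ y)
    (lt_of_le_of_lt Finset.card_le_four (by omega))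
  rw [mem_miss] at hμ
  simp only [Finset.mem_insert, Finset.mem_singleton, not_or] at hμ'
  obtain ⟨m1, m2, m3, m4⟩ := hμ'
  have l1 := hG.link hU hy P₁ hγ₁ hβ hμ m3 m1 e1' e1 (f1 β hβ)
  have l2 := hG.link hU hy P₂ hγ₂ hβ hμ m4 m2 e2' e2 (f2 β hβ)
  rcases φ.ends (Or.inr hμ) (Or.inl (f1 β hβ)) (Or.inl (f2 β hβ)) l1 l2 with e | e | e
  · exact P₁.wy e.symm
  · exact P₂.wy e.symm
  · exact hne e

/-- Case: one of the small vertices is attached through a colour missing at `u` or `y`. -/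
lemma Crit.s4 (hk : 6 ≤ k) (hU : IsU1 G k u) (hub : G.degree u = Fintype.card C)
    (hy : G.degree y = k) {z w₁ w₂ : V} {ζ γ₁ β : C} (hz : G.degree z = Fintype.card C)
    (P₁ : Path4 G u y z w₁ ζ γ₁ φ) (P₂ : Path4 G u y z w₂ ζ β φ)
    (hγ₁ : φ.m γ₁ u = u ∨ φ.m γ₁ y = y) (hβ : β ∈ Pf φ u y)
    (hw₁ : G.degree w₁ ≤ k) (hw₂ : G.degree w₂ ≤ k) (hne : w₁ ≠ w₂) : False := by
  have hc := hG.card
  have h := P₁.col
  obtain ⟨α, hα⟩ := hG.exists_alpha hub h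
  have hαu : φ.m α u = u := (hα α).mpr rfl
  obtain ⟨v, hv⟩ : ∃ v, φ.m β u = v := ⟨_, rfl⟩
  have hβ' := mem_Pf.mp hβ
  have hvk : G.degree v = k := by rw [← hv]; exact hG.F1leaf hU h hy hβ'.1 hβ'.2
  have hvu : v ≠ u := by rw [← hv]; exact hβ'.1
  have hvy : v ≠ y := by rw [← hv]; exact h.unc β
  have hβv : φ.m β v ≠ v := by rw [← hv, φ.inv]; rw [hv]; exact hvu.symm
  have hE := hG.card_E' h hy hβ hβv
  have hmv := hG.card_miss_leaf h hvk hvu hvy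
  have : 0 < ((miss φ v).filter (fun c => φ.m c u = u ∨ φ.m c y = y)).card := by omega
  obtain ⟨μ, hμ⟩ := Finset.card_pos.mp this
  rw [Finset.mem_filter, mem_miss] at hμ
  obtain ⟨hμv, hμ⟩ := hμ
  have hμ' : μ = α ∨ φ.m μ y = y := by
    rcases hμ with h | h
    · exact Or.inl ((hα μ).mp h)
    · exact Or.inr h
  obtain ⟨s1, s2, s3⟩ := hG.stage1 h hαu hvu hvy hμv hμ'
  have hβα : β ≠ α := by rintro rfl; exact hβ'.1 hαu
  have hβμ : β ≠ μ := by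
    rintro rfl
    rcases hμ with h | h
    · exact hβ'.1 h
    · exact hβ'.2 h
  set φ1 := φ.kswap α μ v with hφ1
  have h1 : IsCol G u y φ1 := h.kswap α μ v
  have oβ : ∀ w, φ1.m β w = φ.m β w := fun w => φ.kswap_other _ _ hβα hβμ
  have hzu : z ≠ u := by rw [← P₁.xz]; exact hG.L0' h P₁.zy
  have hzy : z ≠ y := by rw [← P₁.xz]; exact h.unc _
  obtain ⟨γ', hγ'w, hγ'⟩ : ∃ γ', φ1.m γ' z = w₁ ∧ (φ.m γ' u = u ∨ φ.m γ' y = y) := by
    rcases φ.kswap_m_eq α μ v z with e | e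
    · exact ⟨γ₁, by rw [e]; exact P₁.zw, hγ₁⟩
    · refine ⟨Equiv.swap α μ γ₁, by rw [e, Equiv.swap_apply_self]; exact P₁.zw, ?_⟩
      by_cases g1 : γ₁ = α
      · subst g1
        rw [Equiv.swap_apply_left]; exact hμ
      by_cases g2 : γ₁ = μ
      · subst g2
        rw [Equiv.swap_apply_right]; exact Or.inl hαu
      rw [Equiv.swap_apply_of_ne_of_ne g1 g2]; exact hγ₁
  have hP1 : Pf φ1 u y = Pf φ u y := Pf_congr s1 s2
  have P1 : Path4 G u y z w₁ ζ γ' φ1 := ⟨h1, by rw [s2]; exact P₁.zy, by rw [s1]; exact P₁.xz,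
    hγ'w, P₁.wx, P₁.wy, P₁.wz⟩
  have hγ'1 : φ1.m γ' u = u ∨ φ1.m γ' y = y := by rw [s1, s2]; exact hγ'
  obtain ⟨f1, ε₁, e1, e1'⟩ := hG.s1 hub hy P1 hγ'1 hw₁
  -- stage 2
  have hαu1 : φ1.m α u = u := by rw [s1]; exact hαu
  have hv1 : φ1.m β u = v := by rw [s1]; exact hv
  set φ2 := φ1.kswap α β u with hφ2
  have h2 : IsCol G u y φ2 := h1.kswap α β u
  have hzv : z ≠ v := by rintro rfl; omega
  have o2 : ∀ w, w ≠ u → w ≠ v → ∀ c, φ2.m c w = φ1.m c w := fun w a b c =>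
    φ1.recolor_other hαu1 hv1 s3 a b c
  have hζα : ζ ≠ α := by rintro rfl; exact hG.L0 h hαu P₁.zy
  have hζβ : ζ ≠ β := by rintro rfl; exact hβ'.2 P₁.zy
  have hβu2 : φ2.m β u = u := φ1.recolor_β hαu1
  have P2 : Path4 G u y z w₂ ζ β φ2 := ⟨h2, by rw [o2 y h.ne.symm hvy.symm]; exact P1.zy,
    by rw [φ1.kswap_other _ _ hζα hζβ]; exact P1.xz,
    by rw [o2 z hzu hzv, oβ]; exact P₂.zw, P₂.wx, P₂.wy, P₂.wz⟩
  obtain ⟨f2, ε₂, e2, e2'⟩ := hG.s1 hub hy P2 (Or.inl hβu2) hw₂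
  -- choose colours
  have hPc := hG.card_Pf' h hy
  obtain ⟨β', hβ'1, hβ'2⟩ : ∃ β' ∈ Pf φ u y, β' ∉ ({β} : Finset C) :=
    Finset.exists_mem_notMem_of_card_lt_card (by rw [Finset.card_singleton]; omega)
  rw [Finset.mem_singleton] at hβ'2
  have hM := hG.card_miss_y h hy
  obtain ⟨μ', hμ'1, hμ'2⟩ : ∃ μ' ∈ miss φ y, μ' ∉ ({ε₁, ε₂, γ', β} : Finset C) :=
    Finset.exists_mem_notMem_of_card_lt_card
      (lt_of_le_of_lt Finset.card_le_four (by omega))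
  rw [mem_miss] at hμ'1
  simp only [Finset.mem_insert, Finset.mem_singleton, not_or] at hμ'2
  obtain ⟨m1, m2, m3, m4⟩ := hμ'2
  have hβ'P := mem_Pf.mp hβ'1
  have hβ'α : β' ≠ α := by rintro rfl; exact hβ'P.1 hαu
  have hμ'α : μ' ≠ α := by rintro rfl; exact hG.L0 h hαu hμ'1
  have c1 : φ2.m β' = φ1.m β' := φ1.kswap_other' _ hβ'α hβ'2
  have c2 : φ2.m μ' = φ1.m μ' := φ1.kswap_other' _ hμ'α m4
  have hβ'P1 : β' ∈ Pf φ1 u y := by rw [hP1]; exact hβ'1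
  have hβ'P2 : β' ∈ Pf φ2 u y := by
    rw [mem_Pf] at hβ'P1 ⊢
    rw [c1]; exact hβ'P1
  have hμ'1' : φ1.m μ' y = y := by rw [s2]; exact hμ'1
  have hμ'2' : φ2.m μ' y = y := by rw [c2]; exact hμ'1'
  have l1 := hG.link hU hy P1 hγ'1 hβ'P1 hμ'1' m3 m1 e1' e1 (f1 β' hβ'P1)
  have l2 := hG.link hU hy P2 (Or.inl hβu2) hβ'P2 hμ'2' m4 m2 e2' e2 (f2 β' hβ'P2)
  unfold PCol.chain at l2
  rw [c1, c2] at l2
  have f2' := f2 β' hβ'P2
  rw [c1] at f2'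
  rcases φ1.ends (Or.inr hμ'1') (Or.inl (f1 β' hβ'P1)) (Or.inl f2') l1 l2 with e | e | e
  · exact P₁.wy e.symm
  · exact P₂.wy e.symm
  · exact hne e

/-- Case: both small vertices are attached through colours present at `u` and `y`. -/
lemma Crit.s5 (hk : 6 ≤ k) (hU : IsU1 G k u) (hub : G.degree u = Fintype.card C)
    (hy : G.degree y = k) {z w₁ w₂ : V} {ζ β β₂ : C} (hz : G.degree z = Fintype.card C)
    (P₁ : Path4 G u y z w₁ ζ β φ) (P₂ : Path4 G u y z w₂ ζ β₂ φ)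
    (hβ : β ∈ Pf φ u y) (hβ₂ : β₂ ∈ Pf φ u y)
    (hw₁ : G.degree w₁ ≤ k) (hw₂ : G.degree w₂ ≤ k) (hne : w₁ ≠ w₂) : False := by
  have hc := hG.card
  have h := P₁.col
  obtain ⟨α, hα⟩ := hG.exists_alpha hub h
  have hαu : φ.m α u = u := (hα α).mpr rfl
  obtain ⟨v, hv⟩ : ∃ v, φ.m β u = v := ⟨_, rfl⟩
  have hβ' := mem_Pf.mp hβ
  have hβ₂' := mem_Pf.mp hβ₂
  have hvk : G.degree v = k := by rw [← hv]; exact hG.F1leaf hU h hy hβ'.1 hβ'.2
  have hvu : v ≠ u := by rw [← hv]; exact hβ'.1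
  have hvy : v ≠ y := by rw [← hv]; exact h.unc β
  have hβv : φ.m β v ≠ v := by rw [← hv, φ.inv]; rw [hv]; exact hvu.symm
  have hE := hG.card_E' h hy hβ hβv
  have hmv := hG.card_miss_leaf h hvk hvu hvy
  have : 0 < ((miss φ v).filter (fun c => φ.m c u = u ∨ φ.m c y = y)).card := by omega
  obtain ⟨μ, hμ⟩ := Finset.card_pos.mp this
  rw [Finset.mem_filter, mem_miss] at hμ
  obtain ⟨hμv, hμ⟩ := hμ
  have hμ' : μ = α ∨ φ.m μ y = y := by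
    rcases hμ with h | h
    · exact Or.inl ((hα μ).mp h)
    · exact Or.inr h
  obtain ⟨s1, s2, s3⟩ := hG.stage1 h hαu hvu hvy hμv hμ'
  have hβα : β ≠ α := by rintro rfl; exact hβ'.1 hαu
  have hβ₂α : β₂ ≠ α := by rintro rfl; exact hβ₂'.1 hαu
  have hβμ : β ≠ μ := by
    rintro rfl
    rcases hμ with h | h
    · exact hβ'.1 h
    · exact hβ'.2 h
  have hβ₂μ : β₂ ≠ μ := by
    rintro rfl
    rcases hμ with h | h
    · exact hβ₂'.1 h
    · exact hβ₂'.2 h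
  have hββ : β₂ ≠ β := by
    rintro rfl
    exact hne (P₁.zw.symm.trans P₂.zw)
  set φ1 := φ.kswap α μ v with hφ1
  have h1 : IsCol G u y φ1 := h.kswap α μ v
  have oβ : ∀ w, φ1.m β w = φ.m β w := fun w => φ.kswap_other _ _ hβα hβμ
  have oβ₂ : ∀ w, φ1.m β₂ w = φ.m β₂ w := fun w => φ.kswap_other _ _ hβ₂α hβ₂μ
  have hzu : z ≠ u := by rw [← P₁.xz]; exact hG.L0' h P₁.zy
  have hzy : z ≠ y := by rw [← P₁.xz]; exact h.unc _
  -- stage 2
  have hαu1 : φ1.m α u = u := by rw [s1]; exact hαu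
  have hv1 : φ1.m β u = v := by rw [s1]; exact hv
  set φ2 := φ1.kswap α β u with hφ2
  have h2 : IsCol G u y φ2 := h1.kswap α β u
  have hzv : z ≠ v := by rintro rfl; omega
  have o2 : ∀ w, w ≠ u → w ≠ v → ∀ c, φ2.m c w = φ1.m c w := fun w a b c =>
    φ1.recolor_other hαu1 hv1 s3 a b c
  have hζα : ζ ≠ α := by rintro rfl; exact hG.L0 h hαu P₁.zy
  have hζβ : ζ ≠ β := by rintro rfl; exact hβ'.2 P₁.zy
  have hβu2 : φ2.m β u = u := φ1.recolor_β hαu1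
  have e1 : φ2.m ζ y = y := by rw [o2 y h.ne.symm hvy.symm, s2]; exact P₁.zy
  have e2 : φ2.m ζ u = z := by rw [φ1.kswap_other _ _ hζα hζβ, s1]; exact P₁.xz
  have P1 : Path4 G u y z w₁ ζ β φ2 := ⟨h2, e1, e2,
    by rw [o2 z hzu hzv, oβ]; exact P₁.zw, P₁.wx, P₁.wy, P₁.wz⟩
  have P2 : Path4 G u y z w₂ ζ β₂ φ2 := ⟨h2, e1, e2,
    by rw [o2 z hzu hzv, oβ₂]; exact P₂.zw, P₂.wx, P₂.wy, P₂.wz⟩
  refine hG.s4 hk hU hub hy hz P1 P2 (Or.inl hβu2) ?_ hw₁ hw₂ hne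
  rw [mem_Pf, φ1.kswap_other' u hβ₂α hββ, s1, s2]
  exact hβ₂'

/-- A big neighbour of a hub has at most one neighbour of degree at most `k`. -/
theorem Crit.starstar (hk : 6 ≤ k) (hU : IsU1 G k u) (hub : G.degree u = Fintype.card C)
    {z w₁ w₂ : V} (huz : G.Adj u z) (hz : G.degree z = Fintype.card C)
    (hzw₁ : G.Adj z w₁) (hzw₂ : G.Adj z w₂) (hw₁ : G.degree w₁ ≤ k) (hw₂ : G.degree w₂ ≤ k) :
    w₁ = w₂ := by
  by_contra hne
  have hc := hG.card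
  have hl := hG.card_leaves hU
  obtain ⟨y, hy, hy'⟩ := Finset.exists_mem_notMem_of_card_lt_card
    (s := ({w₁, w₂} : Finset V)) (t := leaves G k u)
    (lt_of_le_of_lt Finset.card_le_two (by omega))
  rw [mem_leaves] at hy
  simp only [Finset.mem_insert, Finset.mem_singleton, not_or] at hy'
  obtain ⟨huy, hyk⟩ := hy
  obtain ⟨φ, h⟩ := hG.exCol u y huy
  have hzy : z ≠ y := by rintro rfl; omega
  obtain ⟨ζ, hζ⟩ := h.exists_color huz (fun e => hzy e.2) (fun e => h.ne e.1)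
  have hζy : φ.m ζ y = y := (hG.F1 hU h hyk).mpr ⟨by rw [hζ]; exact huz.ne', by rw [hζ]; omega⟩
  have w1u : w₁ ≠ u := by rintro rfl; omega
  have w2u : w₂ ≠ u := by rintro rfl; omega
  obtain ⟨γ₁, hγ₁⟩ := h.exists_color hzw₁ (fun e => hy'.1 e.2.symm) (fun e => hzy e.1)
  obtain ⟨γ₂, hγ₂⟩ := h.exists_color hzw₂ (fun e => hy'.2 e.2.symm) (fun e => hzy e.1)
  have P₁ : Path4 G u y z w₁ ζ γ₁ φ := ⟨h, hζy, hζ, hγ₁, w1u, Ne.symm hy'.1, hzw₁.ne'⟩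
  have P₂ : Path4 G u y z w₂ ζ γ₂ φ := ⟨h, hζy, hζ, hγ₂, w2u, Ne.symm hy'.2, hzw₂.ne'⟩
  by_cases c1 : γ₁ ∈ Pf φ u y
  · by_cases c2 : γ₂ ∈ Pf φ u y
    · exact hG.s5 hk hU hub hyk hz P₁ P₂ c1 c2 hw₁ hw₂ hne
    · have c2' : φ.m γ₂ u = u ∨ φ.m γ₂ y = y := by
        rw [mem_Pf] at c2; tauto
      exact hG.s4 hk hU hub hyk hz P₂ P₁ c2' c1 hw₂ hw₁ (Ne.symm hne)
  · have c1' : φ.m γ₁ u = u ∨ φ.m γ₁ y = y := by
      rw [mem_Pf] at c1; tauto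
    by_cases c2 : γ₂ ∈ Pf φ u y
    · exact hG.s4 hk hU hub hyk hz P₁ P₂ c1' c2 hw₁ hw₂ hne
    · have c2' : φ.m γ₂ u = u ∨ φ.m γ₂ y = y := by
        rw [mem_Pf] at c2; tauto
      exact hG.s3 hk hU hub hyk P₁ P₂ c1' c2' hw₁ hw₂ hne

end

end Pool.Agent.Lib.MP_a18785_co
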