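import Mathlib
import Pool.Agent.Lib.MP_a18785_co.StarStar

/-!
Vertices with few big neighbours which are not of full degree.
-/

set_option autoImplicit false
set_option linter.unusedSectionVars false

namespace Pool.Agent.Lib.MP_a18785_co

variable {V C : Type*} [DecidableEq V] [DecidableEq C] [Fintype V] [Fintype C]
variable {G : SimpleGraph V} [DecidableRel G.Adj] {k : ℕ} {u y z w : V} {ζ γ : C} {φ : PCol V C}

/-- The colours leading from `w` to leaves of `w`. -/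
def Kc (G : SimpleGraph V) [DecidableRel G.Adj] (k : ℕ) (φ : PCol V C) (w : V) : Finset C :=
  Finset.univ.filter (fun c => φ.m c w ∈ leaves G k w)

lemma mem_Kc {c : C} : c ∈ Kc G k φ w ↔ φ.m c w ∈ leaves G k w := by simp [Kc]

lemma mem_Kc_ne {c : C} (h : c ∈ Kc G k φ w) : φ.m c w ≠ w := by
  rw [mem_Kc, mem_leaves] at h
  exact h.1.ne'

lemma IsCol.card_Kc (h : IsCol G u y φ) (hwu : w ≠ u) (hwy : w ≠ y) :
    (Kc G k φ w).card = (leaves G k w).card := by
  have himg : (Kc G k φ w).image (fun c => φ.m c w) = leaves G k w := by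
    ext v
    rw [Finset.mem_image]
    constructor
    · rintro ⟨c, hc, rfl⟩
      exact mem_Kc.mp hc
    · intro hv
      obtain ⟨c, hc⟩ := h.exists_color (mem_leaves.mp hv).1 (fun e => hwu e.1) (fun e => hwy e.1)
      exact ⟨c, by rw [mem_Kc, hc]; exact hv, hc⟩
  rw [← himg, Finset.card_image_of_injOn]
  intro c hc d hd hcd
  exact φ.inj c d w hcd (mem_Kc_ne hc)

/-- Path data is preserved by a Kempe change not involving the two colours of the path. -/
lemma Path4.kswap_gen (P : Path4 G u y z w ζ γ φ) {a b : C} (v : V)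
    (h1 : ζ ≠ a) (h2 : ζ ≠ b) (h3 : γ ≠ a) (h4 : γ ≠ b) :
    Path4 G u y z w ζ γ (φ.kswap a b v) where
  col := P.col.kswap a b v
  zy := by rw [φ.kswap_other _ _ h1 h2]; exact P.zy
  xz := by rw [φ.kswap_other _ _ h1 h2]; exact P.xz
  zw := by rw [φ.kswap_other _ _ h3 h4]; exact P.zw
  wx := P.wx
  wy := P.wy
  wz := P.wz

section
variable (hG : Crit G C k)
include hG

lemma Crit.m1 (P : Path4 G u y z w ζ γ φ) (hγ : φ.m γ u = u ∨ φ.m γ y = y)
    {a a' : C} (ha : φ.m a u = u) (ha' : φ.m a' u = u) (haa : a' ≠ a)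
    {y' : V} (y'u : y' ≠ u) (y'y : y' ≠ y) (y'z : y' ≠ z)
    {η' d : C} (hη'w : φ.m η' w = y') (hη' : φ.m η' u = u ∨ φ.m η' y = y)
    (hdw : φ.m d w = w) (hdy' : φ.m d y' = y') : False := by
  subst hη'w
  have hchain : ∀ q, q ≠ w → q ≠ φ.m η' w → q ∉ φ.chain d η' w := by
    intro q h1 h2
    rw [φ.mem_chain_pair hdw hdy']
    push Not
    exact ⟨h1, h2⟩
  have nu := hchain u P.wx.symm y'u.symm
  have ny := hchain y P.wy.symm y'y.symm
  have nz := hchain z P.wz.symm y'z.symm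
  have P' := P.kswap_of hG nu ny nz
  refine hG.K4a P' (a := a) (a' := a') (η := η') ?_ ?_ ?_ haa ?_ ?_
  · rw [φ.kswap_of_notMem nu, φ.kswap_of_notMem ny]; exact hγ
  · rw [φ.kswap_of_notMem nu]; exact ha
  · rw [φ.kswap_of_notMem nu]; exact ha'
  · rw [φ.kswap_of_notMem nu, φ.kswap_of_notMem ny]; exact hη'
  · rw [φ.kswap_right (φ.mem_chain_self _ _ _)]; exact hdw

lemma Crit.m2 (P : Path4 G u y z w ζ γ φ) (hγ : φ.m γ u = u ∨ φ.m γ y = y)
    {a a' : C} (ha : φ.m a u = u) (ha' : φ.m a' u = u) (haa : a' ≠ a)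
    {y' : V} (y'u : y' ≠ u) (y'y : y' ≠ y) (y'z : y' ≠ z) (y'w : y' ≠ w)
    {η' δ : C} (hη'w : φ.m η' w = y') (hη' : φ.m η' u = u ∨ φ.m η' y = y)
    (hδw : φ.m δ w = w) (haγ : a ≠ γ) (hay' : φ.m a y' = y') : False := by
  have K : ∀ η, (φ.m η u = u ∨ φ.m η y = y) → φ.m η w ≠ w := fun η h => hG.K4a P hγ ha ha' haa h
  have haw : φ.m a w ≠ w := K a (Or.inl ha)
  have hδu : φ.m δ u ≠ u := fun h => K δ (Or.inl h) hδw
  have hδy : φ.m δ y ≠ y := fun h => K δ (Or.inr h) hδw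
  have hζa : ζ ≠ a := by rintro rfl; exact hG.L0 P.col ha P.zy
  have hζδ : ζ ≠ δ := by rintro rfl; exact hδy P.zy
  have hγδ : γ ≠ δ := by rintro rfl; exact P.γw hδw
  have haδ : a ≠ δ := by rintro rfl; exact haw hδw
  have hu : u ∈ φ.chain a δ w := by
    by_contra nu
    have P' := P.kswap_gen w hζa hζδ haγ.symm hγδ
    refine hG.K4a P' (a := a) (a' := a') (η := a) ?_ ?_ ?_ haa ?_ ?_
    · rw [φ.kswap_of_notMem nu, φ.kswap_other _ _ haγ.symm hγδ]; exact hγ
    · rw [φ.kswap_of_notMem nu]; exact ha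
    · rw [φ.kswap_of_notMem nu]; exact ha'
    · rw [φ.kswap_of_notMem nu]; exact Or.inl ha
    · rw [φ.kswap_left (φ.mem_chain_self _ _ _)]; exact hδw
  have hy'c : y' ∉ φ.chain a δ w := by
    intro h
    rcases φ.ends (Or.inr hδw) (Or.inl ha) (Or.inl hay') hu h with e | e | e
    · exact P.wx e
    · exact y'w e.symm
    · exact y'u e.symm
  have nw : w ∉ φ.chain a δ y' := fun h => hy'c (φ.chain_symm.mp h)
  have nu : u ∉ φ.chain a δ y' := fun h => hy'c (φ.chain_trans hu (φ.chain_symm.mp h))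
  have P' := P.kswap_gen y' hζa hζδ haγ.symm hγδ
  refine hG.m1 P' (a := a) (a' := a') (η' := η') (d := δ) (y' := y') ?_ ?_ ?_ haa y'u y'y y'z
    ?_ ?_ ?_ ?_
  · rw [φ.kswap_of_notMem nu, φ.kswap_other _ _ haγ.symm hγδ]; exact hγ
  · rw [φ.kswap_of_notMem nu]; exact ha
  · rw [φ.kswap_of_notMem nu]; exact ha'
  · rw [φ.kswap_of_notMem nw]; exact hη'w
  · rw [φ.kswap_of_notMem nu]
    rcases hη' with h | h
    · exact Or.inl h
    · right
      have h1 : η' ≠ a := by rintro rfl; exact hG.L0 P.col ha h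
      have h2 : η' ≠ δ := by rintro rfl; exact hδy h
      rw [φ.kswap_other _ _ h1 h2]; exact h
  · rw [φ.kswap_of_notMem nw]; exact hδw
  · rw [φ.kswap_right (φ.mem_chain_self _ _ _)]; exact hay'

lemma Crit.m3 (P : Path4 G u y z w ζ γ φ) (hγ : φ.m γ u = u ∨ φ.m γ y = y)
    {a a' : C} (ha : φ.m a u = u) (ha' : φ.m a' u = u) (haa : a' ≠ a)
    {y' : V} (y'u : y' ≠ u) (y'y : y' ≠ y) (y'z : y' ≠ z) (y'w : y' ≠ w)
    {η' δ η : C} (hη'w : φ.m η' w = y') (hη' : φ.m η' u = u ∨ φ.m η' y = y)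
    (hδw : φ.m δ w = w) (haγ : a ≠ γ) (hηy : φ.m η y = y) (hηγ : η ≠ γ)
    (hηy' : φ.m η y' = y') : False := by
  by_cases hay' : φ.m a y' = y'
  · exact hG.m2 P hγ ha ha' haa y'u y'y y'z y'w hη'w hη' hδw haγ hay'
  have K : ∀ η, (φ.m η u = u ∨ φ.m η y = y) → φ.m η w ≠ w := fun η h => hG.K4a P hγ ha ha' haa h
  obtain ⟨nu, ny⟩ := hG.not_mem_chain P.col ha hηy y'u y'y (Or.inr hηy')
  have P' := P.kswap_of' hG nu ny haγ.symm hηγ.symm
  have hδa : δ ≠ a := by rintro rfl; exact K δ (Or.inl ha) hδw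
  have hδη : δ ≠ η := by rintro rfl; exact K δ (Or.inr hηy) hδw
  obtain ⟨η'', h1, h2⟩ : ∃ η'', (φ.kswap a η y').m η'' w = y' ∧
      (φ.m η'' u = u ∨ φ.m η'' y = y) := by
    rcases φ.kswap_m_eq a η y' w with e | e
    · exact ⟨η', by rw [e]; exact hη'w, hη'⟩
    · refine ⟨Equiv.swap a η η', by rw [e, Equiv.swap_apply_self]; exact hη'w, ?_⟩
      by_cases g1 : η' = a
      · subst g1
        rw [Equiv.swap_apply_left]; exact Or.inr hηy
      by_cases g2 : η' = η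
      · subst g2
        rw [Equiv.swap_apply_right]; exact Or.inl ha
      rw [Equiv.swap_apply_of_ne_of_ne g1 g2]; exact hη'
  refine hG.m2 P' (a := a) (a' := a') (η' := η'') (δ := δ) (y' := y') ?_ ?_ ?_ haa y'u y'y y'z
    y'w h1 ?_ ?_ haγ ?_
  · rw [φ.kswap_of_notMem nu, φ.kswap_of_notMem ny]; exact hγ
  · rw [φ.kswap_of_notMem nu]; exact ha
  · rw [φ.kswap_of_notMem nu]; exact ha'
  · rw [φ.kswap_of_notMem nu, φ.kswap_of_notMem ny]; exact h2
  · rw [φ.kswap_other _ _ hδa hδη]; exact hδw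
  · rw [φ.kswap_left (φ.mem_chain_self _ _ _)]; exact hηy'

/-- Main part of the analysis of vertices `u` which are not of full degree. -/
lemma Crit.medium_aux (hyk : G.degree y = k) (hmed : G.degree u < Fintype.card C)
    (hku : k < G.degree u)
    (P : Path4 G u y z w ζ γ φ) (hγ : φ.m γ u = u ∨ φ.m γ y = y)
    (hz : G.degree z = Fintype.card C) :
    k < G.degree w ∧ ¬ (IsU1 G k w ∧ G.degree w < Fintype.card C) := by
  have hc := hG.card
  have hA := hG.card_miss_u P.col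
  have : 1 < (miss φ u).card := by omega
  obtain ⟨a, ha, a', ha', haa⟩ := Finset.one_lt_card.mp this
  rw [mem_miss] at ha ha'
  have K : ∀ η, (φ.m η u = u ∨ φ.m η y = y) → φ.m η w ≠ w :=
    fun η h => hG.K4a P hγ ha ha' haa.symm h
  have hsub : miss φ w ⊆ Pf φ u y := by
    intro c hcw
    rw [mem_miss] at hcw
    rw [mem_Pf]
    exact ⟨fun h => K c (Or.inl h) hcw, fun h => K c (Or.inr h) hcw⟩
  have h1 := Finset.card_le_card hsub
  have h2 := hG.card_Pf' P.col hyk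
  have h3 := P.col.card_miss_other P.wx P.wy
  refine ⟨by omega, ?_⟩
  rintro ⟨hUw, hwD⟩
  have hpos : 0 < (miss φ w).card := by omega
  obtain ⟨δ, hδ⟩ := Finset.card_pos.mp hpos
  rw [mem_miss] at hδ
  -- leaves of w through colours missing at u or y
  have h4 := P.col.card_Kc (k := k) P.wx P.wy
  have h5 := hG.card_leaves hUw
  have h6 : ((Kc G k φ w).filter (fun c => c ∈ Pf φ u y)).card + (miss φ w).card
      ≤ (Pf φ u y).card := by
    rw [← Finset.card_union_of_disjoint]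
    · apply Finset.card_le_card
      apply Finset.union_subset
      · exact fun c hc => (Finset.mem_filter.mp hc).2
      · exact hsub
    · rw [Finset.disjoint_left]
      intro c hc hc'
      exact mem_Kc_ne (Finset.mem_filter.mp hc).1 (mem_miss.mp hc')
  have h7 : ((Kc G k φ w).filter (fun c => c ∈ Pf φ u y)).card +
      ((Kc G k φ w).filter (fun c => ¬ c ∈ Pf φ u y)).card = (Kc G k φ w).card :=
    Finset.card_filter_add_card_filter_not _
  have h8 : 1 < ((Kc G k φ w).filter (fun c => ¬ c ∈ Pf φ u y)).card := by omega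
  obtain ⟨c₁, hc₁, c₂, hc₂, hcc⟩ := Finset.one_lt_card.mp h8
  obtain ⟨η', hη', hη'y⟩ : ∃ η' ∈ (Kc G k φ w).filter (fun c => ¬ c ∈ Pf φ u y),
      φ.m η' w ≠ y := by
    by_cases e1 : φ.m c₁ w = y
    · refine ⟨c₂, hc₂, fun e2 => hcc ?_⟩
      exact φ.inj c₁ c₂ w (e1.trans e2.symm) (mem_Kc_ne (Finset.mem_filter.mp hc₁).1)
    · exact ⟨c₁, hc₁, e1⟩
  rw [Finset.mem_filter, mem_Kc, mem_leaves, mem_Pf] at hη'
  obtain ⟨⟨hwy', hy'k⟩, hη'P⟩ := hη'
  have hη'E : φ.m η' u = u ∨ φ.m η' y = y := by tauto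
  have y'u : φ.m η' w ≠ u := by intro e; rw [e] at hy'k; omega
  have y'z : φ.m η' w ≠ z := by intro e; rw [e] at hy'k; omega
  have y'w : φ.m η' w ≠ w := hwy'.ne'
  -- missing colours at y'
  have h9 := hG.card_miss_leaf P.col hy'k y'u hη'y
  have h10 := hG.card_E P.col hyk (v := φ.m η' w)
  have h11 : 1 < ((miss φ (φ.m η' w)).filter (fun c => φ.m c u = u ∨ φ.m c y = y)).card := by
    omega
  obtain ⟨η, hη, hηγ⟩ := Finset.exists_mem_ne h11 γ
  rw [Finset.mem_filter, mem_miss] at hη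
  obtain ⟨hηy', hη⟩ := hη
  rcases hη with hη | hη
  · obtain ⟨b, hb, hbη⟩ : ∃ b, φ.m b u = u ∧ b ≠ η := by
      by_cases e : a = η
      · exact ⟨a', ha', fun e' => haa (e.trans e'.symm)⟩
      · exact ⟨a, ha, e⟩
    exact hG.m2 P hγ hη hb hbη y'u hη'y y'z y'w rfl hη'E hδ hηγ hηy'
  · by_cases e : a = γ
    · have e' : a' ≠ γ := fun h => haa (e.trans h.symm)
      exact hG.m3 P hγ ha' ha haa y'u hη'y y'z y'w rfl hη'E hδ e' hη hηγ hηy'
    · exact hG.m3 P hγ ha ha' haa.symm y'u hη'y y'z y'w rfl hη'E hδ e hη hηγ hηy'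

/-- The neighbours of a big neighbour `z` of a vertex `u` of not full degree. -/
theorem Crit.medium (hU : IsU1 G k u) (hmed : G.degree u < Fintype.card C)
    (huz : G.Adj u z) (hz : G.degree z = Fintype.card C) (huy : G.Adj u y)
    (hyk : G.degree y = k) (hzw : G.Adj z w) (hwu : w ≠ u) (hwy : w ≠ y) :
    k < G.degree w ∧ ¬ (IsU1 G k w ∧ G.degree w < Fintype.card C) := by
  have hc := hG.card
  have hku := hU.1
  obtain ⟨φ, h⟩ := hG.exCol u y huy
  have hzy : z ≠ y := by rintro rfl; omega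
  obtain ⟨ζ, hζ⟩ := h.exists_color huz (fun e => hzy e.2) (fun e => h.ne e.1)
  have hζy : φ.m ζ y = y := (hG.F1 hU h hyk).mpr ⟨by rw [hζ]; exact huz.ne', by rw [hζ]; omega⟩
  obtain ⟨γ, hγ⟩ := h.exists_color hzw (fun e => hwy e.2) (fun e => hzy e.1)
  have P : Path4 G u y z w ζ γ φ := ⟨h, hζy, hζ, hγ, hwu, hwy, hzw.ne'⟩
  by_cases hγP : γ ∈ Pf φ u y
  · -- move
    obtain ⟨v, hv⟩ : ∃ v, φ.m γ u = v := ⟨_, rfl⟩
    have hγ' := mem_Pf.mp hγP
    have hvk : G.degree v = k := by rw [← hv]; exact hG.F1leaf hU h hyk hγ'.1 hγ'.2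
    have hvu : v ≠ u := by rw [← hv]; exact hγ'.1
    have hvy : v ≠ y := by rw [← hv]; exact h.unc γ
    have hγv : φ.m γ v ≠ v := by rw [← hv, φ.inv]; rw [hv]; exact hvu.symm
    have hE := hG.card_E' h hyk hγP hγv
    have hmv := hG.card_miss_leaf h hvk hvu hvy
    have : 0 < ((miss φ v).filter (fun c => φ.m c u = u ∨ φ.m c y = y)).card := by omega
    obtain ⟨μ, hμ⟩ := Finset.card_pos.mp this
    rw [Finset.mem_filter, mem_miss] at hμ
    obtain ⟨hμv, hμ⟩ := hμ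
    obtain ⟨α, hαu, hμα⟩ : ∃ α, φ.m α u = u ∧ (μ = α ∨ φ.m μ y = y) := by
      rcases hμ with h' | h'
      · exact ⟨μ, h', Or.inl rfl⟩
      · obtain ⟨α, hα⟩ := hG.exists_miss_x h
        exact ⟨α, hα, Or.inr h'⟩
    obtain ⟨s1, s2, s3⟩ := hG.stage1 h hαu hvu hvy hμv hμα
    have hγα : γ ≠ α := by rintro rfl; exact hγ'.1 hαu
    have hγμ : γ ≠ μ := by
      rintro rfl
      rcases hμ with h | h
      · exact hγ'.1 h
      · exact hγ'.2 h
    set φ1 := φ.kswap α μ v with hφ1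
    have h1 : IsCol G u y φ1 := h.kswap α μ v
    have oγ : ∀ w, φ1.m γ w = φ.m γ w := fun w => φ.kswap_other _ _ hγα hγμ
    have hzu : z ≠ u := huz.ne'
    have hαu1 : φ1.m α u = u := by rw [s1]; exact hαu
    have hv1 : φ1.m γ u = v := by rw [s1]; exact hv
    set φ2 := φ1.kswap α γ u with hφ2
    have h2 : IsCol G u y φ2 := h1.kswap α γ u
    have hzv : z ≠ v := by rintro rfl; omega
    have o2 : ∀ w, w ≠ u → w ≠ v → ∀ c, φ2.m c w = φ1.m c w := fun w a b c =>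
      φ1.recolor_other hαu1 hv1 s3 a b c
    have hζα : ζ ≠ α := by rintro rfl; exact hG.L0 h hαu P.zy
    have hζγ : ζ ≠ γ := P.γζ.symm
    have hγu2 : φ2.m γ u = u := φ1.recolor_β hαu1
    have P2 : Path4 G u y z w ζ γ φ2 := ⟨h2, by rw [o2 y h.ne.symm hvy.symm, s2]; exact P.zy,
      by rw [φ1.kswap_other _ _ hζα hζγ, s1]; exact P.xz,
      by rw [o2 z hzu hzv, oγ]; exact P.zw, P.wx, P.wy, P.wz⟩
    exact hG.medium_aux hyk hmed hku P2 (Or.inl hγu2) hz
  · have hγ' : φ.m γ u = u ∨ φ.m γ y = y := by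
      rw [mem_Pf] at hγP; tauto
    exact hG.medium_aux hyk hmed hku P hγ' hz

end

end Pool.Agent.Lib.MP_a18785_co
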