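import Mathlib
import Pool.Agent.Lib.MP_a18785_co.Medium

/-!
Existence of a colouring in which many hubs are joined to `z` by colours present at `y`.
-/

set_option autoImplicit false
set_option linter.unusedSectionVars false

namespace Pool.Agent.Lib.MP_a18785_co

variable {V C : Type*} [DecidableEq V] [DecidableEq C] [Fintype V] [Fintype C]

/-- The configuration: a hub `u` with leaf `y`, a full vertex `z` adjacent to `u` and a set `W`
of further hubs adjacent to `z`. -/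
structure Cfg (G : SimpleGraph V) [DecidableRel G.Adj] (C : Type*) [Fintype C] (k : ℕ)
    (u y z : V) (W : Finset V) : Prop where
  crit : Crit G C k
  hk : 20 ≤ k
  hU : IsU1 G k u
  hub : G.degree u = Fintype.card C
  uy : G.Adj u y
  yk : G.degree y = k
  uz : G.Adj u z
  zD : G.degree z = Fintype.card C
  W : ∀ w ∈ W, IsU1 G k w ∧ G.degree w = Fintype.card C ∧ G.Adj z w ∧ w ≠ u

variable {G : SimpleGraph V} [DecidableRel G.Adj] {k : ℕ} {u y z : V} {W : Finset V}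
variable {φ : PCol V C}

/-- The colours present at `y` which lead from `z` into `W`. -/
def Pset (φ : PCol V C) (y z : V) (W : Finset V) : Finset C :=
  Finset.univ.filter (fun c => φ.m c y ≠ y ∧ φ.m c z ∈ W)

lemma mem_Pset {c : C} : c ∈ Pset φ y z W ↔ φ.m c y ≠ y ∧ φ.m c z ∈ W := by simp [Pset]

/-- A colouring of `G - uy` with the maximum number of `P`-hubs. -/
structure MaxSt (G : SimpleGraph V) (u y z : V) (W : Finset V) (φ : PCol V C) : Prop where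
  col : IsCol G u y φ
  max : ∀ φ' : PCol V C, IsCol G u y φ' → (Pset φ' y z W).card ≤ (Pset φ y z W).card

/-- A maximal state in which the colour `α` missing at `u` does not lead from `z` into `W`. -/
structure Star (G : SimpleGraph V) (u y z : V) (W : Finset V) (φ : PCol V C) (α : C) :
    Prop where
  st : MaxSt G u y z W φ
  hα : ∀ c, φ.m c u = u ↔ c = α
  free : φ.m α z ∉ W

lemma MaxSt.congr (h : MaxSt G u y z W φ) {φ' : PCol V C} (h' : IsCol G u y φ')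
    (hc : (Pset φ' y z W).card = (Pset φ y z W).card) : MaxSt G u y z W φ' :=
  ⟨h', fun φ'' h'' => by rw [hc]; exact h.max φ'' h''⟩

section
variable (hC : Cfg G C k u y z W)
include hC

lemma Cfg.zu : z ≠ u := hC.uz.ne'

lemma Cfg.zy : z ≠ y := by
  rintro rfl
  have := hC.crit.card
  have h1 := hC.zD
  have h2 := hC.yk
  have h3 := hC.hk
  omega

lemma Cfg.ne_of_deg {a b : V} (ha : G.degree a = Fintype.card C) (hb : G.degree b = k) :
    a ≠ b := by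
  rintro rfl
  have := hC.crit.card
  have h3 := hC.hk
  omega

/-- Kempe changes on `(κ, μ)`-chains avoiding `u` and `y`, with `κ` free. -/
lemma Cfg.O {α : C} (hS : Star G u y z W φ α) {κ μ : C} {v : V} (hκy : φ.m κ y ≠ y)
    (hκz : φ.m κ z ∉ W) (hμ : φ.m μ y = y) (nu : u ∉ φ.chain κ μ v) (ny : y ∉ φ.chain κ μ v) :
    Star G u y z W (φ.kswap κ μ v) α ∧ (z ∈ φ.chain κ μ v → φ.m μ z ∉ W) := by
  have hcol := hS.st.col.kswap κ μ v
  have hy' : ∀ c, (φ.kswap κ μ v).m c y = φ.m c y := fun c => φ.kswap_of_notMem ny c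
  have hu' : ∀ c, (φ.kswap κ μ v).m c u = φ.m c u := fun c => φ.kswap_of_notMem nu c
  have hα' : ∀ c, (φ.kswap κ μ v).m c u = u ↔ c = α := fun c => by rw [hu']; exact hS.hα c
  have hαμ : α ≠ μ := by
    rintro rfl
    exact hC.crit.L0 hS.st.col ((hS.hα _).mpr rfl) hμ
  by_cases hz : z ∈ φ.chain κ μ v
  · have hzW : φ.m μ z ∉ W := by
      intro hzW
      have hsub : insert κ (Pset φ y z W) ⊆ Pset (φ.kswap κ μ v) y z W := by
        intro c hc
        rw [Finset.mem_insert] at hc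
        rw [mem_Pset, hy']
        rcases hc with rfl | hc
        · exact ⟨hκy, by rw [φ.kswap_left hz]; exact hzW⟩
        · rw [mem_Pset] at hc
          have h1 : c ≠ κ := by rintro rfl; exact hκz hc.2
          have h2 : c ≠ μ := by rintro rfl; exact hc.1 hμ
          exact ⟨hc.1, by rw [φ.kswap_other _ _ h1 h2]; exact hc.2⟩
      have h1 := Finset.card_le_card hsub
      rw [Finset.card_insert_of_notMem (fun h => hκz (mem_Pset.mp h).2)] at h1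
      have h2 := hS.st.max _ hcol
      omega
    have hPs : Pset (φ.kswap κ μ v) y z W = Pset φ y z W := by
      ext c
      rw [mem_Pset, mem_Pset, hy']
      by_cases h1 : c = κ
      · subst h1
        rw [φ.kswap_left hz]
        exact ⟨fun h => absurd h.2 hzW, fun h => absurd h.2 hκz⟩
      by_cases h2 : c = μ
      · subst h2
        exact ⟨fun h => absurd hμ h.1, fun h => absurd hμ h.1⟩
      rw [φ.kswap_other _ _ h1 h2]
    refine ⟨⟨hS.st.congr hcol (by rw [hPs]), hα', ?_⟩, fun _ => hzW⟩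
    by_cases h1 : α = κ
    · subst h1
      rw [φ.kswap_left hz]; exact hzW
    · rw [φ.kswap_other _ _ h1 hαμ]; exact hS.free
  · have hz' : ∀ c, (φ.kswap κ μ v).m c z = φ.m c z := fun c => φ.kswap_of_notMem hz c
    have hPs : Pset (φ.kswap κ μ v) y z W = Pset φ y z W := by
      ext c
      rw [mem_Pset, mem_Pset, hy', hz']
    refine ⟨⟨hS.st.congr hcol (by rw [hPs]), hα', ?_⟩, fun h => absurd h hz⟩
    rw [hz']; exact hS.free

/-- The colours from `z` into `W` are not changed. -/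
lemma Cfg.O_keep {α : C} (hS : Star G u y z W φ α) {κ μ : C} {v : V} (hκy : φ.m κ y ≠ y)
    (hκz : φ.m κ z ∉ W) (hμ : φ.m μ y = y) (nu : u ∉ φ.chain κ μ v) (ny : y ∉ φ.chain κ μ v)
    {γ : C} (hγ : φ.m γ z ∈ W) : (φ.kswap κ μ v).m γ z = φ.m γ z := by
  by_cases hz : z ∈ φ.chain κ μ v
  · have h1 : γ ≠ κ := by rintro rfl; exact hκz hγ
    have h2 : γ ≠ μ := by
      rintro rfl
      exact (hC.O hS hκy hκz hμ nu ny).2 hz hγ
    exact φ.kswap_other _ _ h1 h2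
  · exact φ.kswap_of_notMem hz _

omit hC in
lemma Star.αu {α : C} (hS : Star G u y z W φ α) : φ.m α u = u := (hS.hα α).mpr rfl

lemma Cfg.αy {α : C} (hS : Star G u y z W φ α) : φ.m α y ≠ y := hC.crit.L0 hS.st.col hS.αu

/-- The Kempe changes used below, at a vertex `v` missing `α` or `μ`. -/
lemma Cfg.Oα {α : C} (hS : Star G u y z W φ α) {μ : C} {v : V} (hμ : φ.m μ y = y)
    (hvu : v ≠ u) (hvy : v ≠ y) (hv : φ.m α v = v ∨ φ.m μ v = v) :
    Star G u y z W (φ.kswap α μ v) α ∧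
      (∀ γ, φ.m γ z ∈ W → (φ.kswap α μ v).m γ z = φ.m γ z) ∧
      (∀ c, (φ.kswap α μ v).m c y = φ.m c y) ∧ (∀ c, (φ.kswap α μ v).m c u = φ.m c u) := by
  obtain ⟨nu, ny⟩ := hC.crit.not_mem_chain hS.st.col hS.αu hμ hvu hvy hv
  refine ⟨(hC.O hS (hC.αy hS) hS.free hμ nu ny).1, fun γ hγ => ?_, fun c => ?_, fun c => ?_⟩
  · exact hC.O_keep hS (hC.αy hS) hS.free hμ nu ny hγ
  · exact φ.kswap_of_notMem ny c
  · exact φ.kswap_of_notMem nu c

/-- (i) -/
lemma Cfg.i {α γ : C} (hS : Star G u y z W φ α) (hγ : φ.m γ y = y) (hγW : φ.m γ z ∈ W) :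
    z ∈ φ.chain α γ u := by
  by_contra hcon
  have l := hC.crit.linked hS.st.col hS.αu hγ
  have nu : u ∉ φ.chain α γ z := fun h => hcon (φ.chain_symm.mp h)
  have ny : y ∉ φ.chain α γ z := fun h => hcon (φ.chain_trans l (φ.chain_symm.mp h))
  exact (hC.O hS (hC.αy hS) hS.free hγ nu ny).2 (φ.mem_chain_self _ _ _) hγW

lemma Cfg.iiD {α γ : C} (hS : Star G u y z W φ α) (hγ : φ.m γ y = y) {w y' : V} (hw : w ∈ W)
    (hγw : φ.m γ z = w) (hy'u : y' ≠ u) (hy'y : y' ≠ y) (hα : φ.m α w = y')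
    (hγy' : φ.m γ y' = y') : False := by
  have l := hC.crit.linked hS.st.col hS.αu hγ
  have h1 := hC.i hS hγ (by rw [hγw]; exact hw)
  have h2 : w ∈ φ.chain α γ u := by rw [← hγw]; exact φ.chain_right.mpr h1
  have h3 : y' ∈ φ.chain α γ u := by rw [← hα]; exact φ.chain_left.mpr h2
  rcases φ.ends (Or.inl hS.αu) (Or.inr hγ) (Or.inr hγy') l h3 with e | e | e
  · exact hS.st.col.ne e
  · exact hy'u e.symm
  · exact hy'y e.symm

lemma Cfg.iiC {α γ η' : C} (hS : Star G u y z W φ α) (hγ : φ.m γ y = y) {w y' : V} (hw : w ∈ W)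
    (hγw : φ.m γ z = w) (hy'u : y' ≠ u) (hy'y : y' ≠ y) (hη' : φ.m η' w = y')
    (hη'y : φ.m η' y = y) (hη'γ : η' ≠ γ) (hαy' : φ.m α y' = y') (hγy' : φ.m γ y' = y') :
    False := by
  obtain ⟨S', K, Y, U⟩ := hC.Oα hS hη'y hy'u hy'y (Or.inl hαy')
  have hγα : γ ≠ α := by rintro rfl; exact hC.αy hS hγ
  refine hC.iiD S' (γ := γ) (w := w) (y' := y') ?_ hw ?_ hy'u hy'y ?_ ?_
  · rw [Y]; exact hγ
  · rw [K γ (by rw [hγw]; exact hw)]; exact hγw
  · rw [φ.kswap_left]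
    · exact hη'
    · rw [φ.m_eq_iff] at hη'
      rw [hη']
      exact φ.chain_right.mpr (φ.mem_chain_self _ _ _)
  · rw [φ.kswap_other _ _ hγα hη'γ.symm]; exact hγy'

lemma Cfg.iiB {α γ η' ε : C} (hS : Star G u y z W φ α) (hγ : φ.m γ y = y) {w y' : V}
    (hw : w ∈ W) (hγw : φ.m γ z = w) (hy'u : y' ≠ u) (hy'y : y' ≠ y) (hy'w : y' ≠ w)
    (hη' : φ.m η' w = y')
    (hη'y : φ.m η' y = y) (hη'γ : η' ≠ γ) (hαy' : φ.m α y' = y') (hεy : φ.m ε y = y)
    (hεy' : φ.m ε y' = y') : False := by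
  by_cases hγy' : φ.m γ y' = y'
  · exact hC.iiC hS hγ hw hγw hy'u hy'y hη' hη'y hη'γ hαy' hγy'
  have hγα : γ ≠ α := by rintro rfl; exact hC.αy hS hγ
  have hεα : ε ≠ α := by rintro rfl; exact hC.αy hS hεy
  have hη'α : η' ≠ α := by rintro rfl; exact hC.αy hS hη'y
  have hεγ : ε ≠ γ := by rintro rfl; exact hγy' hεy'
  have hη'ε : η' ≠ ε := by
    rintro rfl
    have := φ.m_eq_iff.mp hη'
    rw [hεy'] at this
    exact hy'w this.symm
  obtain ⟨S1, K1, Y1, U1⟩ := hC.Oα hS hγ hy'u hy'y (Or.inl hαy')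
  set φ1 := φ.kswap α γ y' with hφ1
  have a1 : φ1.m γ y' = y' := by rw [φ.kswap_right (φ.mem_chain_self _ _ _)]; exact hαy'
  have a2 : φ1.m ε y' = y' := by rw [φ.kswap_other _ _ hεα hεγ]; exact hεy'
  have a3 : φ1.m η' w = y' := by rw [φ.kswap_other _ _ hη'α hη'γ]; exact hη'
  have a4 : φ1.m γ z = w := by rw [K1 γ (by rw [hγw]; exact hw)]; exact hγw
  have a5 : φ1.m ε y = y := by rw [Y1]; exact hεy
  obtain ⟨S2, K2, Y2, U2⟩ := hC.Oα S1 a5 hy'u hy'y (Or.inr a2)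
  refine hC.iiC S2 (γ := γ) (η' := η') (w := w) (y' := y') ?_ hw ?_ hy'u hy'y ?_ ?_ hη'γ ?_ ?_
  · rw [Y2, Y1]; exact hγ
  · rw [K2 γ (by rw [a4]; exact hw)]; exact a4
  · rw [φ1.kswap_other _ _ hη'α hη'ε]; exact a3
  · rw [Y2, Y1]; exact hη'y
  · rw [φ1.kswap_left (φ1.mem_chain_self _ _ _)]; exact a2
  · rw [φ1.kswap_other _ _ hγα hεγ.symm]; exact a1

lemma Cfg.iiA' {α γ η' ε₁ ε₂ : C} (hS : Star G u y z W φ α) (hγ : φ.m γ y = y) {w y' : V}
    (hw : w ∈ W) (hγw : φ.m γ z = w) (hy'u : y' ≠ u) (hy'y : y' ≠ y) (hy'w : y' ≠ w)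
    (hη' : φ.m η' w = y')
    (hη'y : φ.m η' y = y) (hη'γ : η' ≠ γ) (h12 : ε₁ ≠ ε₂) (h1γ : ε₁ ≠ γ)
    (hε₁y : φ.m ε₁ y = y) (hε₁y' : φ.m ε₁ y' = y') (hε₂y : φ.m ε₂ y = y)
    (hε₂y' : φ.m ε₂ y' = y') : False := by
  have hη'α : η' ≠ α := by rintro rfl; exact hC.αy hS hη'y
  have hε₂α : ε₂ ≠ α := by rintro rfl; exact hC.αy hS hε₂y
  have hη'ε : η' ≠ ε₁ := by
    rintro rfl
    have := φ.m_eq_iff.mp hη'
    rw [hε₁y'] at this
    exact hy'w this.symm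
  obtain ⟨S1, K1, Y1, U1⟩ := hC.Oα hS hε₁y hy'u hy'y (Or.inr hε₁y')
  refine hC.iiB S1 (γ := γ) (η' := η') (ε := ε₂) (w := w) (y' := y') ?_ hw ?_ hy'u hy'y hy'w
    ?_ ?_ hη'γ ?_ ?_ ?_
  · rw [Y1]; exact hγ
  · rw [K1 γ (by rw [hγw]; exact hw)]; exact hγw
  · rw [φ.kswap_other _ _ hη'α hη'ε]; exact hη'
  · rw [Y1]; exact hη'y
  · rw [φ.kswap_left (φ.mem_chain_self _ _ _)]; exact hε₁y'
  · rw [Y1]; exact hε₂y
  · rw [φ.kswap_other _ _ hε₂α h12.symm]; exact hε₂y'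

lemma Cfg.iiA {α γ η' ε₁ ε₂ : C} (hS : Star G u y z W φ α) (hγ : φ.m γ y = y) {w y' : V}
    (hw : w ∈ W) (hγw : φ.m γ z = w) (hy'u : y' ≠ u) (hy'y : y' ≠ y) (hy'w : y' ≠ w)
    (hη' : φ.m η' w = y')
    (hη'y : φ.m η' y = y) (hη'γ : η' ≠ γ) (h12 : ε₁ ≠ ε₂)
    (hε₁y : φ.m ε₁ y = y) (hε₁y' : φ.m ε₁ y' = y') (hε₂y : φ.m ε₂ y = y)
    (hε₂y' : φ.m ε₂ y' = y') : False := by
  by_cases h1γ : ε₁ = γ
  · have h2γ : ε₂ ≠ γ := fun h => h12 (h1γ.trans h.symm)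
    exact hC.iiA' hS hγ hw hγw hy'u hy'y hy'w hη' hη'y hη'γ h12.symm h2γ hε₂y hε₂y' hε₁y hε₁y'
  · exact hC.iiA' hS hγ hw hγw hy'u hy'y hy'w hη' hη'y hη'γ h12 h1γ hε₁y hε₁y' hε₂y hε₂y'

lemma Cfg.iiE' {α γ ε₁ ε₂ : C} (hS : Star G u y z W φ α) (hγ : φ.m γ y = y) {w y' : V}
    (hw : w ∈ W) (hγw : φ.m γ z = w) (hy'u : y' ≠ u) (hy'y : y' ≠ y) (hy'w : y' ≠ w)
    (hαw : φ.m α w = y') (h12 : ε₁ ≠ ε₂) (h1γ : ε₁ ≠ γ)
    (hε₁y : φ.m ε₁ y = y) (hε₁y' : φ.m ε₁ y' = y') (hε₂y : φ.m ε₂ y = y)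
    (hε₂y' : φ.m ε₂ y' = y') : False := by
  have hε₂α : ε₂ ≠ α := by rintro rfl; exact hC.αy hS hε₂y
  obtain ⟨S1, K1, Y1, U1⟩ := hC.Oα hS hε₁y hy'u hy'y (Or.inr hε₁y')
  refine hC.iiB S1 (γ := γ) (η' := ε₁) (ε := ε₂) (w := w) (y' := y') ?_ hw ?_ hy'u hy'y hy'w
    ?_ ?_ h1γ ?_ ?_ ?_
  · rw [Y1]; exact hγ
  · rw [K1 γ (by rw [hγw]; exact hw)]; exact hγw
  · rw [φ.kswap_right]
    · exact hαw
    · rw [φ.m_eq_iff] at hαw
      rw [hαw]
      exact φ.chain_left.mpr (φ.mem_chain_self _ _ _)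
  · rw [Y1]; exact hε₁y
  · rw [φ.kswap_left (φ.mem_chain_self _ _ _)]; exact hε₁y'
  · rw [Y1]; exact hε₂y
  · rw [φ.kswap_other _ _ hε₂α h12.symm]; exact hε₂y'

/-- (ii) A leaf of `w` attached through a colour missing at `u` or `y` misses at most one colour
missing at `u` or `y`. -/
lemma Cfg.ii {α γ η' ε₁ ε₂ : C} (hS : Star G u y z W φ α) (hγ : φ.m γ y = y) {w y' : V}
    (hw : w ∈ W) (hγw : φ.m γ z = w) (hy'u : y' ≠ u) (hy'y : y' ≠ y) (hy'w : y' ≠ w)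
    (hη' : φ.m η' w = y') (hη'E : η' = α ∨ φ.m η' y = y) (hη'γ : η' ≠ γ) (h12 : ε₁ ≠ ε₂)
    (hε₁ : ε₁ = α ∨ φ.m ε₁ y = y) (hε₁y' : φ.m ε₁ y' = y') (hε₂ : ε₂ = α ∨ φ.m ε₂ y = y)
    (hε₂y' : φ.m ε₂ y' = y') : False := by
  rcases hη'E with rfl | hη'y
  · have hη'y' : φ.m η' y' ≠ y' := by
      intro h
      have := φ.m_eq_iff.mp hη'
      rw [h] at this
      exact hy'w this.symm
    have h1 : φ.m ε₁ y = y := by
      rcases hε₁ with rfl | h
      · exact absurd hε₁y' hη'y'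
      · exact h
    have h2 : φ.m ε₂ y = y := by
      rcases hε₂ with rfl | h
      · exact absurd hε₂y' hη'y'
      · exact h
    by_cases h1γ : ε₁ = γ
    · have h2γ : ε₂ ≠ γ := fun h => h12 (h1γ.trans h.symm)
      exact hC.iiE' hS hγ hw hγw hy'u hy'y hy'w hη' h12.symm h2γ h2 hε₂y' h1 hε₁y'
    · exact hC.iiE' hS hγ hw hγw hy'u hy'y hy'w hη' h12 h1γ h1 hε₁y' h2 hε₂y'
  · rcases hε₁ with rfl | h1 <;> rcases hε₂ with rfl | h2
    · exact h12 rfl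
    · exact hC.iiB hS hγ hw hγw hy'u hy'y hy'w hη' hη'y hη'γ hε₁y' h2 hε₂y'
    · exact hC.iiB hS hγ hw hγw hy'u hy'y hy'w hη' hη'y hη'γ hε₂y' h1 hε₁y'
    · exact hC.iiA hS hγ hw hγw hy'u hy'y hy'w hη' hη'y hη'γ h12 h1 hε₁y' h2 hε₂y'

/-- Missing colours of a leaf as in (ii). -/
lemma Cfg.missLeaf {α : C} (hS : Star G u y z W φ α) {v : V} (hv : G.degree v = k)
    (hvu : v ≠ u) (hvy : v ≠ y)
    (h2 : ∀ ε₁ ε₂, ε₁ ≠ ε₂ → (ε₁ = α ∨ φ.m ε₁ y = y) → φ.m ε₁ v = v →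
      (ε₂ = α ∨ φ.m ε₂ y = y) → φ.m ε₂ v = v → False) :
    (∀ β ∈ Pf φ u y, φ.m β v = v) ∧ ∃ ε, φ.m ε v = v ∧ (ε = α ∨ φ.m ε y = y) := by
  have hc := hC.crit.card
  have h0 := hC.crit.card_miss_leaf hS.st.col hv hvu hvy
  have h1 := hC.crit.card_E hS.st.col hC.yk (v := v)
  have h3 := hC.crit.card_Pf' hS.st.col hC.yk
  have hub := hC.hub
  have h4 : ((miss φ v).filter (fun c => φ.m c u = u ∨ φ.m c y = y)).card ≤ 1 := by
    rw [Finset.card_le_one]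
    intro a ha b hb
    rw [Finset.mem_filter, mem_miss, hS.hα] at ha hb
    by_contra hne
    exact h2 a b hne ha.2 ha.1 hb.2 hb.1
  constructor
  · intro β hβ
    by_contra hβw
    have h5 := hC.crit.card_E' hS.st.col hC.yk hβ hβw
    omega
  · have : 0 < ((miss φ v).filter (fun c => φ.m c u = u ∨ φ.m c y = y)).card := by omega
    obtain ⟨ε, hε⟩ := Finset.card_pos.mp this
    rw [Finset.mem_filter, mem_miss, hS.hα] at hε
    exact ⟨ε, hε.1, hε.2⟩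

omit hC in
lemma Star.Pf_sub {α : C} (hS : Star G u y z W φ α) {c : C} (hc : c ∈ Pf φ u y) :
    φ.m c u ≠ u ∧ φ.m c y ≠ y ∧ c ≠ α := by
  rw [mem_Pf] at hc
  exact ⟨hc.1, hc.2, fun h => hc.1 ((hS.hα c).mpr h)⟩

/-- There are free colours in `P`. -/
lemma Cfg.exists_free {α : C} (hS : Star G u y z W φ α) (hp : (Pset φ y z W).card ≤ 4) :
    ∃ κ ∈ Pf φ u y, φ.m κ z ∉ W := by
  have h3 := hC.crit.card_Pf' hS.st.col hC.yk
  have hub := hC.hub
  have hc := hC.crit.card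
  have hk := hC.hk
  obtain ⟨κ, h1, h2⟩ := Finset.exists_mem_notMem_of_card_lt_card
    (s := Pset φ y z W) (t := Pf φ u y) (by omega)
  refine ⟨κ, h1, fun h => h2 ?_⟩
  rw [mem_Pset]
  exact ⟨(mem_Pf.mp h1).2, h⟩

/-- (iii) At most one leaf of `w` other than `y` is attached through a colour missing at `u`
or `y`. -/
lemma Cfg.iii {α γ η₁ η₂ : C} (hS : Star G u y z W φ α) (hp : (Pset φ y z W).card ≤ 4)
    (hγ : φ.m γ y = y) {w : V}
    (hw : w ∈ W) (hγw : φ.m γ z = w) (h1 : φ.m η₁ w ∈ leaves G k w)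
    (h2 : φ.m η₂ w ∈ leaves G k w) (h1y : φ.m η₁ w ≠ y) (h2y : φ.m η₂ w ≠ y)
    (hη₁ : η₁ = α ∨ φ.m η₁ y = y) (hη₂ : η₂ = α ∨ φ.m η₂ y = y) : η₁ = η₂ := by
  by_contra hne
  have hc := hC.crit.card
  have hk := hC.hk
  obtain ⟨hUw, hwD, hzw, hwu⟩ := hC.W w hw
  rw [mem_leaves] at h1 h2
  have hcol := hS.st.col
  have a1 : φ.m η₁ w ≠ u := (hC.ne_of_deg hC.hub h1.2).symm
  have a2 : φ.m η₂ w ≠ u := (hC.ne_of_deg hC.hub h2.2).symm
  have b1 : φ.m η₁ w ≠ w := h1.1.ne'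
  have b2 : φ.m η₂ w ≠ w := h2.1.ne'
  have z1 : φ.m η₁ w ≠ z := (hC.ne_of_deg hC.zD h1.2).symm
  have z2 : φ.m η₂ w ≠ z := (hC.ne_of_deg hC.zD h2.2).symm
  have hγwz : φ.m γ w = z := (φ.m_eq_iff.mp hγw).symm
  have c1 : η₁ ≠ γ := by rintro rfl; exact z1 hγwz
  have c2 : η₂ ≠ γ := by rintro rfl; exact z2 hγwz
  have hv12 : φ.m η₁ w ≠ φ.m η₂ w := fun e => hne (φ.inj _ _ _ e b1)
  obtain ⟨f1, ε₁, e1, e1'⟩ := hC.missLeaf hS h1.2 a1 h1y
    (fun ε₁ ε₂ h12 hh1 hh2 hh3 hh4 => hC.ii hS hγ hw hγw a1 h1y b1 rfl hη₁ c1 h12 hh1 hh2 hh3 hh4)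
  obtain ⟨f2, ε₂, e2, e2'⟩ := hC.missLeaf hS h2.2 a2 h2y
    (fun ε₁ ε₂ h12 hh1 hh2 hh3 hh4 => hC.ii hS hγ hw hγw a2 h2y b2 rfl hη₂ c2 h12 hh1 hh2 hh3 hh4)
  obtain ⟨κ, hκ, hκz⟩ := hC.exists_free hS hp
  have hκ' := hS.Pf_sub hκ
  have hM := hC.crit.card_miss_y hcol hC.yk
  obtain ⟨μ, hμ, hμ'⟩ := Finset.exists_mem_notMem_of_card_lt_card
    (s := ({ε₁, ε₂, η₁, η₂, γ} : Finset C)) (t := miss φ y)
    (lt_of_le_of_lt Finset.card_le_five (by omega))
  rw [mem_miss] at hμ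
  simp only [Finset.mem_insert, Finset.mem_singleton, not_or] at hμ'
  obtain ⟨m1, m2, m3, m4, m5⟩ := hμ'
  have hu : u ∈ φ.chain κ μ y := hC.crit.F3 hC.hU hcol hC.yk hκ'.1 hκ'.2.1 hμ
  have hμα : μ ≠ α := by rintro rfl; exact hC.αy hS hμ
  -- general claim
  have claim : ∀ η ε v, φ.m η w = v → v ≠ u → v ≠ y → v ≠ w → (η = α ∨ φ.m η y = y) → η ≠ γ →
      μ ≠ η → μ ≠ ε → (ε = α ∨ φ.m ε y = y) → φ.m ε v = v → φ.m κ v = v →
      v ∈ φ.chain κ μ y := by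
    intro η ε v hηv vu vy vw hη hηγ hμη hμε hε hεv hκv
    by_contra hcon
    have ny : y ∉ φ.chain κ μ v := fun h => hcon (φ.chain_symm.mp h)
    have nu : u ∉ φ.chain κ μ v := fun h => hcon (φ.chain_trans hu (φ.chain_symm.mp h))
    have S' := (hC.O hS hκ'.2.1 hκz hμ nu ny).1
    have hηκ : η ≠ κ := by
      rintro rfl
      rcases hη with h | h
      · exact hκ'.2.2 h
      · exact hκ'.2.1 h
    have hεκ : ε ≠ κ := by
      rintro rfl
      rcases hε with h | h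
      · exact hκ'.2.2 h
      · exact hκ'.2.1 h
    have Y : ∀ c, (φ.kswap κ μ v).m c y = φ.m c y := fun c => φ.kswap_of_notMem ny c
    refine hC.ii S' (γ := γ) (w := w) (y' := v) (η' := η) (ε₁ := μ) (ε₂ := ε) ?_ hw ?_ vu vy vw
      ?_ ?_ hηγ hμε ?_ ?_ ?_ ?_
    · rw [Y]; exact hγ
    · rw [hC.O_keep hS hκ'.2.1 hκz hμ nu ny (by rw [hγw]; exact hw)]; exact hγw
    · rw [φ.kswap_other _ _ hηκ hμη.symm]; exact hηv
    · rw [Y]; exact hη
    · rw [Y]; exact Or.inr hμ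
    · rw [φ.kswap_right (φ.mem_chain_self _ _ _)]; exact hκv
    · rw [Y]; exact hε
    · rw [φ.kswap_other _ _ hεκ hμε.symm]; exact hεv
  have l1 := claim η₁ ε₁ _ rfl a1 h1y b1 hη₁ c1 m3 m1 e1' e1 (f1 κ hκ)
  have l2 := claim η₂ ε₂ _ rfl a2 h2y b2 hη₂ c2 m4 m2 e2' e2 (f2 κ hκ)
  rcases φ.ends (Or.inr hμ) (Or.inl (f1 κ hκ)) (Or.inl (f2 κ hκ)) l1 l2 with e | e | e
  · exact h1y e.symm
  · exact h2y e.symm
  · exact hv12 e

/-- Recolouring the edge `u v` (colour `c`) by `α`. -/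
lemma Cfg.O3 {α c : C} (hS : Star G u y z W φ α) (hcu : φ.m c u ≠ u) (hcy : φ.m c y ≠ y)
    (hcz : φ.m c z ∉ W) (hα : φ.m α (φ.m c u) = φ.m c u) :
    Star G u y z W (φ.kswap α c u) c ∧ (∀ d w, w ≠ u → G.degree w ≠ k →
      (φ.kswap α c u).m d w = φ.m d w) ∧ (∀ d, (φ.kswap α c u).m d y = φ.m d y) := by
  have hcol := hS.st.col
  have hk := hC.hk
  have hcc := hC.crit.card
  have hvk : G.degree (φ.m c u) = k := hC.crit.F1leaf hC.hU hcol hC.yk hcu hcy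
  have hvy : φ.m c u ≠ y := hcol.unc c
  have o : ∀ d w, w ≠ u → w ≠ φ.m c u → (φ.kswap α c u).m d w = φ.m d w :=
    fun d w h1 h2 => φ.recolor_other hS.αu rfl hα h1 h2 d
  have oy : ∀ d, (φ.kswap α c u).m d y = φ.m d y := fun d => o d y hcol.ne.symm hvy.symm
  have oz : ∀ d, (φ.kswap α c u).m d z = φ.m d z :=
    fun d => o d z hC.zu (hC.ne_of_deg hC.zD hvk)
  have hcol' := hcol.kswap α c u
  have hβ := φ.recolor_β (β := c) hS.αu
  obtain ⟨α', hα'⟩ := hC.crit.exists_alpha hC.hub hcol'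
  have : c = α' := (hα' c).mp hβ
  subst this
  have hPs : Pset (φ.kswap α c u) y z W = Pset φ y z W := by
    ext d
    rw [mem_Pset, mem_Pset, oy, oz]
  refine ⟨⟨hS.st.congr hcol' (by rw [hPs]), hα', by rw [oz]; exact hcz⟩, ?_, oy⟩
  intro d w h1 h2
  exact o d w h1 (fun e => h2 (by rw [e]; exact hvk))

/-- The number of colours missing at the leaf `φ.m c u` which are missing at `u` or `y`. -/
lemma Cfg.two_E {α c : C} (hcol : IsCol G u y φ) (hα : ∀ c, φ.m c u = u ↔ c = α)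
    (hc : c ∈ Pf φ u y) :
    1 < ((miss φ (φ.m c u)).filter (fun d => d = α ∨ φ.m d y = y)).card := by
  have hcc := hC.crit.card
  have hc' := mem_Pf.mp hc
  have hvk : G.degree (φ.m c u) = k := hC.crit.F1leaf hC.hU hcol hC.yk hc'.1 hc'.2
  have hvu : φ.m c u ≠ u := hc'.1
  have hvy : φ.m c u ≠ y := hcol.unc c
  have hcv : φ.m c (φ.m c u) ≠ φ.m c u := by rw [φ.inv]; exact hvu.symm
  have hE := hC.crit.card_E' hcol hC.yk hc hcv
  have hmv := hC.crit.card_miss_leaf hcol hvk hvu hvy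
  have hub := hC.hub
  have e : (miss φ (φ.m c u)).filter (fun d => φ.m d u = u ∨ φ.m d y = y) =
      (miss φ (φ.m c u)).filter (fun d => d = α ∨ φ.m d y = y) := by
    ext d
    rw [Finset.mem_filter, Finset.mem_filter, hα]
  rw [e] at hE
  omega

/-- The move: make a free colour `c` of `P` the missing colour at `u`, while keeping one given
colour `ε` untouched. -/
lemma Cfg.mv {α c : C} (hS : Star G u y z W φ α) (hc : c ∈ Pf φ u y) (hcz : φ.m c z ∉ W)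
    (ε : C) (hεα : ε ≠ α) (hεc : ε ≠ c) :
    ∃ φ' : PCol V C, Star G u y z W φ' c ∧ (∀ d, φ'.m d y = φ.m d y) ∧
      (∀ γ, φ.m γ z ∈ W → φ'.m γ z = φ.m γ z) ∧
      (∀ w, w ≠ u → G.degree w ≠ k → φ'.m ε w = φ.m ε w ∧ φ'.m c w = φ.m c w) ∧
      (∀ w, w ≠ u → G.degree w ≠ k → φ.m α w = y → φ'.m α w = y) := by
  have hc' := hS.Pf_sub hc
  have hcol := hS.st.col
  have hvk : G.degree (φ.m c u) = k := hC.crit.F1leaf hC.hU hcol hC.yk hc'.1 hc'.2.1
  have hvu : φ.m c u ≠ u := hc'.1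
  have hvy : φ.m c u ≠ y := hcol.unc c
  by_cases hαv : φ.m α (φ.m c u) = φ.m c u
  · obtain ⟨S', o, oy⟩ := hC.O3 hS hc'.1 hc'.2.1 hcz hαv
    refine ⟨_, S', oy, fun γ hγ => ?_, fun w h1 h2 => ⟨o ε w h1 h2, o c w h1 h2⟩,
      fun w h1 h2 h3 => ?_⟩
    · apply o γ z hC.zu
      have := hC.zD
      have := hC.crit.card
      have := hC.hk
      omega
    · rw [o α w h1 h2]; exact h3
  · obtain ⟨μ, hμ, hμε⟩ := Finset.exists_mem_ne (hC.two_E hcol hS.hα hc) ε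
    rw [Finset.mem_filter, mem_miss] at hμ
    obtain ⟨hμv, hμ⟩ := hμ
    have hμy : φ.m μ y = y := by
      rcases hμ with rfl | h
      · exact absurd hμv hαv
      · exact h
    obtain ⟨nu, ny⟩ := hC.crit.not_mem_chain hcol hS.αu hμy hvu hvy (Or.inr hμv)
    obtain ⟨S1, K1, Y1, U1⟩ := hC.Oα hS hμy hvu hvy (Or.inr hμv)
    have hcα : c ≠ α := hc'.2.2
    have hcμ : c ≠ μ := by rintro rfl; exact hc'.2.1 hμy
    have oc : ∀ w, (φ.kswap α μ (φ.m c u)).m c w = φ.m c w :=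
      fun w => φ.kswap_other _ _ hcα hcμ
    have oε : ∀ w, (φ.kswap α μ (φ.m c u)).m ε w = φ.m ε w :=
      fun w => φ.kswap_other _ _ hεα hμε.symm
    have hαw : ∀ w, φ.m α w = y → (φ.kswap α μ (φ.m c u)).m α w = y := by
      intro w hw
      have : w ∉ φ.chain α μ (φ.m c u) := fun h => ny (by rw [← hw]; exact φ.chain_left.mpr h)
      rw [φ.kswap_of_notMem this]; exact hw
    have hα1 : (φ.kswap α μ (φ.m c u)).m α (φ.m c u) = φ.m c u := by
      rw [φ.kswap_left (φ.mem_chain_self _ _ _)]; exact hμv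
    set φ1 := φ.kswap α μ (φ.m c u) with hφ1
    have e1 : φ1.m c u = φ.m c u := U1 c
    obtain ⟨S', o, oy⟩ := hC.O3 S1 (c := c) (by rw [e1]; exact hc'.1)
      (by rw [Y1]; exact hc'.2.1) (by rw [oc]; exact hcz) (by rw [e1]; exact hα1)
    refine ⟨_, S', fun d => by rw [oy, Y1], fun γ hγ => ?_,
      fun w h1 h2 => ⟨by rw [o ε w h1 h2, oε], by rw [o c w h1 h2, oc]⟩,
      fun w h1 h2 h3 => ?_⟩
    · rw [o γ z hC.zu, K1 γ hγ]
      have := hC.zD
      have := hC.crit.card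
      have := hC.hk
      omega
    · rw [o α w h1 h2]; exact hαw w h3

/-- (iv) No colour missing at `y` leads from `w` to a leaf. -/
lemma Cfg.iv {α γ ε : C} (hS : Star G u y z W φ α)
    (hp : ∀ φ' : PCol V C, IsCol G u y φ' → (Pset φ' y z W).card ≤ 4)
    (hγ : φ.m γ y = y) {w : V} (hw : w ∈ W) (hγw : φ.m γ z = w) (hε : φ.m ε y = y)
    (hεw : φ.m ε w ∈ leaves G k w) : False := by
  have hcc := hC.crit.card
  have hk := hC.hk
  have hcol := hS.st.col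
  obtain ⟨hUw, hwD, hzw, hwu⟩ := hC.W w hw
  have hwy : w ≠ y := hC.ne_of_deg hwD hC.yk
  have hwk : G.degree w ≠ k := by omega
  have hεwy : φ.m ε w ≠ y := by
    intro h
    have := φ.m_eq_iff.mp h
    rw [hε] at this
    exact hwy this
  -- choose the colour c
  obtain ⟨c, hcK, hcP, hcz, hcwy⟩ : ∃ c, φ.m c w ∈ leaves G k w ∧ c ∈ Pf φ u y ∧
      φ.m c z ∉ W ∧ φ.m c w ≠ y := by
    by_contra hcon
    push Not at hcon
    have h1 : Kc G k φ w ⊆ insert ε (Finset.univ.filter (fun c => φ.m c w = y) ∪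
        Pset φ y z W) := by
      intro c hc
      rw [mem_Kc] at hc
      rw [Finset.mem_insert, Finset.mem_union, Finset.mem_filter, mem_Pset]
      by_cases e1 : φ.m c w = y
      · exact Or.inr (Or.inl ⟨Finset.mem_univ _, e1⟩)
      by_cases e2 : c ∈ Pf φ u y
      · have e3 : φ.m c z ∈ W := by
          by_contra e3
          exact e1 (hcon c hc e2 e3)
        exact Or.inr (Or.inr ⟨(mem_Pf.mp e2).2, e3⟩)
      · left
        have e4 : c = α ∨ φ.m c y = y := by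
          rw [mem_Pf, ← not_or, not_not, hS.hα] at e2
          exact e2
        exact hC.iii hS (hp _ hcol) hγ hw hγw hc hεw e1 hεwy e4 (Or.inr hε)
    have h2 := Finset.card_le_card h1
    have h3 : (Finset.univ.filter (fun c => φ.m c w = y)).card ≤ 1 := by
      rw [Finset.card_le_one]
      intro a ha b hb
      rw [Finset.mem_filter] at ha hb
      exact φ.inj a b w (ha.2.trans hb.2.symm) (by rw [ha.2]; exact hwy.symm)
    have h4 := Finset.card_insert_le ε (Finset.univ.filter (fun c => φ.m c w = y) ∪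
        Pset φ y z W)
    have h5 := Finset.card_union_le (Finset.univ.filter (fun c => φ.m c w = y)) (Pset φ y z W)
    have h6 := hp _ hcol
    have h7 := hcol.card_Kc (k := k) hwu hwy
    have h8 := hC.crit.card_leaves hUw
    omega
  have hεα : ε ≠ α := by rintro rfl; exact hC.αy hS hε
  have hεc : ε ≠ c := by rintro rfl; exact (hS.Pf_sub hcP).2.1 hε
  obtain ⟨φ', S', Y', K', L', _⟩ := hC.mv hS hcP hcz ε hεα hεc
  obtain ⟨L1, L2⟩ := L' w hwu hwk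
  have := hC.iii S' (hp _ S'.st.col) (γ := γ) (w := w) (η₁ := ε) (η₂ := c)
    (by rw [Y']; exact hγ) hw (by rw [K' γ (by rw [hγw]; exact hw)]; exact hγw)
    (by rw [L1]; exact hεw) (by rw [L2]; exact hcK) (by rw [L1]; exact hεwy)
    (by rw [L2]; exact hcwy) (by rw [Y']; exact Or.inr hε) (Or.inl rfl)
  exact hεc this

lemma Cfg.v1 {α γ : C} (hS : Star G u y z W φ α)
    (hp : ∀ φ' : PCol V C, IsCol G u y φ' → (Pset φ' y z W).card ≤ 4)
    (hγ : φ.m γ y = y) {w : V} (hw : w ∈ W) (hγw : φ.m γ z = w)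
    (hαw : φ.m α w ∈ leaves G k w) (hαwy : φ.m α w ≠ y) : False := by
  have hcol := hS.st.col
  have h1 := (mem_leaves.mp hαw)
  have a1 : φ.m α w ≠ u := (hC.ne_of_deg hC.hub h1.2).symm
  have b1 : φ.m α w ≠ w := h1.1.ne'
  have z1 : φ.m α w ≠ z := (hC.ne_of_deg hC.zD h1.2).symm
  have hγwz : φ.m γ w = z := (φ.m_eq_iff.mp hγw).symm
  have c1 : α ≠ γ := by rintro rfl; exact z1 hγwz
  obtain ⟨f1, ε, e1, e1'⟩ := hC.missLeaf hS h1.2 a1 hαwy
    (fun ε₁ ε₂ h12 hh1 hh2 hh3 hh4 => hC.ii hS hγ hw hγw a1 hαwy b1 rfl (Or.inl rfl) c1 h12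
      hh1 hh2 hh3 hh4)
  have hεα : ε ≠ α := by
    rintro rfl
    rw [φ.inv] at e1
    exact b1 e1.symm
  have hεy : φ.m ε y = y := by
    rcases e1' with h | h
    · exact absurd h hεα
    · exact h
  obtain ⟨S', K', Y', U'⟩ := hC.Oα hS hεy a1 hαwy (Or.inr e1)
  have e2 : (φ.kswap α ε (φ.m α w)).m ε w = φ.m α w := by
    apply φ.kswap_right
    have : φ.m α (φ.m α w) ∈ φ.chain α ε (φ.m α w) :=
      φ.chain_left.mpr (φ.mem_chain_self _ _ _)
    rwa [φ.inv] at this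
  refine hC.iv S' hp (γ := γ) (ε := ε) (w := w) ?_ hw ?_ ?_ ?_
  · rw [Y']; exact hγ
  · rw [K' γ (by rw [hγw]; exact hw)]; exact hγw
  · rw [Y']; exact hεy
  · rw [e2]; exact hαw

/-- (v) In a star state there is no hub joined to `z` by a colour missing at `y`. -/
lemma Cfg.v {α γ : C} (hS : Star G u y z W φ α)
    (hp : ∀ φ' : PCol V C, IsCol G u y φ' → (Pset φ' y z W).card ≤ 4)
    (hγ : φ.m γ y = y) {w : V} (hw : w ∈ W) (hγw : φ.m γ z = w) : False := by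
  have hcc := hC.crit.card
  have hk := hC.hk
  have hcol := hS.st.col
  obtain ⟨hUw, hwD, hzw, hwu⟩ := hC.W w hw
  have hwy : w ≠ y := hC.ne_of_deg hwD hC.yk
  have hwk : G.degree w ≠ k := by omega
  have hsub : Kc G k φ w ⊆ insert α (Pf φ u y) := by
    intro c hc
    rw [mem_Kc] at hc
    rw [Finset.mem_insert, mem_Pf]
    by_cases e : c = α
    · exact Or.inl e
    · refine Or.inr ⟨fun h => e ((hS.hα c).mp h), fun h => ?_⟩
      exact hC.iv hS hp hγ hw hγw h hc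
  have h1 := hC.crit.card_Pf' hcol hC.yk
  have h2 : (insert α (Pf φ u y)).card = (Pf φ u y).card + 1 := by
    rw [Finset.card_insert_of_notMem]
    intro h
    exact (hS.Pf_sub h).2.2 rfl
  have h3 := hcol.card_Kc (k := k) hwu hwy
  have h4 := hC.crit.card_leaves hUw
  have hub := hC.hub
  have heq : Kc G k φ w = insert α (Pf φ u y) :=
    Finset.eq_of_subset_of_card_le hsub (by omega)
  have hαK : φ.m α w ∈ leaves G k w := by
    rw [← mem_Kc, heq]; exact Finset.mem_insert_self _ _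
  by_cases hαwy : φ.m α w = y
  · obtain ⟨c, hcP, hcz⟩ := hC.exists_free hS (hp _ hcol)
    have hc' := hS.Pf_sub hcP
    -- an auxiliary colour different from α and c
    obtain ⟨φ', S', Y', K', L', M'⟩ := hC.mv hS hcP hcz γ
      (by rintro rfl; exact hC.αy hS hγ) (by rintro rfl; exact hc'.2.1 hγ)
    obtain ⟨L1, L2⟩ := L' w hwu hwk
    have M1 := M' w hwu hwk hαwy
    refine hC.v1 S' hp (γ := γ) (w := w) ?_ hw ?_ ?_ ?_
    · rw [Y']; exact hγ
    · rw [K' γ (by rw [hγw]; exact hw)]; exact hγw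
    · rw [L2, ← mem_Kc, heq]; exact Finset.mem_insert_of_mem hcP
    · intro e
      exact hc'.2.2 (φ'.inj c α w (e.trans M1.symm) (by rw [e]; exact hwy.symm))
  · exact hC.v1 hS hp hγ hw hγw hαK hαwy

end

end Pool.Agent.Lib.MP_a18785_co
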