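import Mathlib
import Pool.Agent.Lib.MP_a18785_co.Step3

/-!
Existence of a star state, and the conclusion of step 3.
-/

set_option autoImplicit false
set_option linter.unusedSectionVars false

namespace Pool.Agent.Lib.MP_a18785_co

variable {V C : Type*} [DecidableEq V] [DecidableEq C] [Fintype V] [Fintype C]
variable {G : SimpleGraph V} [DecidableRel G.Adj] {k : ℕ} {u y z : V} {W : Finset V}
variable {φ : PCol V C}

lemma exists_maxSt (h : ∃ φ : PCol V C, IsCol G u y φ) :
    ∃ φ : PCol V C, MaxSt G u y z W φ := by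
  classical
  let S : Set ℕ := {n | ∃ φ : PCol V C, IsCol G u y φ ∧ (Pset φ y z W).card = n}
  have hne : S.Nonempty := by
    obtain ⟨φ, hφ⟩ := h
    exact ⟨_, φ, hφ, rfl⟩
  have hbdd : BddAbove S := by
    refine ⟨Fintype.card C, ?_⟩
    rintro n ⟨φ, _, rfl⟩
    exact Finset.card_le_univ _
  obtain ⟨φ, hφ, hn⟩ := Nat.sSup_mem hne hbdd
  refine ⟨φ, hφ, fun φ' h' => ?_⟩
  rw [hn]
  exact le_csSup hbdd ⟨φ', h', rfl⟩

section
variable (hC : Cfg G C k u y z W)
include hC

/-- The colours leading from `z` into `W` and missing at `y`. -/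
lemma Cfg.card_W (hcol : IsCol G u y φ) :
    W.card = (Pset φ y z W).card +
      (Finset.univ.filter (fun c => φ.m c y = y ∧ φ.m c z ∈ W)).card := by
  have h1 : (Finset.univ.filter (fun c => φ.m c z ∈ W)).card =
      (Pset φ y z W).card + (Finset.univ.filter (fun c => φ.m c y = y ∧ φ.m c z ∈ W)).card := by
    have e1 : Pset φ y z W = (Finset.univ.filter (fun c => φ.m c z ∈ W)).filter
        (fun c => ¬ φ.m c y = y) := by
      ext c
      simp only [mem_Pset, Finset.mem_filter, Finset.mem_univ, true_and]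
      tauto
    have e2 : (Finset.univ.filter (fun c => φ.m c y = y ∧ φ.m c z ∈ W)) =
        (Finset.univ.filter (fun c => φ.m c z ∈ W)).filter (fun c => φ.m c y = y) := by
      ext c
      simp only [Finset.mem_filter, Finset.mem_univ, true_and]
      tauto
    rw [e1, e2, add_comm, Finset.card_filter_add_card_filter_not]
  rw [← h1]
  have himg : (Finset.univ.filter (fun c => φ.m c z ∈ W)).image (fun c => φ.m c z) = W := by
    ext w
    rw [Finset.mem_image]
    constructor
    · rintro ⟨c, hc, rfl⟩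
      exact (Finset.mem_filter.mp hc).2
    · intro hw
      obtain ⟨c, hc⟩ := hcol.exists_color (hC.W w hw).2.2.1 (fun e => hC.zu e.1)
        (fun e => hC.zy e.1)
      exact ⟨c, Finset.mem_filter.mpr ⟨Finset.mem_univ _, by rw [hc]; exact hw⟩, hc⟩
  conv_lhs => rw [← himg]
  rw [Finset.card_image_of_injOn]
  intro c hc d hd hcd
  simp only [Finset.coe_filter, Finset.mem_univ, true_and, Set.mem_ofPred_eq] at hc hd
  exact φ.inj c d z hcd (hC.crit.full hcol hC.zD hC.zu hC.zy c)

/-- The recolouring step used to produce star states. -/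
lemma Cfg.star_of {α β : C} (hM : MaxSt G u y z W φ) (hα : φ.m α u = u) (hβu : φ.m β u ≠ u)
    (hβy : φ.m β y ≠ y) (hβz : φ.m β z ∉ W) (hv : φ.m α (φ.m β u) = φ.m β u) :
    Star G u y z W (φ.kswap α β u) β := by
  have hcol := hM.col
  have hk := hC.hk
  have hcc := hC.crit.card
  have hvk : G.degree (φ.m β u) = k := hC.crit.F1leaf hC.hU hcol hC.yk hβu hβy
  have hvy : φ.m β u ≠ y := hcol.unc β
  have o : ∀ d w, w ≠ u → w ≠ φ.m β u → (φ.kswap α β u).m d w = φ.m d w :=
    fun d w h1 h2 => φ.recolor_other hα rfl hv h1 h2 d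
  have oy : ∀ d, (φ.kswap α β u).m d y = φ.m d y := fun d => o d y hcol.ne.symm hvy.symm
  have oz : ∀ d, (φ.kswap α β u).m d z = φ.m d z :=
    fun d => o d z hC.zu (hC.ne_of_deg hC.zD hvk)
  have hcol' := hcol.kswap α β u
  have hβ := φ.recolor_β (β := β) hα
  obtain ⟨α', hα'⟩ := hC.crit.exists_alpha hC.hub hcol'
  have : β = α' := (hα' β).mp hβ
  subst this
  have hPs : Pset (φ.kswap α β u) y z W = Pset φ y z W := by
    ext d
    rw [mem_Pset, mem_Pset, oy, oz]
  exact ⟨hM.congr hcol' (by rw [hPs]), hα', by rw [oz]; exact hβz⟩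

/-- A star state exists if all states have few `P`-hubs. -/
lemma Cfg.exists_star (hW : k ≤ W.card + 4)
    (hp : ∀ φ' : PCol V C, IsCol G u y φ' → (Pset φ' y z W).card ≤ 4) :
    ∃ (φ : PCol V C) (α : C), Star G u y z W φ α := by
  obtain ⟨φ, hM⟩ := exists_maxSt (z := z) (W := W) (hC.crit.exCol u y hC.uy)
  have hcol := hM.col
  have hk := hC.hk
  have hcc := hC.crit.card
  obtain ⟨α, hα⟩ := hC.crit.exists_alpha hC.hub hcol
  have hαu : φ.m α u = u := (hα α).mpr rfl
  have hαy : φ.m α y ≠ y := hC.crit.L0 hcol hαu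
  by_contra hno
  push Not at hno
  have hαz : φ.m α z ∈ W := by
    by_contra h
    exact hno φ α ⟨hM, hα, h⟩
  -- free colours of P
  set F : Finset C := (Pf φ u y).filter (fun β => φ.m β z ∉ W) with hF
  have hFc : k ≤ F.card + 5 := by
    have h1 : F.card + ((Pf φ u y).filter (fun β => ¬ φ.m β z ∉ W)).card = (Pf φ u y).card :=
      Finset.card_filter_add_card_filter_not _
    have h2 : (Pf φ u y).filter (fun β => ¬ φ.m β z ∉ W) ⊆ (Pset φ y z W).erase α := by
      intro c hc
      rw [Finset.mem_filter, mem_Pf, not_not] at hc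
      rw [Finset.mem_erase, mem_Pset]
      refine ⟨?_, hc.1.2, hc.2⟩
      rintro rfl
      exact hc.1.1 hαu
    have h3 := Finset.card_le_card h2
    have hαP : α ∈ Pset φ y z W := mem_Pset.mpr ⟨hαy, hαz⟩
    rw [Finset.card_erase_of_mem hαP] at h3
    have h4 := hp φ hcol
    have h5 := hC.crit.card_Pf' hcol hC.yk
    have h6 := hC.hub
    have h7 : 0 < (Pset φ y z W).card := Finset.card_pos.mpr ⟨α, hαP⟩
    omega
  -- non-hub colours of M
  set T : Finset C := (miss φ y).filter (fun μ => φ.m μ z ∉ W) with hT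
  have hTc : T.card ≤ 8 := by
    have h1 : T.card + ((miss φ y).filter (fun μ => ¬ φ.m μ z ∉ W)).card = (miss φ y).card :=
      Finset.card_filter_add_card_filter_not _
    have h2 := hC.card_W hcol
    have h3 : (miss φ y).filter (fun μ => ¬ φ.m μ z ∉ W) =
        Finset.univ.filter (fun c => φ.m c y = y ∧ φ.m c z ∈ W) := by
      ext c
      simp [mem_miss]
    rw [h3] at h1
    have h4 := hp φ hcol
    have h5 := hC.crit.card_miss_y hcol hC.yk
    omega
  -- key facts
  have key : ∀ β ∈ F, ∀ μ, φ.m μ (φ.m β u) = φ.m β u → (μ = α ∨ φ.m μ y = y) →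
      φ.m μ y = y ∧ φ.m μ z ∉ W ∧ φ.m β u ∈ φ.chain α μ z := by
    intro β hβ μ hμv hμ
    rw [hF, Finset.mem_filter, mem_Pf] at hβ
    obtain ⟨⟨hβu, hβy⟩, hβz⟩ := hβ
    have hvy : φ.m β u ≠ y := hcol.unc β
    have hβα : β ≠ α := by rintro rfl; exact hβu hαu
    have hμy : φ.m μ y = y := by
      rcases hμ with rfl | h
      · exact absurd (hC.star_of hM hαu hβu hβy hβz hμv) (hno _ _)
      · exact h
    have hβμ : β ≠ μ := by rintro rfl; exact hβy hμy
    have hcol1 := hcol.kswap α μ (φ.m β u)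
    obtain ⟨nu, ny⟩ := hC.crit.not_mem_chain hcol hαu hμy hβu hvy (Or.inr hμv)
    have Y : ∀ c, (φ.kswap α μ (φ.m β u)).m c y = φ.m c y := fun c => φ.kswap_of_notMem ny c
    have U : ∀ c, (φ.kswap α μ (φ.m β u)).m c u = φ.m c u := fun c => φ.kswap_of_notMem nu c
    have B : ∀ w, (φ.kswap α μ (φ.m β u)).m β w = φ.m β w :=
      fun w => φ.kswap_other _ _ hβα hβμ
    -- if the number of P-hubs is unchanged we get a star state
    have fin : (Pset (φ.kswap α μ (φ.m β u)) y z W).card = (Pset φ y z W).card → False := by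
      intro hcard
      have hM1 := hM.congr hcol1 hcard
      refine hno _ _ (hC.star_of hM1 (α := α) (β := β) (by rw [U]; exact hαu)
        (by rw [B]; exact hβu) (by rw [B]; exact hβy) (by rw [B]; exact hβz) ?_)
      rw [B, φ.kswap_left (φ.mem_chain_self _ _ _)]; exact hμv
    have hz : z ∈ φ.chain α μ (φ.m β u) := by
      by_contra hz
      apply fin
      congr 1
      ext c
      rw [mem_Pset, mem_Pset, Y, φ.kswap_of_notMem hz]
    refine ⟨hμy, ?_, φ.chain_symm.mp hz⟩
    intro hμz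
    apply fin
    congr 1
    ext c
    rw [mem_Pset, mem_Pset, Y]
    by_cases e1 : c = α
    · subst e1
      rw [φ.kswap_left hz]
      exact ⟨fun h => ⟨h.1, hαz⟩, fun h => ⟨h.1, hμz⟩⟩
    by_cases e2 : c = μ
    · subst e2
      exact ⟨fun h => absurd hμy h.1, fun h => absurd hμy h.1⟩
    rw [φ.kswap_other _ _ e1 e2]
  -- double counting
  have hcount := Finset.card_mul_le_card_mul
    (fun β μ => φ.m μ (φ.m β u) = φ.m β u ∧ (μ = α ∨ φ.m μ y = y))
    (s := F) (t := T) (m := 2) (n := 2) ?_ ?_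
  · omega
  · intro β hβ
    have hβ' : β ∈ Pf φ u y := (Finset.mem_filter.mp hβ).1
    have h1 := hC.two_E hcol hα hβ'
    refine le_trans h1 (Finset.card_le_card ?_)
    intro μ hμ
    rw [Finset.mem_filter, mem_miss] at hμ
    obtain ⟨k1, k2, _⟩ := key β hβ μ hμ.1 hμ.2
    rw [Finset.bipartiteAbove, Finset.mem_filter, hT, Finset.mem_filter, mem_miss]
    exact ⟨⟨k1, k2⟩, hμ⟩
  · intro μ hμ
    by_contra hlt
    push Not at hlt
    obtain ⟨b1, hb1, b2, hb2, b3, hb3, n12, n13, n23⟩ := Finset.two_lt_card.mp hlt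
    rw [Finset.bipartiteBelow, Finset.mem_filter] at hb1 hb2 hb3
    obtain ⟨_, _, c1⟩ := key b1 hb1.1 μ hb1.2.1 hb1.2.2
    obtain ⟨_, _, c2⟩ := key b2 hb2.1 μ hb2.2.1 hb2.2.2
    obtain ⟨_, _, c3⟩ := key b3 hb3.1 μ hb3.2.1 hb3.2.2
    have g1 : φ.m b1 u ≠ u := (mem_Pf.mp (Finset.mem_filter.mp hb1.1).1).1
    have g2 : φ.m b2 u ≠ u := (mem_Pf.mp (Finset.mem_filter.mp hb2.1).1).1
    have d2 := φ.chain_trans (φ.chain_symm.mp c1) c2
    have d3 := φ.chain_trans (φ.chain_symm.mp c1) c3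
    rcases φ.ends (Or.inr hb1.2.1) (Or.inr hb2.2.1) (Or.inr hb3.2.1) d2 d3 with e | e | e
    · exact n12 (φ.inj _ _ _ e g1)
    · exact n13 (φ.inj _ _ _ e g1)
    · exact n23 (φ.inj _ _ _ e g2)

/-- Step 3: some colouring has at least five `P`-hubs. -/
theorem Cfg.step3 (hW : k ≤ W.card + 4) :
    ∃ φ : PCol V C, IsCol G u y φ ∧ 5 ≤ (Pset φ y z W).card := by
  by_contra hcon
  have hp : ∀ φ' : PCol V C, IsCol G u y φ' → (Pset φ' y z W).card ≤ 4 := by
    intro φ' h'
    by_contra hlt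
    exact hcon ⟨φ', h', by omega⟩
  obtain ⟨φ, α, hS⟩ := hC.exists_star hW hp
  have h1 := hC.card_W hS.st.col
  have h2 := hp φ hS.st.col
  have hk := hC.hk
  have : 0 < (Finset.univ.filter (fun c => φ.m c y = y ∧ φ.m c z ∈ W)).card := by omega
  obtain ⟨γ, hγ⟩ := Finset.card_pos.mp this
  rw [Finset.mem_filter] at hγ
  exact hC.v hS hp hγ.2.1 hγ.2.2 rfl

end

end Pool.Agent.Lib.MP_a18785_co
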