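import Mathlib
import Pool.Agent.Lib.MP_a18785_co.Step3b

/-!
The final counting argument.
-/

set_option autoImplicit false
set_option linter.unusedSectionVars false

namespace Pool.Agent.Lib.MP_a18785_co

variable {V C : Type*} [DecidableEq V] [DecidableEq C] [Fintype V] [Fintype C]
variable {G : SimpleGraph V} [DecidableRel G.Adj] {k : ℕ} {u y z w : V} {W : Finset V}
variable {φ χ : PCol V C}

section hubLemma
variable (hG : Crit G C k)
include hG

/-- Lemma H, first part. -/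
lemma Crit.H1 (hUw : IsU1 G k w) (h : IsCol G w z χ) {ζ c : C} (hζ : χ.m ζ z = z)
    (hc : χ.m c w ∈ leaves G k w) (hw : w ∉ χ.chain ζ c z) (d : C) :
    χ.m d (χ.m c w) = χ.m c w ↔ (χ.m d w ≠ w ∧ k < G.degree (χ.m d w)) := by
  obtain ⟨v, hv⟩ : ∃ v, χ.m c w = v := ⟨_, rfl⟩
  have hvS : v ∉ χ.chain ζ c z := by
    rw [← hv]
    exact fun h => hw (χ.chain_right.mp h)
  rw [hv] at hc ⊢
  rw [mem_leaves] at hc
  by_cases hdc : d = c
  · subst hdc
    have e1 : χ.m d v = w := (χ.m_eq_iff.mp hv).symm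
    rw [e1, hv]
    constructor
    · intro e; exact absurd e hc.1.ne
    · rintro ⟨_, e⟩
      have := hc.2
      omega
  have h1 := h.kswap ζ c z
  set χ1 := χ.kswap ζ c z with hχ1
  have hw1 : ∀ e, χ1.m e w = χ.m e w := fun e => χ.kswap_of_notMem hw e
  have hv1 : ∀ e, χ1.m e v = χ.m e v := fun e => χ.kswap_of_notMem hvS e
  have hz1 : χ1.m c z = z := by rw [χ.kswap_right (χ.mem_chain_self _ _ _)]; exact hζ
  have hcw : χ1.m c w = v := by rw [hw1]; exact hv
  have hcw' : χ1.m c w ≠ w := by rw [hcw]; exact hc.1.ne'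
  have h2 := h1.shift hz1 hcw'
  rw [hcw] at h2
  have hF := hG.F1 hUw h2 hc.2 (c := d)
  rw [PCol.shift_other _ _ _ _ hdc, hv1, hw1] at hF
  exact hF

lemma Crit.H2 (hUw : IsU1 G k w) (h : IsCol G w z χ) {ζ β c δ : C} (hζ : χ.m ζ z = z)
    (hβ : χ.m β w = w)
    (hc : χ.m c w ∈ leaves G k w) (hw : w ∉ χ.chain ζ c z) (hcζ : c ≠ ζ)
    (hδ : χ.m δ w ≠ w ∧ k < G.degree (χ.m δ w)) (hδζ : δ ≠ ζ) :
    w ∈ χ.chain β δ (χ.m c w) := by
  by_contra hcon
  have hcw := (mem_leaves.mp hc)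
  have hβζ : β ≠ ζ := by rintro rfl; exact hG.L0 h hβ hζ
  have hcβ : c ≠ β := by rintro rfl; exact hcw.1.ne' hβ
  have hcδ : c ≠ δ := by
    rintro rfl
    have := hcw.2
    omega
  have h1 := h.kswap β δ (χ.m c w)
  have hw1 : ∀ e, (χ.kswap β δ (χ.m c w)).m e w = χ.m e w := fun e => χ.kswap_of_notMem hcon e
  have e1 : (χ.kswap β δ (χ.m c w)).m ζ = χ.m ζ := χ.kswap_other' _ hβζ.symm hδζ.symm
  have e2 : (χ.kswap β δ (χ.m c w)).m c = χ.m c := χ.kswap_other' _ hcβ hcδ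
  have k1 := hG.H1 hUw h1 (ζ := ζ) (c := c) (by rw [e1]; exact hζ) (by rw [hw1]; exact hc)
    (by unfold PCol.chain; rw [e1, e2]; exact hw) δ
  have k2 := hG.H1 hUw h hζ hc hw β
  rw [hw1, hw1] at k1
  have k3 := k1.mpr hδ
  rw [χ.kswap_right (χ.mem_chain_self _ _ _)] at k3
  exact (k2.mp k3).1 hβ

/-- Lemma H: at most one leaf colour `c ≠ ζ` of `w` is such that `w` is not on the `(ζ,c)`-chain
of `z`. -/
lemma Crit.H (hk : 3 ≤ k) (hUw : IsU1 G k w) (h : IsCol G w z χ) {ζ c c' : C}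
    (hζ : χ.m ζ z = z)
    (hc : χ.m c w ∈ leaves G k w) (hw : w ∉ χ.chain ζ c z) (hcζ : c ≠ ζ)
    (hc' : χ.m c' w ∈ leaves G k w) (hw' : w ∉ χ.chain ζ c' z) (hcζ' : c' ≠ ζ) : c = c' := by
  by_contra hne
  obtain ⟨β, hβ⟩ := hG.exists_miss_x h
  -- choose δ
  have h1 := hG.card_bigN hUw
  obtain ⟨v, hv, hv'⟩ := Finset.exists_mem_notMem_of_card_lt_card
    (s := ({z, χ.m ζ w} : Finset V)) (t := bigN G k w)
    (lt_of_le_of_lt Finset.card_le_two (by omega))
  rw [mem_bigN] at hv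
  simp only [Finset.mem_insert, Finset.mem_singleton, not_or] at hv'
  obtain ⟨δ, hδ⟩ := h.exists_color hv.1 (fun e => hv'.1 e.2) (fun e => h.ne e.1)
  have hδζ : δ ≠ ζ := by rintro rfl; exact hv'.2 hδ.symm
  have hδ' : χ.m δ w ≠ w ∧ k < G.degree (χ.m δ w) := by
    rw [hδ]; exact ⟨hv.1.ne', hv.2⟩
  have l1 := hG.H2 hUw h hζ hβ hc hw hcζ hδ' hδζ
  have l2 := hG.H2 hUw h hζ hβ hc' hw' hcζ' hδ' hδζ
  have m1 := (hG.H1 hUw h hζ hc hw δ).mpr hδ'
  have m2 := (hG.H1 hUw h hζ hc' hw' δ).mpr hδ'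
  have n1 := (mem_leaves.mp hc).1.ne
  have n2 := (mem_leaves.mp hc').1.ne
  rcases χ.ends (Or.inl hβ) (Or.inr m1) (Or.inr m2) (χ.chain_symm.mp l1)
    (χ.chain_symm.mp l2) with e | e | e
  · exact n1 e
  · exact n2 e
  · exact hne (χ.inj _ _ _ e (Ne.symm n1))

end hubLemma

section
variable (hC : Cfg G C k u y z W)
include hC

/-- Preparation: the shifted colouring in which `zw` is uncoloured. -/
lemma Cfg.shifted {ζ β : C} (hcol : IsCol G u y φ) (hζy : φ.m ζ y = y) (hζu : φ.m ζ u = z)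
    (hw : w ∈ W) (hβz : φ.m β z = w) (hβu : φ.m β u = u) :
    ∃ χ : PCol V C, IsCol G w z χ ∧ χ.m ζ = (φ.shift u y ζ hcol.ne hζy hcol.unc).m ζ ∧
      χ.m ζ z = z ∧ ∀ c, c ≠ β → c ≠ ζ → χ.m c = φ.m c := by
  have hζu' : φ.m ζ u ≠ u := by rw [hζu]; exact hC.zu
  have hβζ : β ≠ ζ := by rintro rfl; exact hζu' hβu
  have h1 := (hcol.shift hζy hζu').symm
  rw [hζu] at h1
  set φs := φ.shift u y ζ hcol.ne hζy hcol.unc with hφs
  have e1 : φs.m β = φ.m β := PCol.shift_other _ _ _ _ hβζ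
  have hβu1 : φs.m β u = u := by rw [e1]; exact hβu
  have hβz1 : φs.m β z = w := by rw [e1]; exact hβz
  have hβz1' : φs.m β z ≠ z := by rw [hβz1]; exact (hC.W w hw).2.2.1.ne'
  have h2 := (h1.shift hβu1 hβz1').symm
  rw [hβz1] at h2
  refine ⟨_, h2, ?_, ?_, ?_⟩
  · exact PCol.shift_other _ _ _ _ hβζ.symm
  · rw [PCol.shift_other _ _ _ _ hβζ.symm]
    have := PCol.shift_z φ hcol.ne hζy hcol.unc hζu'
    rw [hζu] at this
    exact this
  · intro c hcβ hcζ
    rw [PCol.shift_other _ _ _ _ hcβ, PCol.shift_other _ _ _ _ hcζ]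

/-- The main claim of step 4 for one hub `w`. -/
lemma Cfg.claimS {ζ β α : C} (hcol : IsCol G u y φ) (hα : ∀ c, φ.m c u = u ↔ c = α)
    (hζy : φ.m ζ y = y) (hζu : φ.m ζ u = z)
    (hw : w ∈ W) (hβz : φ.m β z = w) (hβy : φ.m β y ≠ y) :
    ∃ X : Finset C, X.card ≤ 4 ∧ ∀ c, c ∉ X → φ.m c w ∈ leaves G k w →
      φ.m ζ (φ.m c w) = φ.m c w →
      c ≠ α ∧ c ≠ ζ ∧
      φ.m c w ∈ (φ.shift u y ζ hcol.ne hζy hcol.unc).chain ζ c z ∧
      (φ.shift u y ζ hcol.ne hζy hcol.unc).m ζ (φ.m c w) = φ.m c w := by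
  classical
  have hcc := hC.crit.card
  have hk := hC.hk
  obtain ⟨hUw, hwD, hzw, hwu⟩ := hC.W w hw
  have hwy : w ≠ y := hC.ne_of_deg hwD hC.yk
  have hwz : w ≠ z := hzw.ne'
  have hαu : φ.m α u = u := (hα α).mpr rfl
  have hζα : ζ ≠ α := by rintro rfl; exact hC.crit.L0 hcol hαu hζy
  have hζβ : ζ ≠ β := by rintro rfl; exact hβy hζy
  -- the auxiliary colouring
  obtain ⟨χ, μ, hχ, hχζ, hχz, hχc⟩ : ∃ (χ : PCol V C) (μ : C), IsCol G w z χ ∧
      χ.m ζ = (φ.shift u y ζ hcol.ne hζy hcol.unc).m ζ ∧ χ.m ζ z = z ∧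
      ∀ c, c ≠ β → c ≠ ζ → c ≠ α → c ≠ μ → χ.m c = φ.m c := by
    by_cases hβα : β = α
    · subst hβα
      obtain ⟨χ, h1, h2, h3, h4⟩ := hC.shifted hcol hζy hζu hw hβz hαu
      exact ⟨χ, β, h1, h2, h3, fun c a b _ _ => h4 c a b⟩
    · have hβP : β ∈ Pf φ u y := mem_Pf.mpr ⟨fun h => hβα ((hα β).mp h), hβy⟩
      obtain ⟨μ, hμ, hμζ⟩ := Finset.exists_mem_ne (hC.two_E hcol hα hβP) ζ
      rw [Finset.mem_filter, mem_miss] at hμ
      obtain ⟨hμv, hμ⟩ := hμ
      have hβu : φ.m β u ≠ u := (mem_Pf.mp hβP).1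
      have hvy : φ.m β u ≠ y := hcol.unc β
      have hvk : G.degree (φ.m β u) = k := hC.crit.F1leaf hC.hU hcol hC.yk hβu hβy
      obtain ⟨s1, s2, s3⟩ := hC.crit.stage1 hcol hαu hβu hvy hμv hμ
      have hβμ : β ≠ μ := by
        rintro rfl
        rcases hμ with h | h
        · exact hβα h
        · exact hβy h
      set φ1 := φ.kswap α μ (φ.m β u) with hφ1
      have h1 : IsCol G u y φ1 := hcol.kswap _ _ _
      have o1 : ∀ c, c ≠ α → c ≠ μ → φ1.m c = φ.m c := fun c a b => φ.kswap_other' _ a b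
      have hαu1 : φ1.m α u = u := by rw [s1]; exact hαu
      have hv1 : φ1.m β u = φ.m β u := s1 β
      set φ2 := φ1.kswap α β u with hφ2
      have h2 : IsCol G u y φ2 := h1.kswap _ _ _
      have o2 : ∀ c, c ≠ α → c ≠ β → φ2.m c = φ1.m c := fun c a b => φ1.kswap_other' _ a b
      have e2 : φ2.m ζ = φ.m ζ := by rw [o2 ζ hζα hζβ, o1 ζ hζα hμζ.symm]
      have hβz2 : φ2.m β z = w := by
        rw [φ1.recolor_other hαu1 hv1 s3 hC.zu (hC.ne_of_deg hC.zD hvk),
          o1 β hβα hβμ]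
        exact hβz
      obtain ⟨χ, k1, k2, k3, k4⟩ := hC.shifted (φ := φ2) (ζ := ζ) (β := β) h2
        (by rw [e2]; exact hζy) (by rw [e2]; exact hζu) hw hβz2 (φ1.recolor_β hαu1)
      refine ⟨χ, μ, k1, ?_, k3, ?_⟩
      · rw [k2]
        funext q
        simp only [PCol.shift, if_true, e2]
      · intro c c1 c2 c3 c4
        rw [k4 c c1 c2, o2 c c3 c1, o1 c c3 c4]
  -- the exceptional colours
  set L : Finset C := Finset.univ.filter
    (fun c => χ.m c w ∈ leaves G k w ∧ c ≠ ζ ∧ w ∉ χ.chain ζ c z) with hL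
  set Y : Finset C := Finset.univ.filter (fun c => φ.m c w = y) with hY
  have hLc : L.card ≤ 1 := by
    rw [Finset.card_le_one]
    intro a ha b hb
    rw [hL, Finset.mem_filter] at ha hb
    exact hC.crit.H (by omega) hUw hχ hχz ha.2.1 ha.2.2.2 ha.2.2.1 hb.2.1 hb.2.2.2 hb.2.2.1
  have hYc : Y.card ≤ 1 := by
    rw [Finset.card_le_one]
    intro a ha b hb
    rw [hY, Finset.mem_filter] at ha hb
    exact φ.inj a b w (ha.2.trans hb.2.symm) (by rw [ha.2]; exact hwy.symm)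
  refine ⟨{α, μ} ∪ (L ∪ Y), ?_, ?_⟩
  · have h1 := Finset.card_union_le ({α, μ} : Finset C) (L ∪ Y)
    have h2 := Finset.card_union_le L Y
    have h3 : ({α, μ} : Finset C).card ≤ 2 := Finset.card_le_two
    omega
  · intro c hc hleaf hmiss
    simp only [Finset.mem_union, Finset.mem_insert, Finset.mem_singleton, not_or] at hc
    obtain ⟨⟨cα, cμ⟩, cL, cY⟩ := hc
    have hl := mem_leaves.mp hleaf
    have cζ : c ≠ ζ := by
      rintro rfl
      rw [φ.inv] at hmiss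
      exact hl.1.ne hmiss
    have cβ : c ≠ β := by
      rintro rfl
      have : φ.m c w = z := (φ.m_eq_iff.mp hβz).symm
      rw [this] at hl
      exact hC.ne_of_deg hC.zD hl.2 rfl
    have e1 : χ.m c = φ.m c := hχc c cβ cζ cα cμ
    have hwc : w ∈ χ.chain ζ c z := by
      by_contra hcon
      exact cL (by rw [hL, Finset.mem_filter, e1]; exact ⟨Finset.mem_univ _, hleaf, cζ, hcon⟩)
    have vy : φ.m c w ≠ y := fun e => cY (by
      rw [hY, Finset.mem_filter]; exact ⟨Finset.mem_univ _, e⟩)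
    have hch : χ.chain ζ c z = (φ.shift u y ζ hcol.ne hζy hcol.unc).chain ζ c z := by
      unfold PCol.chain
      rw [hχζ, e1, PCol.shift_other _ _ _ _ cζ]
    refine ⟨cα, cζ, ?_, ?_⟩
    · rw [← hch, ← e1]
      exact χ.chain_right.mpr hwc
    · rw [PCol.shift_w _ _ _ _ (hC.ne_of_deg hC.hub hl.2).symm vy]
      · exact hmiss
      · rw [hζu]
        exact (hC.ne_of_deg hC.zD hl.2).symm

/-- Number of pairs (hub `w` in `J`, leaf `v` of `w` missing the colour `c`). -/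
def Nn (G : SimpleGraph V) [DecidableRel G.Adj] (k : ℕ) (J : Finset V) (φ : PCol V C) (c : C) :
    ℕ := ∑ w ∈ J, ((leaves G k w).filter (fun v => φ.m c v = v)).card

lemma Cfg.Nn_eq (hcol : IsCol G u y φ) {J : Finset V} (hJ : J ⊆ W) (ζ : C) :
    Nn G k J φ ζ = ((J ×ˢ (Finset.univ : Finset C)).filter
      (fun p => φ.m p.2 p.1 ∈ leaves G k p.1 ∧ φ.m ζ (φ.m p.2 p.1) = φ.m p.2 p.1)).card := by
  classical
  rw [Finset.card_filter, Finset.sum_product, Nn]
  apply Finset.sum_congr rfl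
  intro w hw
  rw [← Finset.card_filter]
  obtain ⟨hUw, hwD, hzw, hwu⟩ := hC.W w (hJ hw)
  have hwy : w ≠ y := hC.ne_of_deg hwD hC.yk
  have himg : (Finset.univ.filter (fun c => φ.m c w ∈ leaves G k w ∧
      φ.m ζ (φ.m c w) = φ.m c w)).image (fun c => φ.m c w) =
      (leaves G k w).filter (fun v => φ.m ζ v = v) := by
    ext v
    rw [Finset.mem_image, Finset.mem_filter]
    constructor
    · rintro ⟨c, hc, rfl⟩
      exact (Finset.mem_filter.mp hc).2
    · rintro ⟨hv, hv'⟩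
      obtain ⟨c, hc⟩ := hcol.exists_color (mem_leaves.mp hv).1 (fun e => hwu e.1)
        (fun e => hwy e.1)
      exact ⟨c, Finset.mem_filter.mpr ⟨Finset.mem_univ _, by rw [hc]; exact ⟨hv, hv'⟩⟩, hc⟩
  rw [← himg, Finset.card_image_of_injOn]
  intro c hc d hd hcd
  simp only [Finset.coe_filter, Finset.mem_univ, true_and, Set.mem_ofPred_eq] at hc hd
  exact φ.inj c d w hcd (mem_leaves.mp hc.1).1.ne'

/-- Bound on the number of leaf incidences missing `ζ`. -/
lemma Cfg.Nn_le {ζ α : C} (hcol : IsCol G u y φ) (hα : ∀ c, φ.m c u = u ↔ c = α)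
    (hζy : φ.m ζ y = y) (hζu : φ.m ζ u = z) {J : Finset V} (hJ : J ⊆ W)
    (hJP : ∀ w ∈ J, ∃ β, φ.m β z = w ∧ φ.m β y ≠ y) :
    Nn G k J φ ζ + 2 ≤ Fintype.card C + 4 * J.card := by
  classical
  rw [hC.Nn_eq hcol hJ]
  have hαu : φ.m α u = u := (hα α).mpr rfl
  have hζα : ζ ≠ α := by rintro rfl; exact hC.crit.L0 hcol hαu hζy
  have hX : ∀ w, ∃ X : Finset C, w ∈ J → (X.card ≤ 4 ∧ ∀ c, c ∉ X → φ.m c w ∈ leaves G k w →
      φ.m ζ (φ.m c w) = φ.m c w →
      c ≠ α ∧ c ≠ ζ ∧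
      φ.m c w ∈ (φ.shift u y ζ hcol.ne hζy hcol.unc).chain ζ c z ∧
      (φ.shift u y ζ hcol.ne hζy hcol.unc).m ζ (φ.m c w) = φ.m c w) := by
    intro w
    by_cases hw : w ∈ J
    · obtain ⟨β, h1, h2⟩ := hJP w hw
      obtain ⟨X, h3, h4⟩ := hC.claimS hcol hα hζy hζu (hJ hw) h1 h2
      exact ⟨X, fun _ => ⟨h3, h4⟩⟩
    · exact ⟨∅, fun h => absurd h hw⟩
  choose X hX using hX
  set φs := φ.shift u y ζ hcol.ne hζy hcol.unc with hφs
  set S := (J ×ˢ (Finset.univ : Finset C)).filter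
      (fun p => φ.m p.2 p.1 ∈ leaves G k p.1 ∧ φ.m ζ (φ.m p.2 p.1) = φ.m p.2 p.1) with hS
  have hζz : φs.m ζ z = z := by
    have := PCol.shift_z φ hcol.ne hζy hcol.unc (by rw [hζu]; exact hC.zu)
    rw [hζu] at this
    exact this
  have hsplit : (S.filter (fun p => p.2 ∈ X p.1)).card +
      (S.filter (fun p => ¬ p.2 ∈ X p.1)).card = S.card :=
    Finset.card_filter_add_card_filter_not _
  have h1 : (S.filter (fun p => p.2 ∈ X p.1)).card ≤ 4 * J.card := by
    have hsub : S.filter (fun p => p.2 ∈ X p.1) ⊆ J.biUnion (fun w => {w} ×ˢ X w) := by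
      intro p hp
      rw [Finset.mem_filter, hS, Finset.mem_filter, Finset.mem_product] at hp
      rw [Finset.mem_biUnion]
      exact ⟨p.1, hp.1.1.1, by
        rw [Finset.mem_product, Finset.mem_singleton]; exact ⟨rfl, hp.2⟩⟩
    refine le_trans (Finset.card_le_card hsub) ?_
    refine le_trans Finset.card_biUnion_le ?_
    have : ∀ w ∈ J, ((({w} : Finset V) ×ˢ X w).card) ≤ 4 := by
      intro w hw
      rw [Finset.card_product, Finset.card_singleton, one_mul]
      exact (hX w hw).1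
    have h2 := Finset.sum_le_card_nsmul J _ 4 this
    rw [smul_eq_mul] at h2
    linarith
  have h2 : (S.filter (fun p => ¬ p.2 ∈ X p.1)).card ≤
      (((Finset.univ : Finset C).erase α).erase ζ).card := by
    apply Finset.card_le_card_of_injOn (fun p => p.2)
    · intro p hp
      simp only [Finset.coe_filter, Set.mem_ofPred_eq] at hp
      obtain ⟨hpS, hpX⟩ := hp
      rw [hS, Finset.mem_filter, Finset.mem_product] at hpS
      obtain ⟨a1, a2, _⟩ := (hX p.1 hpS.1.1).2 p.2 hpX hpS.2.1 hpS.2.2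
      simp only [Finset.mem_coe, Finset.mem_erase, Finset.mem_univ, and_true]
      exact ⟨a2, a1⟩
    · intro p hp q hq hpq
      simp only [Finset.coe_filter, Set.mem_ofPred_eq] at hp hq
      obtain ⟨hpS, hpX⟩ := hp
      obtain ⟨hqS, hqX⟩ := hq
      rw [hS, Finset.mem_filter, Finset.mem_product] at hpS hqS
      obtain ⟨_, _, a3, a4⟩ := (hX p.1 hpS.1.1).2 p.2 hpX hpS.2.1 hpS.2.2
      obtain ⟨_, _, b3, b4⟩ := (hX q.1 hqS.1.1).2 q.2 hqX hqS.2.1 hqS.2.2
      obtain ⟨p1, p2⟩ := p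
      obtain ⟨q1, q2⟩ := q
      simp only at hpq a3 a4 b3 b4 hpS hqS
      subst hpq
      have n1 : z ≠ φ.m p2 p1 := hC.ne_of_deg hC.zD (mem_leaves.mp hpS.2.1).2
      have n2 : z ≠ φ.m p2 q1 := hC.ne_of_deg hC.zD (mem_leaves.mp hqS.2.1).2
      rcases φs.ends (Or.inl hζz) (Or.inl a4) (Or.inl b4) a3 b3 with e | e | e
      · exact absurd e n1
      · exact absurd e n2
      · have := congrArg (φ.m p2) e
        rw [φ.inv, φ.inv] at this
        rw [this]
  have h3 : (((Finset.univ : Finset C).erase α).erase ζ).card + 2 = Fintype.card C := by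
    rw [Finset.card_erase_of_mem (by simp [hζα]), Finset.card_erase_of_mem (Finset.mem_univ _),
      Finset.card_univ]
    have := hC.crit.card
    have := hC.hk
    omega
  omega

/-- The same bound for every colour `c₀ ≠ α`, up to an error. -/
lemma Cfg.Nn_le' {ζ α c₀ : C} (hcol : IsCol G u y φ) (hα : ∀ c, φ.m c u = u ↔ c = α)
    (hζy : φ.m ζ y = y) (hζu : φ.m ζ u = z) {J : Finset V} (hJ : J ⊆ W)
    (hJP : ∀ w ∈ J, ∃ β, φ.m β z = w ∧ φ.m β y ≠ y) (hc₀ : c₀ ≠ α) :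
    Nn G k J φ c₀ + 2 ≤ Fintype.card C + 6 * J.card := by
  classical
  have hαu : φ.m α u = u := (hα α).mpr rfl
  have hζα : ζ ≠ α := by rintro rfl; exact hC.crit.L0 hcol hαu hζy
  by_cases hcζ : c₀ = ζ
  · subst hcζ
    have := hC.Nn_le hcol hα hζy hζu hJ hJP
    omega
  have hu : u ∈ φ.chain ζ c₀ u := φ.mem_chain_self _ _ _
  have hz : z ∈ φ.chain ζ c₀ u := by rw [← hζu]; exact φ.chain_left.mpr hu
  set φ' := φ.kswap ζ c₀ u with hφ'
  have hcol' : IsCol G u y φ' := hcol.kswap _ _ _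
  have hα' : ∀ c, φ'.m c u = u ↔ c = α := by
    intro c
    rw [φ.kswap_of_mem hu, hα]
    constructor
    · intro h
      rw [Equiv.swap_apply_eq_iff, Equiv.swap_apply_of_ne_of_ne hζα.symm hc₀.symm] at h
      exact h
    · rintro rfl
      exact Equiv.swap_apply_of_ne_of_ne hζα.symm hc₀.symm
  have hζu' : φ'.m c₀ u = z := by rw [φ.kswap_right hu]; exact hζu
  have hyy : φ'.m c₀ y = y ∧ ∀ w ∈ J, ∃ β, φ'.m β z = w ∧ φ'.m β y ≠ y := by
    by_cases hcy : φ.m c₀ y = y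
    · have hy : y ∉ φ.chain ζ c₀ u := by
        intro h
        have h1 : u ∈ φ.chain ζ c₀ y := φ.chain_symm.mp h
        rw [φ.mem_chain_pair hζy (by rw [hcy]; exact hζy), hcy] at h1
        rcases h1 with h1 | h1 <;> exact hcol.ne h1
      refine ⟨by rw [φ.kswap_of_notMem hy]; exact hcy, fun w hw => ?_⟩
      obtain ⟨β, hβ1, hβ2⟩ := hJP w hw
      have n1 : β ≠ ζ := by rintro rfl; exact hβ2 hζy
      have n2 : β ≠ c₀ := by rintro rfl; exact hβ2 hcy
      exact ⟨β, by rw [φ.kswap_other _ _ n1 n2]; exact hβ1,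
        by rw [φ.kswap_of_notMem hy]; exact hβ2⟩
    · have hcu : φ.m c₀ u ≠ u := fun h => hc₀ ((hα c₀).mp h)
      have hy : y ∈ φ.chain ζ c₀ u := by
        have := hC.crit.F3 hC.hU hcol hC.yk hcu hcy hζy
        rw [φ.chain_comm]
        exact φ.chain_symm.mp this
      refine ⟨by rw [φ.kswap_right hy]; exact hζy, fun w hw => ?_⟩
      obtain ⟨β, hβ1, hβ2⟩ := hJP w hw
      refine ⟨Equiv.swap ζ c₀ β, ?_, ?_⟩
      · rw [φ.kswap_of_mem hz, Equiv.swap_apply_self]; exact hβ1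
      · rw [φ.kswap_of_mem hy, Equiv.swap_apply_self]; exact hβ2
  have hb := hC.Nn_le hcol' hα' hyy.1 hζu' hJ hyy.2
  -- comparison
  set E : Finset V := Finset.univ.filter (fun v => v ∈ φ.chain ζ c₀ u ∧ φ.m c₀ v = v) with hE
  have hEc : E.card ≤ 2 := by
    by_contra hlt
    push Not at hlt
    obtain ⟨b1, hb1, b2, hb2, b3, hb3, n12, n13, n23⟩ := Finset.two_lt_card.mp hlt
    rw [hE, Finset.mem_filter] at hb1 hb2 hb3
    have d2 := φ.chain_trans (φ.chain_symm.mp hb1.2.1) hb2.2.1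
    have d3 := φ.chain_trans (φ.chain_symm.mp hb1.2.1) hb3.2.1
    rcases φ.ends (Or.inr hb1.2.2) (Or.inr hb2.2.2) (Or.inr hb3.2.2) d2 d3 with e | e | e
    · exact n12 e
    · exact n13 e
    · exact n23 e
  have hcmp : Nn G k J φ c₀ ≤ Nn G k J φ' c₀ + 2 * J.card := by
    unfold Nn
    have : ∀ w ∈ J, ((leaves G k w).filter (fun v => φ.m c₀ v = v)).card ≤
        ((leaves G k w).filter (fun v => φ'.m c₀ v = v)).card + 2 := by
      intro w _
      have hsub : (leaves G k w).filter (fun v => φ.m c₀ v = v) ⊆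
          (leaves G k w).filter (fun v => φ'.m c₀ v = v) ∪ E := by
        intro v hv
        rw [Finset.mem_filter] at hv
        rw [Finset.mem_union, Finset.mem_filter, hE, Finset.mem_filter]
        by_cases hvc : v ∈ φ.chain ζ c₀ u
        · exact Or.inr ⟨Finset.mem_univ _, hvc, hv.2⟩
        · exact Or.inl ⟨hv.1, by rw [φ.kswap_of_notMem hvc]; exact hv.2⟩
      refine le_trans (Finset.card_le_card hsub) (le_trans (Finset.card_union_le _ _) ?_)
      omega
    refine le_trans (Finset.sum_le_sum this) ?_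
    rw [Finset.sum_add_distrib, Finset.sum_const, smul_eq_mul]
    linarith
  omega

/-- The final contradiction. -/
theorem Cfg.absurd (hk65 : 65 ≤ k) (hW : k ≤ W.card + 4) : False := by
  classical
  obtain ⟨φ, hcol, hP5⟩ := hC.step3 hW
  have hcc := hC.crit.card
  obtain ⟨α, hα⟩ := hC.crit.exists_alpha hC.hub hcol
  have hαu : φ.m α u = u := (hα α).mpr rfl
  obtain ⟨ζ, hζ⟩ := hcol.exists_color hC.uz (fun e => hC.zy e.2) (fun e => hcol.ne e.1)
  have hζy : φ.m ζ y = y := (hC.crit.F1 hC.hU hcol hC.yk).mpr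
    ⟨by rw [hζ]; exact hC.zu, by rw [hζ, hC.zD]; omega⟩
  -- choose five P-hubs
  obtain ⟨Q, hQ, hQc⟩ := Finset.exists_subset_card_eq hP5
  set J : Finset V := Q.image (fun c => φ.m c z) with hJ
  have hJW : J ⊆ W := by
    intro w hw
    rw [hJ, Finset.mem_image] at hw
    obtain ⟨c, hc, rfl⟩ := hw
    exact (mem_Pset.mp (hQ hc)).2
  have hJc : J.card = 5 := by
    rw [hJ, Finset.card_image_of_injOn, hQc]
    intro c _ d _ hcd
    exact φ.inj c d z hcd (hC.crit.full hcol hC.zD hC.zu hC.zy c)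
  have hJP : ∀ w ∈ J, ∃ β, φ.m β z = w ∧ φ.m β y ≠ y := by
    intro w hw
    rw [hJ, Finset.mem_image] at hw
    obtain ⟨c, hc, hcw⟩ := hw
    exact ⟨c, hcw, (mem_Pset.mp (hQ hc)).1⟩
  -- upper bound
  have hup : ∑ c ∈ (Finset.univ : Finset C).erase α, Nn G k J φ c ≤
      (Fintype.card C - 1) * (Fintype.card C + 28) := by
    have : ∀ c ∈ (Finset.univ : Finset C).erase α, Nn G k J φ c ≤ Fintype.card C + 28 := by
      intro c hc
      have := hC.Nn_le' hcol hα hζy hζ hJW hJP (Finset.ne_of_mem_erase hc)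
      omega
    have h2 := Finset.sum_le_card_nsmul _ _ _ this
    rw [Finset.card_erase_of_mem (Finset.mem_univ _), Finset.card_univ, smul_eq_mul] at h2
    exact h2
  -- lower bound
  have hlow : 5 * ((k - 1) * (k - 2)) ≤ ∑ c ∈ (Finset.univ : Finset C).erase α, Nn G k J φ c := by
    unfold Nn
    rw [Finset.sum_comm]
    have : ∀ w ∈ J, (k - 1) * (k - 2) ≤ ∑ c ∈ (Finset.univ : Finset C).erase α,
        ((leaves G k w).filter (fun v => φ.m c v = v)).card := by
      intro w hw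
      obtain ⟨hUw, hwD, hzw, hwu⟩ := hC.W w (hJW hw)
      simp_rw [Finset.card_filter]
      rw [Finset.sum_comm]
      have h1 : ∀ v ∈ leaves G k w, k - 2 ≤ ∑ c ∈ (Finset.univ : Finset C).erase α,
          (if φ.m c v = v then 1 else 0) := by
        intro v hv
        rw [← Finset.card_filter]
        have hvk := (mem_leaves.mp hv).2
        have hvu : v ≠ u := (hC.ne_of_deg hC.hub hvk).symm
        have h2 : k - 1 ≤ (miss φ v).card := by
          by_cases hvy : v = y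
          · subst hvy
            have := hC.crit.card_miss_y hcol hC.yk
            omega
          · have := hC.crit.card_miss_leaf hcol hvk hvu hvy
            omega
        have h3 : (miss φ v).erase α ⊆ ((Finset.univ : Finset C).erase α).filter
            (fun c => φ.m c v = v) := by
          intro c hc
          rw [Finset.mem_erase, mem_miss] at hc
          rw [Finset.mem_filter, Finset.mem_erase]
          exact ⟨⟨hc.1, Finset.mem_univ _⟩, hc.2⟩
        have h4 := Finset.card_le_card h3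
        have h5 := Finset.pred_card_le_card_erase (s := miss φ v) (a := α)
        omega
      have h6 := Finset.card_nsmul_le_sum _ _ _ h1
      have h7 := hC.crit.card_leaves hUw
      have h8 : (leaves G k w).card = k - 1 := by omega
      rw [h8, smul_eq_mul] at h6
      exact h6
    have h9 := Finset.card_nsmul_le_sum _ _ _ this
    rw [hJc, smul_eq_mul] at h9
    exact h9
  have hfin := le_trans hlow hup
  have e1 : Fintype.card C = 2 * k - 1 := by omega
  rw [e1] at hfin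
  obtain ⟨j, rfl⟩ : ∃ j, k = j + 65 := ⟨k - 65, by omega⟩
  have e2 : j + 65 - 1 = j + 64 := by omega
  have e3 : j + 65 - 2 = j + 63 := by omega
  have e4 : 2 * (j + 65) - 1 - 1 = 2 * (j + 64) := by omega
  have e5 : 2 * (j + 65) - 1 + 28 = 2 * j + 157 := by omega
  rw [e2, e3, e4, e5] at hfin
  nlinarith

end

end Pool.Agent.Lib.MP_a18785_co
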