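import Mathlib
import Pool.Agent.Lib.MP_a18785_co.Step4

/-!
A `k`-degenerate graph of maximum degree at least `2k-1` is class one for `k ≥ 65`.
-/

set_option autoImplicit false
set_option linter.unusedSectionVars false

namespace Pool.Agent.Lib.MP_a18785_co

variable {V C : Type*} [DecidableEq V] [DecidableEq C] [Fintype V] [Fintype C]

section elimination
variable {G : SimpleGraph V} [DecidableRel G.Adj] {k : ℕ}

/-- A graph without colouring has an edge. -/
lemma exists_adj_of_noFull (hN : NoFull G C) : ∃ x y, G.Adj x y := by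
  by_contra hcon
  push Not at hcon
  exact hN ⟨fun _ v => v, fun _ _ => rfl, fun _ _ _ _ h => absurd rfl h⟩
    ⟨fun _ _ h => absurd rfl h, fun v w h => absurd h (hcon v w)⟩

lemma Crit.exists_big (hG : Crit G C k) : ∃ v, k < G.degree v := by
  obtain ⟨x, y, hxy⟩ := exists_adj_of_noFull hG.noFull
  obtain ⟨φ, h⟩ := hG.exCol x y hxy
  have h1 := card_add_card_le (hG.disj_xy h)
  have h2 := h.card_miss_x
  have h3 := h.card_miss_y
  have h4 := hG.card
  by_contra hcon
  push Not at hcon
  have h5 := hcon x
  have h6 := hcon y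
  omega

/-- The elimination order argument. -/
theorem Crit.false_of_degenerate (hG : Crit G C k) (hk : 65 ≤ k)
    (hdeg : ∀ s : Finset V, s.Nonempty → ∃ v ∈ s, (s.filter (fun w => G.Adj v w)).card ≤ k) :
    False := by
  classical
  have hcc := hG.card
  -- a vertex of `U1`
  obtain ⟨v₀, hv₀⟩ := hG.exists_big
  obtain ⟨x, hx, hxk⟩ := hdeg (Finset.univ.filter (fun v => k < G.degree v))
    ⟨v₀, by simpa using hv₀⟩
  have hxU : IsU1 G k x := by
    refine ⟨by simpa using hx, ?_⟩
    convert hxk using 2
    ext v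
    simp only [mem_bigN, Finset.mem_filter, Finset.mem_univ, true_and]
    exact and_comm
  -- `V2` is nonempty
  have hV2 : ∃ v, k < G.degree v ∧ ¬ IsU1 G k v := by
    by_contra hcon
    push Not at hcon
    have hb := hG.card_bigN hxU
    obtain ⟨v, hv⟩ := Finset.card_pos.mp (show 0 < (bigN G k x).card by omega)
    rw [mem_bigN] at hv
    have hvD := hG.deg_big hxU hv.1 hv.2
    have hvU := hcon v hv.2
    have hxD := hG.deg_big hvU hv.1.symm hxU.1
    have hl := hG.card_leaves hvU
    obtain ⟨w₁, hw₁, w₂, hw₂, hne⟩ := Finset.one_lt_card.mp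
      (show 1 < (leaves G k v).card by omega)
    rw [mem_leaves] at hw₁ hw₂
    exact hne (hG.starstar (by omega) hxU hxD hv.1 hvD hw₁.1 hw₂.1 hw₁.2.le hw₂.2.le)
  obtain ⟨v₁, hv₁⟩ := hV2
  obtain ⟨z, hz, hzk⟩ := hdeg (Finset.univ.filter (fun v => k < G.degree v ∧ ¬ IsU1 G k v))
    ⟨v₁, by simpa using hv₁⟩
  rw [Finset.mem_filter] at hz
  obtain ⟨-, hzbig, hznU⟩ := hz
  set A := (G.neighborFinset z).filter (fun v => k < G.degree v ∧ ¬ IsU1 G k v) with hA
  have hAk : A.card ≤ k := by
    convert hzk using 2
    ext v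
    simp only [hA, Finset.mem_filter, Finset.mem_univ, true_and, SimpleGraph.mem_neighborFinset]
    exact and_comm
  set B := (G.neighborFinset z).filter (fun v => ¬ (k < G.degree v ∧ ¬ IsU1 G k v)) with hB
  have hAB : A.card + B.card = G.degree z := by
    rw [hA, hB, Finset.card_filter_add_card_filter_not]
    rfl
  -- a neighbour in `U1`
  have hu₀ : ∃ u, G.Adj z u ∧ IsU1 G k u := by
    by_contra hcon
    push Not at hcon
    apply hznU
    refine ⟨hzbig, le_trans (Finset.card_le_card ?_) hAk⟩
    intro v hv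
    rw [mem_bigN] at hv
    rw [hA, Finset.mem_filter, SimpleGraph.mem_neighborFinset]
    exact ⟨hv.1, hv.2, hcon v hv.1⟩
  obtain ⟨u₀, hzu₀, hu₀⟩ := hu₀
  have hzD := hG.deg_big hu₀ hzu₀.symm hzbig
  have hBk : k ≤ B.card + 1 := by omega
  set H := (G.neighborFinset z).filter (fun v => IsU1 G k v ∧ G.degree v = Fintype.card C) with hH
  have hHB : k ≤ H.card + 3 := by
    by_cases hmed : ∃ u, G.Adj z u ∧ IsU1 G k u ∧ G.degree u < Fintype.card C
    · obtain ⟨u, hzu, huU, huD⟩ := hmed
      have hl := hG.card_leaves huU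
      have := huU.1
      obtain ⟨y, hy⟩ := Finset.card_pos.mp (show 0 < (leaves G k u).card by omega)
      rw [mem_leaves] at hy
      have hsub : B ⊆ H ∪ {u, y} := by
        intro w hw
        rw [hB, Finset.mem_filter, SimpleGraph.mem_neighborFinset] at hw
        by_cases hwu : w = u
        · rw [hwu]; simp
        by_cases hwy : w = y
        · rw [hwy]; simp
        have hm := hG.medium huU huD hzu.symm hzD hy.1 hy.2 hw.1 hwu hwy
        have hwU : IsU1 G k w := by
          by_contra hcon
          exact hw.2 ⟨hm.1, hcon⟩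
        have hwD : G.degree w = Fintype.card C := by
          have := hG.deg w
          by_contra hcon
          exact hm.2 ⟨hwU, by omega⟩
        rw [Finset.mem_union]
        left
        rw [hH, Finset.mem_filter, SimpleGraph.mem_neighborFinset]
        exact ⟨hw.1, hwU, hwD⟩
      have h1 := Finset.card_le_card hsub
      have h2 := Finset.card_union_le H {u, y}
      have h3 : ({u, y} : Finset V).card ≤ 2 := Finset.card_le_two
      omega
    · push Not at hmed
      have hhub : ∀ u, G.Adj z u → IsU1 G k u → G.degree u = Fintype.card C := by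
        intro u hzu hu
        have := hmed u hzu hu
        have := hG.deg u
        omega
      have hu₀D := hhub u₀ hzu₀ hu₀
      set S := (G.neighborFinset z).filter (fun v => G.degree v ≤ k) with hS
      have hS1 : S.card ≤ 1 := by
        rw [Finset.card_le_one]
        intro a ha b hb
        rw [hS, Finset.mem_filter, SimpleGraph.mem_neighborFinset] at ha hb
        exact hG.starstar (by omega) hu₀ hu₀D hzu₀.symm hzD ha.1 hb.1 ha.2 hb.2
      have hsub : B ⊆ H ∪ S := by
        intro w hw
        rw [hB, Finset.mem_filter, SimpleGraph.mem_neighborFinset] at hw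
        rw [Finset.mem_union, hH, hS, Finset.mem_filter, Finset.mem_filter,
          SimpleGraph.mem_neighborFinset]
        by_cases hwk : G.degree w ≤ k
        · exact Or.inr ⟨hw.1, hwk⟩
        · left
          have hwU : IsU1 G k w := by
            by_contra hcon
            exact hw.2 ⟨by omega, hcon⟩
          exact ⟨hw.1, hwU, hhub w hw.1 hwU⟩
      have h1 := Finset.card_le_card hsub
      have h2 := Finset.card_union_le H S
      omega
  obtain ⟨u, hu⟩ := Finset.card_pos.mp (show 0 < H.card by omega)
  have hu' := hu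
  rw [hH, Finset.mem_filter, SimpleGraph.mem_neighborFinset] at hu'
  have hl := hG.card_leaves hu'.2.1
  obtain ⟨y, hy⟩ := Finset.card_pos.mp (show 0 < (leaves G k u).card by omega)
  rw [mem_leaves] at hy
  have hcfg : Cfg G C k u y z (H.erase u) :=
    { crit := hG
      hk := by omega
      hU := hu'.2.1
      hub := hu'.2.2
      uy := hy.1
      yk := hy.2
      uz := hu'.1.symm
      zD := hzD
      W := by
        intro w hw
        rw [Finset.mem_erase, hH, Finset.mem_filter, SimpleGraph.mem_neighborFinset] at hw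
        exact ⟨hw.2.2.1, hw.2.2.2, hw.2.1, hw.1⟩ }
  refine hcfg.absurd hk ?_
  rw [Finset.card_erase_of_mem hu]
  omega

/-- The case of at least `2k` colours. -/
theorem easy_case (hC : 2 * k ≤ Fintype.card C) (hN : NoFull G C)
    (hex : ∀ x y, G.Adj x y → ∃ φ : PCol V C, IsCol G x y φ)
    (hmax : ∀ v, G.degree v ≤ Fintype.card C)
    (hdeg : ∀ s : Finset V, s.Nonempty → ∃ v ∈ s, (s.filter (fun w => G.Adj v w)).card ≤ k) :
    False := by
  classical
  obtain ⟨x₀, y₀, hxy₀⟩ := exists_adj_of_noFull hN
  have disj : ∀ {x y : V} {φ : PCol V C}, IsCol G x y φ → Disjoint (miss φ x) (miss φ y) := by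
    intro x y φ h
    rw [Finset.disjoint_left]
    intro c hx hy
    rw [mem_miss] at hx hy
    exact h.L0 hN hx hy
  have hbig : ∃ v, k < G.degree v := by
    obtain ⟨φ, h⟩ := hex x₀ y₀ hxy₀
    have h1 := card_add_card_le (disj h)
    have h2 := h.card_miss_x
    have h3 := h.card_miss_y
    by_contra hcon
    push Not at hcon
    have h5 := hcon x₀
    have h6 := hcon y₀
    omega
  obtain ⟨v₀, hv₀⟩ := hbig
  obtain ⟨x, hx, hxk⟩ := hdeg (Finset.univ.filter (fun v => k < G.degree v))
    ⟨v₀, by simpa using hv₀⟩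
  have hxbig : k < G.degree x := by simpa using hx
  have hb : (bigN G k x).card ≤ k := by
    convert hxk using 2
    ext v
    simp only [mem_bigN, Finset.mem_filter, Finset.mem_univ, true_and]
    exact and_comm
  have hy : ∃ y, G.Adj x y ∧ G.degree y ≤ k := by
    by_contra hcon
    push Not at hcon
    have : bigN G k x = G.neighborFinset x := by
      ext v
      rw [mem_bigN, SimpleGraph.mem_neighborFinset]
      exact ⟨fun h => h.1, fun h => ⟨h, hcon v h⟩⟩
    rw [this] at hb
    have : G.degree x = (G.neighborFinset x).card := rfl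
    omega
  obtain ⟨y, hxy, hyk⟩ := hy
  obtain ⟨φ, h⟩ := hex x y hxy
  have hmx := h.card_miss_x
  have hmy := h.card_miss_y
  have hDx := hmax x
  obtain ⟨a, ha⟩ := Finset.card_pos.mp (show 0 < (miss φ x).card by omega)
  rw [mem_miss] at ha
  have hsub : (miss φ y).image (fun c => φ.m c x) ⊆ bigN G k x := by
    intro v hv
    rw [Finset.mem_image] at hv
    obtain ⟨c, hc, rfl⟩ := hv
    rw [mem_miss] at hc
    have hcx := h.L0' hN hc
    rw [mem_bigN]
    refine ⟨h.edge c x hcx, ?_⟩
    have h1 : Disjoint (miss φ (φ.m c x)) (miss φ x) := by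
      rw [Finset.disjoint_left]
      intro d hd hdx
      rw [mem_miss] at hd hdx
      exact (h.fan2 hN ha hc hd).1 hdx
    have h2 : Disjoint (miss φ (φ.m c x)) (miss φ y) := by
      rw [Finset.disjoint_left]
      intro d hd hdx
      rw [mem_miss] at hd hdx
      exact (h.fan2 hN ha hc hd).2 hdx
    have h3 := card_add_card_add_card_le h1 h2 (disj h)
    have h4 := h.card_miss_other hcx (h.unc c)
    omega
  have hinj : ((miss φ y).image (fun c => φ.m c x)).card = (miss φ y).card := by
    apply Finset.card_image_of_injOn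
    intro c hc d hd hcd
    simp only [Finset.mem_coe, mem_miss] at hc hd
    exact φ.inj c d x hcd (h.L0' hN hc)
  have h1 := Finset.card_le_card hsub
  omega

end elimination

/-- Degeneracy, without decidability. -/
def Degen (G : SimpleGraph V) (k : ℕ) : Prop :=
  ∀ s : Finset V, s.Nonempty → ∃ v ∈ s, ∀ t : Finset V, t ⊆ s → (∀ w ∈ t, G.Adj v w) →
    t.card ≤ k

/-- Maximum degree bound, without decidability. -/
def MaxDeg (G : SimpleGraph V) (D : ℕ) : Prop :=
  ∀ v, ∀ t : Finset V, (∀ w ∈ t, G.Adj v w) → t.card ≤ D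

lemma Degen.mono {G H : SimpleGraph V} {k : ℕ} (h : Degen G k) (hle : H ≤ G) : Degen H k := by
  intro s hs
  obtain ⟨v, hv, hvt⟩ := h s hs
  exact ⟨v, hv, fun t ht hw => hvt t ht fun w hwt => hle (hw w hwt)⟩

lemma MaxDeg.mono {G H : SimpleGraph V} {D : ℕ} (h : MaxDeg G D) (hle : H ≤ G) :
    MaxDeg H D := fun v t hw => h v t fun w hwt => hle (hw w hwt)

/-- Main theorem on edge colourings, in terms of families of involutions. -/
theorem exists_full {k : ℕ} (hk : 65 ≤ k) (hC : 2 * k ≤ Fintype.card C + 1)
    (G : SimpleGraph V) (hdeg : Degen G k) (hmax : MaxDeg G (Fintype.card C)) :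
    ∃ φ : PCol V C, Full G φ := by
  classical
  induction G using WellFoundedLT.induction with
  | ind G ih =>
    by_contra hcon
    push Not at hcon
    have hN : NoFull G C := hcon
    have hex : ∀ x y, G.Adj x y → ∃ φ : PCol V C, IsCol G x y φ := by
      intro x y hxy
      have hle : G.deleteEdges {s(x, y)} ≤ G := SimpleGraph.deleteEdges_le _
      have hlt : G.deleteEdges {s(x, y)} < G := by
        refine lt_of_le_of_ne hle ?_
        intro heq
        have : (G.deleteEdges {s(x, y)}).Adj x y := by rw [heq]; exact hxy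
        simp [SimpleGraph.deleteEdges_adj] at this
      obtain ⟨φ, hφ⟩ := ih _ hlt (hdeg.mono hle) (hmax.mono hle)
      refine ⟨φ, hxy, ?_, ?_, ?_⟩
      · intro c v hv
        exact hle (hφ.edge c v hv)
      · intro c hc
        have h1 := hφ.edge c x (by rw [hc]; exact hxy.ne')
        rw [hc] at h1
        simp [SimpleGraph.deleteEdges_adj] at h1
      · intro v w hvw
        by_cases h1 : v = x ∧ w = y
        · exact Or.inr (Or.inl h1)
        by_cases h2 : v = y ∧ w = x
        · exact Or.inr (Or.inr h2)
        left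
        apply hφ.col
        rw [SimpleGraph.deleteEdges_adj]
        refine ⟨hvw, ?_⟩
        rw [Set.mem_singleton_iff, Sym2.eq_iff]
        tauto
    have hdeg' : ∀ s : Finset V, s.Nonempty →
        ∃ v ∈ s, (s.filter (fun w => G.Adj v w)).card ≤ k := by
      intro s hs
      obtain ⟨v, hv, hvt⟩ := hdeg s hs
      exact ⟨v, hv, hvt _ (Finset.filter_subset _ _) fun w hw => (Finset.mem_filter.mp hw).2⟩
    have hmax' : ∀ v, G.degree v ≤ Fintype.card C := by
      intro v
      exact hmax v (G.neighborFinset v) fun w hw => (SimpleGraph.mem_neighborFinset _ _ _).mp hw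
    by_cases hCk : 2 * k ≤ Fintype.card C
    · exact easy_case hCk hN hex hmax' hdeg'
    · exact Crit.false_of_degenerate ⟨by omega, hN, hex, hmax'⟩ hk hdeg'

/-- From involutions to a colouring of the line graph. -/
theorem colorable_of_full {G : SimpleGraph V} {D : ℕ} {φ : PCol V (Fin D)} (h : Full G φ) :
    G.lineGraph.Colorable D := by
  classical
  have key : ∀ e : G.edgeSet, ∃ c : Fin D, ∀ v, v ∈ e.1 → e.1 = s(v, φ.m c v) := by
    rintro ⟨e, he⟩
    induction e using Sym2.ind with
    | _ v w =>
      obtain ⟨c, hc⟩ := h.col v w he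
      refine ⟨c, ?_⟩
      intro p hp
      rw [Sym2.mem_iff] at hp
      rcases hp with rfl | rfl
      · rw [hc]
      · have hp : φ.m c p = v := by rw [← hc, φ.inv]
        change s(v, p) = s(p, φ.m c p)
        rw [hp]
        exact Sym2.eq_swap
  choose f hf using key
  refine ⟨SimpleGraph.Coloring.mk f ?_⟩
  intro e₁ e₂ hadj hfe
  rw [SimpleGraph.lineGraph_adj_iff_exists] at hadj
  obtain ⟨hne, v, hv₁, hv₂⟩ := hadj
  apply hne
  apply Subtype.ext
  rw [hf e₁ v hv₁, hf e₂ v hv₂, hfe]

end Pool.Agent.Lib.MP_a18785_co
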